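import Pool.Agent.Helper47.GomZ.A0
import Pool.Agent.Helper47.GomZ.A1
import Pool.Agent.Helper47.GomZ.A2
import Pool.Agent.Helper47.GomZ.A3
import Pool.Agent.Helper47.GomZ.A4
import Pool.Agent.Helper47.GomZ.A5
import Pool.Agent.Helper47.GomZ.A6
import Pool.Agent.Helper47.GomZ.A7
import Pool.Agent.Helper47.GomZ.A8
import Pool.Agent.Helper47.GomZ.A9
import Pool.Agent.Helper47.GomZ.A10
import Pool.Agent.Helper47.GomZ.A11
import Pool.Agent.Helper47.GomZ.A12
import Pool.Agent.Helper47.GomZ.A13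
import Pool.Agent.Helper47.GomZ.A14
import Pool.Agent.Helper47.GomZ.A15
import Pool.Agent.Helper47.GomZ.A16
import Pool.Agent.Helper47.GomZ.A17
import Pool.Agent.Helper47.GomZ.A18
import Pool.Agent.Helper47.GomZ.A19
import Pool.Agent.Helper47.GomZ.A20
import Pool.Agent.Helper47.GomZ.A21
import Pool.Agent.Helper47.GomZ.A22
import Pool.Agent.Helper47.GomZ.A23
import Pool.Agent.Helper47.GomZ.A24
import Pool.Agent.Helper47.GomZ.A25
import Pool.Agent.Helper47.GomZ.A26
import Pool.Agent.Helper47.GomZ.A27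
import Pool.Agent.Helper47.GomZ.A28
import Pool.Agent.Helper47.GomZ.A29
import Pool.Agent.Helper47.GomZ.A30
import Pool.Agent.Helper47.GomZ.A31
import Pool.Agent.Helper36.Gomoku.YGet
import Pool.Agent.Helper36.Gomoku.XItem
set_option autoImplicit false
set_option linter.all false
namespace Pool.Agent.Gomoku
noncomputable def tA : XTb := (.node (.node (.node (.node (.node (.node (.node tA0 tA64) (.node tA32 tA96)) (.node (.node tA16 tA80) (.node tA48 tA112))) (.node (.node (.node tA8 tA72) (.node tA40 tA104)) (.node (.node tA24 tA88) (.node tA56 tA120)))) (.node (.node (.node (.node tA4 tA68) (.node tA36 tA100)) (.node (.node tA20 tA84) (.node tA52 tA116))) (.node (.node (.node tA12 tA76) (.node tA44 tA108)) (.node (.node tA28 tA92) (.node tA60 tA124))))) (.node (.node (.node (.node (.node tA2 tA66) (.node tA34 tA98)) (.node (.node tA18 tA82) (.node tA50 tA114))) (.node (.node (.node tA10 tA74) (.node tA42 tA106)) (.node (.node tA26 tA90) (.node tA58 tA122)))) (.node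 (.node (.node (.node tA6 tA70) (.node tA38 tA102)) (.node (.node tA22 tA86) (.node tA54 tA118))) (.node (.node (.node tA14 tA78) (.node tA46 tA110)) (.node (.node tA30 tA94) (.node tA62 tA126)))))) (.node (.node (.node (.node (.node (.node tA1 tA65) (.node tA33 tA97)) (.node (.node tA17 tA81) (.node tA49 tA113))) (.node (.node (.node tA9 tA73) (.node tA41 tA105)) (.node (.node tA25 tA89) (.node tA57 tA121)))) (.node (.node (.node (.node tA5 tA69) (.node tA37 tA101)) (.node (.node tA21 tA85) (.node tA53 tA117))) (.node (.node (.node tA13 tA77) (.node tA45 tA109)) (.node (.node tA29 tA93) (.node tA61 tA125))))) (.node (.node (.node (.node (.node tA3 tA67) (.node tA35 tA99)) (.node (.node tA19 tA83) (.node tA51 tA115))) (.node (.node (.node tA11 tA75) (.node tA43 tA107)) (.node (.node tA27 tA91) (.node tA59 tA123)))) (.node (.node (.node (.node tA7 tA71) (.node tA39 tA103)) (.node (.node tA23 tA87) (.node tA55 tA119))) (.node (.node (.node tA15 tA79) (.node tA47 tA111))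 (.node (.node tA31 tA95) (.node tA63 tA127)))))))
theorem tA_ok : tA.all 300 = true := (XTb.all_of_node (XTb.all_of_node (XTb.all_of_node (XTb.all_of_node (XTb.all_of_node (XTb.all_of_node (XTb.all_of_node tA0_ok tA64_ok) (XTb.all_of_node tA32_ok tA96_ok)) (XTb.all_of_node (XTb.all_of_node tA16_ok tA80_ok) (XTb.all_of_node tA48_ok tA112_ok))) (XTb.all_of_node (XTb.all_of_node (XTb.all_of_node tA8_ok tA72_ok) (XTb.all_of_node tA40_ok tA104_ok)) (XTb.all_of_node (XTb.all_of_node tA24_ok tA88_ok) (XTb.all_of_node tA56_ok tA120_ok)))) (XTb.all_of_node (XTb.all_of_node (XTb.all_of_node (XTb.all_of_node tA4_ok tA68_ok) (XTb.all_of_node tA36_ok tA100_ok)) (XTb.all_of_node (XTb.all_of_node tA20_ok tA84_ok) (XTb.all_of_node tA52_ok tA116_ok))) (XTb.all_of_node (XTb.all_of_node (XTb.all_of_node tA12_ok tA76_ok) (XTb.all_of_node tA44_ok tA108_ok)) (XTb.all_of_node (XTb.all_of_node tA28_ok tA92_ok) (XTb.all_of_node tA60_ok tA124_ok))))) (XTb.all_of_node (XTb.all_of_node (XTb.all_of_node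 (XTb.all_of_node (XTb.all_of_node tA2_ok tA66_ok) (XTb.all_of_node tA34_ok tA98_ok)) (XTb.all_of_node (XTb.all_of_node tA18_ok tA82_ok) (XTb.all_of_node tA50_ok tA114_ok))) (XTb.all_of_node (XTb.all_of_node (XTb.all_of_node tA10_ok tA74_ok) (XTb.all_of_node tA42_ok tA106_ok)) (XTb.all_of_node (XTb.all_of_node tA26_ok tA90_ok) (XTb.all_of_node tA58_ok tA122_ok)))) (XTb.all_of_node (XTb.all_of_node (XTb.all_of_node (XTb.all_of_node tA6_ok tA70_ok) (XTb.all_of_node tA38_ok tA102_ok)) (XTb.all_of_node (XTb.all_of_node tA22_ok tA86_ok) (XTb.all_of_node tA54_ok tA118_ok))) (XTb.all_of_node (XTb.all_of_node (XTb.all_of_node tA14_ok tA78_ok) (XTb.all_of_node tA46_ok tA110_ok)) (XTb.all_of_node (XTb.all_of_node tA30_ok tA94_ok) (XTb.all_of_node tA62_ok tA126_ok)))))) (XTb.all_of_node (XTb.all_of_node (XTb.all_of_node (XTb.all_of_node (XTb.all_of_node (XTb.all_of_node tA1_ok tA65_ok) (XTb.all_of_node tA33_ok tA97_ok)) (XTb.all_of_node (XTb.all_of_node tA17_ok tA81_ok) (XTb.all_of_node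 tA49_ok tA113_ok))) (XTb.all_of_node (XTb.all_of_node (XTb.all_of_node tA9_ok tA73_ok) (XTb.all_of_node tA41_ok tA105_ok)) (XTb.all_of_node (XTb.all_of_node tA25_ok tA89_ok) (XTb.all_of_node tA57_ok tA121_ok)))) (XTb.all_of_node (XTb.all_of_node (XTb.all_of_node (XTb.all_of_node tA5_ok tA69_ok) (XTb.all_of_node tA37_ok tA101_ok)) (XTb.all_of_node (XTb.all_of_node tA21_ok tA85_ok) (XTb.all_of_node tA53_ok tA117_ok))) (XTb.all_of_node (XTb.all_of_node (XTb.all_of_node tA13_ok tA77_ok) (XTb.all_of_node tA45_ok tA109_ok)) (XTb.all_of_node (XTb.all_of_node tA29_ok tA93_ok) (XTb.all_of_node tA61_ok tA125_ok))))) (XTb.all_of_node (XTb.all_of_node (XTb.all_of_node (XTb.all_of_node (XTb.all_of_node tA3_ok tA67_ok) (XTb.all_of_node tA35_ok tA99_ok)) (XTb.all_of_node (XTb.all_of_node tA19_ok tA83_ok) (XTb.all_of_node tA51_ok tA115_ok))) (XTb.all_of_node (XTb.all_of_node (XTb.all_of_node tA11_ok tA75_ok) (XTb.all_of_node tA43_ok tA107_ok)) (XTb.all_of_node (XTb.all_of_node tA27_ok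 tA91_ok) (XTb.all_of_node tA59_ok tA123_ok)))) (XTb.all_of_node (XTb.all_of_node (XTb.all_of_node (XTb.all_of_node tA7_ok tA71_ok) (XTb.all_of_node tA39_ok tA103_ok)) (XTb.all_of_node (XTb.all_of_node tA23_ok tA87_ok) (XTb.all_of_node tA55_ok tA119_ok))) (XTb.all_of_node (XTb.all_of_node (XTb.all_of_node tA15_ok tA79_ok) (XTb.all_of_node tA47_ok tA111_ok)) (XTb.all_of_node (XTb.all_of_node tA31_ok tA95_ok) (XTb.all_of_node tA63_ok tA127_ok)))))))
theorem bt_x : GoodX tA.get := goodX_of_all tA_ok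
theorem bt_v : ∀ i, ItemValid2 (tA.get i) := fun i => (bt_x i).1.valid2
end Pool.Agent.Gomoku
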