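import Pool.Agent.Helper47.GomZ.C0
import Pool.Agent.Helper47.GomZ.C1
import Pool.Agent.Helper47.GomZ.C2
import Pool.Agent.Helper47.GomZ.C3
import Pool.Agent.Helper47.GomZ.C4
import Pool.Agent.Helper47.GomZ.C5
import Pool.Agent.Helper47.GomZ.C6
import Pool.Agent.Helper47.GomZ.C7
import Pool.Agent.Helper47.GomZ.C8
import Pool.Agent.Helper47.GomZ.C9
import Pool.Agent.Helper47.GomZ.C10
import Pool.Agent.Helper47.GomZ.C11
import Pool.Agent.Helper47.GomZ.C12
import Pool.Agent.Helper47.GomZ.C13
import Pool.Agent.Helper47.GomZ.C14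
import Pool.Agent.Helper47.GomZ.C15
set_option autoImplicit false
set_option linter.all false
namespace Pool.Agent.Gomoku
noncomputable def tC : CTb := (.node (.node (.node (.node (.node (.node tC0 tC32) (.node tC16 tC48)) (.node (.node tC8 tC40) (.node tC24 tC56))) (.node (.node (.node tC4 tC36) (.node tC20 tC52)) (.node (.node tC12 tC44) (.node tC28 tC60)))) (.node (.node (.node (.node tC2 tC34) (.node tC18 tC50)) (.node (.node tC10 tC42) (.node tC26 tC58))) (.node (.node (.node tC6 tC38) (.node tC22 tC54)) (.node (.node tC14 tC46) (.node tC30 tC62))))) (.node (.node (.node (.node (.node tC1 tC33) (.node tC17 tC49)) (.node (.node tC9 tC41) (.node tC25 tC57))) (.node (.node (.node tC5 tC37) (.node tC21 tC53)) (.node (.node tC13 tC45) (.node tC29 tC61)))) (.node (.node (.node (.node tC3 tC35) (.node tC19 tC51)) (.node (.node tC11 tC43) (.node tC27 tC59))) (.node (.node (.node tC7 tC39) (.node tC23 tC55)) (.node (.node tC15 tC47) (.node tC31 tC63))))))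
theorem tC_good : tC.Good2 := (CTb.Good2.node (CTb.Good2.node (CTb.Good2.node (CTb.Good2.node (CTb.Good2.node (CTb.Good2.node tC0_good tC32_good) (CTb.Good2.node tC16_good tC48_good)) (CTb.Good2.node (CTb.Good2.node tC8_good tC40_good) (CTb.Good2.node tC24_good tC56_good))) (CTb.Good2.node (CTb.Good2.node (CTb.Good2.node tC4_good tC36_good) (CTb.Good2.node tC20_good tC52_good)) (CTb.Good2.node (CTb.Good2.node tC12_good tC44_good) (CTb.Good2.node tC28_good tC60_good)))) (CTb.Good2.node (CTb.Good2.node (CTb.Good2.node (CTb.Good2.node tC2_good tC34_good) (CTb.Good2.node tC18_good tC50_good)) (CTb.Good2.node (CTb.Good2.node tC10_good tC42_good) (CTb.Good2.node tC26_good tC58_good))) (CTb.Good2.node (CTb.Good2.node (CTb.Good2.node tC6_good tC38_good) (CTb.Good2.node tC22_good tC54_good)) (CTb.Good2.node (CTb.Good2.node tC14_good tC46_good) (CTb.Good2.node tC30_good tC62_good))))) (CTb.Good2.node (CTb.Good2.node (CTb.Good2.node (CTb.Good2.node (CTb.Good2.node tC1_good tC33_good) (CTb.Good2.node tC17_good tC49_good))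 (CTb.Good2.node (CTb.Good2.node tC9_good tC41_good) (CTb.Good2.node tC25_good tC57_good))) (CTb.Good2.node (CTb.Good2.node (CTb.Good2.node tC5_good tC37_good) (CTb.Good2.node tC21_good tC53_good)) (CTb.Good2.node (CTb.Good2.node tC13_good tC45_good) (CTb.Good2.node tC29_good tC61_good)))) (CTb.Good2.node (CTb.Good2.node (CTb.Good2.node (CTb.Good2.node tC3_good tC35_good) (CTb.Good2.node tC19_good tC51_good)) (CTb.Good2.node (CTb.Good2.node tC11_good tC43_good) (CTb.Good2.node tC27_good tC59_good))) (CTb.Good2.node (CTb.Good2.node (CTb.Good2.node tC7_good tC39_good) (CTb.Good2.node tC23_good tC55_good)) (CTb.Good2.node (CTb.Good2.node tC15_good tC47_good) (CTb.Good2.node tC31_good tC63_good))))))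
end Pool.Agent.Gomoku
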