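import Pool.Agent.Helper47.GomZ.P0
import Pool.Agent.Helper47.GomZ.P1
import Pool.Agent.Helper47.GomZ.P2
import Pool.Agent.Helper47.GomZ.P3
import Pool.Agent.Helper47.GomZ.P4
import Pool.Agent.Helper47.GomZ.P5
import Pool.Agent.Helper47.GomZ.P6
import Pool.Agent.Helper47.GomZ.P7
import Pool.Agent.Helper47.GomZ.P8
import Pool.Agent.Helper47.GomZ.P9
import Pool.Agent.Helper47.GomZ.P10
import Pool.Agent.Helper47.GomZ.P11
import Pool.Agent.Helper47.GomZ.P12
import Pool.Agent.Helper47.GomZ.P13
import Pool.Agent.Helper47.GomZ.P14
import Pool.Agent.Helper47.GomZ.P15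
import Pool.Agent.Helper47.GomZ.P16
import Pool.Agent.Helper47.GomZ.P17
import Pool.Agent.Helper47.GomZ.P18
import Pool.Agent.Helper47.GomZ.P19
import Pool.Agent.Helper47.GomZ.P20
import Pool.Agent.Helper47.GomZ.P21
import Pool.Agent.Helper47.GomZ.P22
import Pool.Agent.Helper47.GomZ.P23
import Pool.Agent.Helper47.GomZ.P24
import Pool.Agent.Helper47.GomZ.P25
import Pool.Agent.Helper47.GomZ.P26
import Pool.Agent.Helper47.GomZ.P27
import Pool.Agent.Helper47.GomZ.P28
set_option autoImplicit false
set_option linter.all false
namespace Pool.Agent.Gomoku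
noncomputable def tP : PTb := (.node (.node (.node (.node (.node (.node (.node (.node (.node (.node tP0 tP512) (.node tP256 dummyP)) (.node (.node tP128 tP640) (.node tP384 dummyP))) (.node (.node (.node tP64 tP576) (.node tP320 dummyP)) (.node (.node tP192 dummyP) (.node tP448 dummyP)))) (.node (.node (.node (.node tP32 tP544) (.node tP288 dummyP)) (.node (.node tP160 tP672) (.node tP416 dummyP))) (.node (.node (.node tP96 tP608) (.node tP352 dummyP)) (.node (.node tP224 dummyP) (.node tP480 dummyP))))) (.node (.node (.node (.node (.node tP16 tP528) (.node tP272 dummyP)) (.node (.node tP144 tP656) (.node tP400 dummyP))) (.node (.node (.node tP80 tP592) (.node tP336 dummyP)) (.node (.node tP208 dummyP) (.node tP464 dummyP)))) (.node (.node (.node (.node tP48 tP560) (.node tP304 dummyP)) (.node (.node tP176 tP688) (.node tP432 dummyP))) (.node (.node (.node tP112 tP624) (.node tP368 dummyP)) (.node (.node tP240 dummyP) (.node tP496 dummyP)))))) (.node (.node (.node (.node (.node (.node tP8 tP520) (.node tP264 dummyP)) (.node (.node tP136 tP648) (.node tP392 dummyP))) (.node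 (.node (.node tP72 tP584) (.node tP328 dummyP)) (.node (.node tP200 dummyP) (.node tP456 dummyP)))) (.node (.node (.node (.node tP40 tP552) (.node tP296 dummyP)) (.node (.node tP168 tP680) (.node tP424 dummyP))) (.node (.node (.node tP104 tP616) (.node tP360 dummyP)) (.node (.node tP232 dummyP) (.node tP488 dummyP))))) (.node (.node (.node (.node (.node tP24 tP536) (.node tP280 dummyP)) (.node (.node tP152 tP664) (.node tP408 dummyP))) (.node (.node (.node tP88 tP600) (.node tP344 dummyP)) (.node (.node tP216 dummyP) (.node tP472 dummyP)))) (.node (.node (.node (.node tP56 tP568) (.node tP312 dummyP)) (.node (.node tP184 tP696) (.node tP440 dummyP))) (.node (.node (.node tP120 tP632) (.node tP376 dummyP)) (.node (.node tP248 dummyP) (.node tP504 dummyP))))))) (.node (.node (.node (.node (.node (.node (.node tP4 tP516) (.node tP260 dummyP)) (.node (.node tP132 tP644) (.node tP388 dummyP))) (.node (.node (.node tP68 tP580) (.node tP324 dummyP)) (.node (.node tP196 dummyP) (.node tP452 dummyP)))) (.node (.node (.node (.node tP36 tP548) (.node tP292 dummyP)) (.node (.node tP164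 tP676) (.node tP420 dummyP))) (.node (.node (.node tP100 tP612) (.node tP356 dummyP)) (.node (.node tP228 dummyP) (.node tP484 dummyP))))) (.node (.node (.node (.node (.node tP20 tP532) (.node tP276 dummyP)) (.node (.node tP148 tP660) (.node tP404 dummyP))) (.node (.node (.node tP84 tP596) (.node tP340 dummyP)) (.node (.node tP212 dummyP) (.node tP468 dummyP)))) (.node (.node (.node (.node tP52 tP564) (.node tP308 dummyP)) (.node (.node tP180 tP692) (.node tP436 dummyP))) (.node (.node (.node tP116 tP628) (.node tP372 dummyP)) (.node (.node tP244 dummyP) (.node tP500 dummyP)))))) (.node (.node (.node (.node (.node (.node tP12 tP524) (.node tP268 dummyP)) (.node (.node tP140 tP652) (.node tP396 dummyP))) (.node (.node (.node tP76 tP588) (.node tP332 dummyP)) (.node (.node tP204 dummyP) (.node tP460 dummyP)))) (.node (.node (.node (.node tP44 tP556) (.node tP300 dummyP)) (.node (.node tP172 tP684) (.node tP428 dummyP))) (.node (.node (.node tP108 tP620) (.node tP364 dummyP)) (.node (.node tP236 dummyP) (.node tP492 dummyP))))) (.node (.node (.node (.node (.node tP28 tP540)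 (.node tP284 dummyP)) (.node (.node tP156 tP668) (.node tP412 dummyP))) (.node (.node (.node tP92 tP604) (.node tP348 dummyP)) (.node (.node tP220 dummyP) (.node tP476 dummyP)))) (.node (.node (.node (.node tP60 tP572) (.node tP316 dummyP)) (.node (.node tP188 dummyP) (.node tP444 dummyP))) (.node (.node (.node tP124 tP636) (.node tP380 dummyP)) (.node (.node tP252 dummyP) (.node tP508 dummyP)))))))) (.node (.node (.node (.node (.node (.node (.node (.node tP2 tP514) (.node tP258 dummyP)) (.node (.node tP130 tP642) (.node tP386 dummyP))) (.node (.node (.node tP66 tP578) (.node tP322 dummyP)) (.node (.node tP194 dummyP) (.node tP450 dummyP)))) (.node (.node (.node (.node tP34 tP546) (.node tP290 dummyP)) (.node (.node tP162 tP674) (.node tP418 dummyP))) (.node (.node (.node tP98 tP610) (.node tP354 dummyP)) (.node (.node tP226 dummyP) (.node tP482 dummyP))))) (.node (.node (.node (.node (.node tP18 tP530) (.node tP274 dummyP)) (.node (.node tP146 tP658) (.node tP402 dummyP))) (.node (.node (.node tP82 tP594) (.node tP338 dummyP)) (.node (.node tP210 dummyP) (.node tP466 dummyP))))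 (.node (.node (.node (.node tP50 tP562) (.node tP306 dummyP)) (.node (.node tP178 tP690) (.node tP434 dummyP))) (.node (.node (.node tP114 tP626) (.node tP370 dummyP)) (.node (.node tP242 dummyP) (.node tP498 dummyP)))))) (.node (.node (.node (.node (.node (.node tP10 tP522) (.node tP266 dummyP)) (.node (.node tP138 tP650) (.node tP394 dummyP))) (.node (.node (.node tP74 tP586) (.node tP330 dummyP)) (.node (.node tP202 dummyP) (.node tP458 dummyP)))) (.node (.node (.node (.node tP42 tP554) (.node tP298 dummyP)) (.node (.node tP170 tP682) (.node tP426 dummyP))) (.node (.node (.node tP106 tP618) (.node tP362 dummyP)) (.node (.node tP234 dummyP) (.node tP490 dummyP))))) (.node (.node (.node (.node (.node tP26 tP538) (.node tP282 dummyP)) (.node (.node tP154 tP666) (.node tP410 dummyP))) (.node (.node (.node tP90 tP602) (.node tP346 dummyP)) (.node (.node tP218 dummyP) (.node tP474 dummyP)))) (.node (.node (.node (.node tP58 tP570) (.node tP314 dummyP)) (.node (.node tP186 tP698) (.node tP442 dummyP))) (.node (.node (.node tP122 tP634) (.node tP378 dummyP)) (.node (.node tP250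 dummyP) (.node tP506 dummyP))))))) (.node (.node (.node (.node (.node (.node (.node tP6 tP518) (.node tP262 dummyP)) (.node (.node tP134 tP646) (.node tP390 dummyP))) (.node (.node (.node tP70 tP582) (.node tP326 dummyP)) (.node (.node tP198 dummyP) (.node tP454 dummyP)))) (.node (.node (.node (.node tP38 tP550) (.node tP294 dummyP)) (.node (.node tP166 tP678) (.node tP422 dummyP))) (.node (.node (.node tP102 tP614) (.node tP358 dummyP)) (.node (.node tP230 dummyP) (.node tP486 dummyP))))) (.node (.node (.node (.node (.node tP22 tP534) (.node tP278 dummyP)) (.node (.node tP150 tP662) (.node tP406 dummyP))) (.node (.node (.node tP86 tP598) (.node tP342 dummyP)) (.node (.node tP214 dummyP) (.node tP470 dummyP)))) (.node (.node (.node (.node tP54 tP566) (.node tP310 dummyP)) (.node (.node tP182 tP694) (.node tP438 dummyP))) (.node (.node (.node tP118 tP630) (.node tP374 dummyP)) (.node (.node tP246 dummyP) (.node tP502 dummyP)))))) (.node (.node (.node (.node (.node (.node tP14 tP526) (.node tP270 dummyP)) (.node (.node tP142 tP654) (.node tP398 dummyP))) (.node (.node (.node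 tP78 tP590) (.node tP334 dummyP)) (.node (.node tP206 dummyP) (.node tP462 dummyP)))) (.node (.node (.node (.node tP46 tP558) (.node tP302 dummyP)) (.node (.node tP174 tP686) (.node tP430 dummyP))) (.node (.node (.node tP110 tP622) (.node tP366 dummyP)) (.node (.node tP238 dummyP) (.node tP494 dummyP))))) (.node (.node (.node (.node (.node tP30 tP542) (.node tP286 dummyP)) (.node (.node tP158 tP670) (.node tP414 dummyP))) (.node (.node (.node tP94 tP606) (.node tP350 dummyP)) (.node (.node tP222 dummyP) (.node tP478 dummyP)))) (.node (.node (.node (.node tP62 tP574) (.node tP318 dummyP)) (.node (.node tP190 dummyP) (.node tP446 dummyP))) (.node (.node (.node tP126 tP638) (.node tP382 dummyP)) (.node (.node tP254 dummyP) (.node tP510 dummyP))))))))) (.node (.node (.node (.node (.node (.node (.node (.node (.node tP1 tP513) (.node tP257 dummyP)) (.node (.node tP129 tP641) (.node tP385 dummyP))) (.node (.node (.node tP65 tP577) (.node tP321 dummyP)) (.node (.node tP193 dummyP) (.node tP449 dummyP)))) (.node (.node (.node (.node tP33 tP545) (.node tP289 dummyP)) (.node (.node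 tP161 tP673) (.node tP417 dummyP))) (.node (.node (.node tP97 tP609) (.node tP353 dummyP)) (.node (.node tP225 dummyP) (.node tP481 dummyP))))) (.node (.node (.node (.node (.node tP17 tP529) (.node tP273 dummyP)) (.node (.node tP145 tP657) (.node tP401 dummyP))) (.node (.node (.node tP81 tP593) (.node tP337 dummyP)) (.node (.node tP209 dummyP) (.node tP465 dummyP)))) (.node (.node (.node (.node tP49 tP561) (.node tP305 dummyP)) (.node (.node tP177 tP689) (.node tP433 dummyP))) (.node (.node (.node tP113 tP625) (.node tP369 dummyP)) (.node (.node tP241 dummyP) (.node tP497 dummyP)))))) (.node (.node (.node (.node (.node (.node tP9 tP521) (.node tP265 dummyP)) (.node (.node tP137 tP649) (.node tP393 dummyP))) (.node (.node (.node tP73 tP585) (.node tP329 dummyP)) (.node (.node tP201 dummyP) (.node tP457 dummyP)))) (.node (.node (.node (.node tP41 tP553) (.node tP297 dummyP)) (.node (.node tP169 tP681) (.node tP425 dummyP))) (.node (.node (.node tP105 tP617) (.node tP361 dummyP)) (.node (.node tP233 dummyP) (.node tP489 dummyP))))) (.node (.node (.node (.node (.node tP25 tP537)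 (.node tP281 dummyP)) (.node (.node tP153 tP665) (.node tP409 dummyP))) (.node (.node (.node tP89 tP601) (.node tP345 dummyP)) (.node (.node tP217 dummyP) (.node tP473 dummyP)))) (.node (.node (.node (.node tP57 tP569) (.node tP313 dummyP)) (.node (.node tP185 tP697) (.node tP441 dummyP))) (.node (.node (.node tP121 tP633) (.node tP377 dummyP)) (.node (.node tP249 dummyP) (.node tP505 dummyP))))))) (.node (.node (.node (.node (.node (.node (.node tP5 tP517) (.node tP261 dummyP)) (.node (.node tP133 tP645) (.node tP389 dummyP))) (.node (.node (.node tP69 tP581) (.node tP325 dummyP)) (.node (.node tP197 dummyP) (.node tP453 dummyP)))) (.node (.node (.node (.node tP37 tP549) (.node tP293 dummyP)) (.node (.node tP165 tP677) (.node tP421 dummyP))) (.node (.node (.node tP101 tP613) (.node tP357 dummyP)) (.node (.node tP229 dummyP) (.node tP485 dummyP))))) (.node (.node (.node (.node (.node tP21 tP533) (.node tP277 dummyP)) (.node (.node tP149 tP661) (.node tP405 dummyP))) (.node (.node (.node tP85 tP597) (.node tP341 dummyP)) (.node (.node tP213 dummyP) (.node tP469 dummyP))))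 (.node (.node (.node (.node tP53 tP565) (.node tP309 dummyP)) (.node (.node tP181 tP693) (.node tP437 dummyP))) (.node (.node (.node tP117 tP629) (.node tP373 dummyP)) (.node (.node tP245 dummyP) (.node tP501 dummyP)))))) (.node (.node (.node (.node (.node (.node tP13 tP525) (.node tP269 dummyP)) (.node (.node tP141 tP653) (.node tP397 dummyP))) (.node (.node (.node tP77 tP589) (.node tP333 dummyP)) (.node (.node tP205 dummyP) (.node tP461 dummyP)))) (.node (.node (.node (.node tP45 tP557) (.node tP301 dummyP)) (.node (.node tP173 tP685) (.node tP429 dummyP))) (.node (.node (.node tP109 tP621) (.node tP365 dummyP)) (.node (.node tP237 dummyP) (.node tP493 dummyP))))) (.node (.node (.node (.node (.node tP29 tP541) (.node tP285 dummyP)) (.node (.node tP157 tP669) (.node tP413 dummyP))) (.node (.node (.node tP93 tP605) (.node tP349 dummyP)) (.node (.node tP221 dummyP) (.node tP477 dummyP)))) (.node (.node (.node (.node tP61 tP573) (.node tP317 dummyP)) (.node (.node tP189 dummyP) (.node tP445 dummyP))) (.node (.node (.node tP125 tP637) (.node tP381 dummyP)) (.node (.node tP253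 dummyP) (.node tP509 dummyP)))))))) (.node (.node (.node (.node (.node (.node (.node (.node tP3 tP515) (.node tP259 dummyP)) (.node (.node tP131 tP643) (.node tP387 dummyP))) (.node (.node (.node tP67 tP579) (.node tP323 dummyP)) (.node (.node tP195 dummyP) (.node tP451 dummyP)))) (.node (.node (.node (.node tP35 tP547) (.node tP291 dummyP)) (.node (.node tP163 tP675) (.node tP419 dummyP))) (.node (.node (.node tP99 tP611) (.node tP355 dummyP)) (.node (.node tP227 dummyP) (.node tP483 dummyP))))) (.node (.node (.node (.node (.node tP19 tP531) (.node tP275 dummyP)) (.node (.node tP147 tP659) (.node tP403 dummyP))) (.node (.node (.node tP83 tP595) (.node tP339 dummyP)) (.node (.node tP211 dummyP) (.node tP467 dummyP)))) (.node (.node (.node (.node tP51 tP563) (.node tP307 dummyP)) (.node (.node tP179 tP691) (.node tP435 dummyP))) (.node (.node (.node tP115 tP627) (.node tP371 dummyP)) (.node (.node tP243 dummyP) (.node tP499 dummyP)))))) (.node (.node (.node (.node (.node (.node tP11 tP523) (.node tP267 dummyP)) (.node (.node tP139 tP651) (.node tP395 dummyP))) (.node (.node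 (.node tP75 tP587) (.node tP331 dummyP)) (.node (.node tP203 dummyP) (.node tP459 dummyP)))) (.node (.node (.node (.node tP43 tP555) (.node tP299 dummyP)) (.node (.node tP171 tP683) (.node tP427 dummyP))) (.node (.node (.node tP107 tP619) (.node tP363 dummyP)) (.node (.node tP235 dummyP) (.node tP491 dummyP))))) (.node (.node (.node (.node (.node tP27 tP539) (.node tP283 dummyP)) (.node (.node tP155 tP667) (.node tP411 dummyP))) (.node (.node (.node tP91 tP603) (.node tP347 dummyP)) (.node (.node tP219 dummyP) (.node tP475 dummyP)))) (.node (.node (.node (.node tP59 tP571) (.node tP315 dummyP)) (.node (.node tP187 tP699) (.node tP443 dummyP))) (.node (.node (.node tP123 tP635) (.node tP379 dummyP)) (.node (.node tP251 dummyP) (.node tP507 dummyP))))))) (.node (.node (.node (.node (.node (.node (.node tP7 tP519) (.node tP263 dummyP)) (.node (.node tP135 tP647) (.node tP391 dummyP))) (.node (.node (.node tP71 tP583) (.node tP327 dummyP)) (.node (.node tP199 dummyP) (.node tP455 dummyP)))) (.node (.node (.node (.node tP39 tP551) (.node tP295 dummyP)) (.node (.node tP167 tP679)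 (.node tP423 dummyP))) (.node (.node (.node tP103 tP615) (.node tP359 dummyP)) (.node (.node tP231 dummyP) (.node tP487 dummyP))))) (.node (.node (.node (.node (.node tP23 tP535) (.node tP279 dummyP)) (.node (.node tP151 tP663) (.node tP407 dummyP))) (.node (.node (.node tP87 tP599) (.node tP343 dummyP)) (.node (.node tP215 dummyP) (.node tP471 dummyP)))) (.node (.node (.node (.node tP55 tP567) (.node tP311 dummyP)) (.node (.node tP183 tP695) (.node tP439 dummyP))) (.node (.node (.node tP119 tP631) (.node tP375 dummyP)) (.node (.node tP247 dummyP) (.node tP503 dummyP)))))) (.node (.node (.node (.node (.node (.node tP15 tP527) (.node tP271 dummyP)) (.node (.node tP143 tP655) (.node tP399 dummyP))) (.node (.node (.node tP79 tP591) (.node tP335 dummyP)) (.node (.node tP207 dummyP) (.node tP463 dummyP)))) (.node (.node (.node (.node tP47 tP559) (.node tP303 dummyP)) (.node (.node tP175 tP687) (.node tP431 dummyP))) (.node (.node (.node tP111 tP623) (.node tP367 dummyP)) (.node (.node tP239 dummyP) (.node tP495 dummyP))))) (.node (.node (.node (.node (.node tP31 tP543) (.node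 tP287 dummyP)) (.node (.node tP159 tP671) (.node tP415 dummyP))) (.node (.node (.node tP95 tP607) (.node tP351 dummyP)) (.node (.node tP223 dummyP) (.node tP479 dummyP)))) (.node (.node (.node (.node tP63 tP575) (.node tP319 dummyP)) (.node (.node tP191 dummyP) (.node tP447 dummyP))) (.node (.node (.node tP127 tP639) (.node tP383 dummyP)) (.node (.node tP255 dummyP) (.node tP511 dummyP))))))))))
theorem tP_good : tP.Good := (PTb.Good.node (PTb.Good.node (PTb.Good.node (PTb.Good.node (PTb.Good.node (PTb.Good.node (PTb.Good.node (PTb.Good.node (PTb.Good.node (PTb.Good.node tP0_good tP512_good) (PTb.Good.node tP256_good dummyP_good)) (PTb.Good.node (PTb.Good.node tP128_good tP640_good) (PTb.Good.node tP384_good dummyP_good))) (PTb.Good.node (PTb.Good.node (PTb.Good.node tP64_good tP576_good) (PTb.Good.node tP320_good dummyP_good)) (PTb.Good.node (PTb.Good.node tP192_good dummyP_good) (PTb.Good.node tP448_good dummyP_good)))) (PTb.Good.node (PTb.Good.node (PTb.Good.node (PTb.Good.node tP32_good tP544_good) (PTb.Good.node tP288_good dummyP_good)) (PTb.Good.node (PTb.Good.node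 tP160_good tP672_good) (PTb.Good.node tP416_good dummyP_good))) (PTb.Good.node (PTb.Good.node (PTb.Good.node tP96_good tP608_good) (PTb.Good.node tP352_good dummyP_good)) (PTb.Good.node (PTb.Good.node tP224_good dummyP_good) (PTb.Good.node tP480_good dummyP_good))))) (PTb.Good.node (PTb.Good.node (PTb.Good.node (PTb.Good.node (PTb.Good.node tP16_good tP528_good) (PTb.Good.node tP272_good dummyP_good)) (PTb.Good.node (PTb.Good.node tP144_good tP656_good) (PTb.Good.node tP400_good dummyP_good))) (PTb.Good.node (PTb.Good.node (PTb.Good.node tP80_good tP592_good) (PTb.Good.node tP336_good dummyP_good)) (PTb.Good.node (PTb.Good.node tP208_good dummyP_good) (PTb.Good.node tP464_good dummyP_good)))) (PTb.Good.node (PTb.Good.node (PTb.Good.node (PTb.Good.node tP48_good tP560_good) (PTb.Good.node tP304_good dummyP_good)) (PTb.Good.node (PTb.Good.node tP176_good tP688_good) (PTb.Good.node tP432_good dummyP_good))) (PTb.Good.node (PTb.Good.node (PTb.Good.node tP112_good tP624_good) (PTb.Good.node tP368_good dummyP_good)) (PTb.Good.node (PTb.Good.node tP240_good dummyP_good) (PTb.Good.node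 tP496_good dummyP_good)))))) (PTb.Good.node (PTb.Good.node (PTb.Good.node (PTb.Good.node (PTb.Good.node (PTb.Good.node tP8_good tP520_good) (PTb.Good.node tP264_good dummyP_good)) (PTb.Good.node (PTb.Good.node tP136_good tP648_good) (PTb.Good.node tP392_good dummyP_good))) (PTb.Good.node (PTb.Good.node (PTb.Good.node tP72_good tP584_good) (PTb.Good.node tP328_good dummyP_good)) (PTb.Good.node (PTb.Good.node tP200_good dummyP_good) (PTb.Good.node tP456_good dummyP_good)))) (PTb.Good.node (PTb.Good.node (PTb.Good.node (PTb.Good.node tP40_good tP552_good) (PTb.Good.node tP296_good dummyP_good)) (PTb.Good.node (PTb.Good.node tP168_good tP680_good) (PTb.Good.node tP424_good dummyP_good))) (PTb.Good.node (PTb.Good.node (PTb.Good.node tP104_good tP616_good) (PTb.Good.node tP360_good dummyP_good)) (PTb.Good.node (PTb.Good.node tP232_good dummyP_good) (PTb.Good.node tP488_good dummyP_good))))) (PTb.Good.node (PTb.Good.node (PTb.Good.node (PTb.Good.node (PTb.Good.node tP24_good tP536_good) (PTb.Good.node tP280_good dummyP_good)) (PTb.Good.node (PTb.Good.node tP152_good tP664_good)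 (PTb.Good.node tP408_good dummyP_good))) (PTb.Good.node (PTb.Good.node (PTb.Good.node tP88_good tP600_good) (PTb.Good.node tP344_good dummyP_good)) (PTb.Good.node (PTb.Good.node tP216_good dummyP_good) (PTb.Good.node tP472_good dummyP_good)))) (PTb.Good.node (PTb.Good.node (PTb.Good.node (PTb.Good.node tP56_good tP568_good) (PTb.Good.node tP312_good dummyP_good)) (PTb.Good.node (PTb.Good.node tP184_good tP696_good) (PTb.Good.node tP440_good dummyP_good))) (PTb.Good.node (PTb.Good.node (PTb.Good.node tP120_good tP632_good) (PTb.Good.node tP376_good dummyP_good)) (PTb.Good.node (PTb.Good.node tP248_good dummyP_good) (PTb.Good.node tP504_good dummyP_good))))))) (PTb.Good.node (PTb.Good.node (PTb.Good.node (PTb.Good.node (PTb.Good.node (PTb.Good.node (PTb.Good.node tP4_good tP516_good) (PTb.Good.node tP260_good dummyP_good)) (PTb.Good.node (PTb.Good.node tP132_good tP644_good) (PTb.Good.node tP388_good dummyP_good))) (PTb.Good.node (PTb.Good.node (PTb.Good.node tP68_good tP580_good) (PTb.Good.node tP324_good dummyP_good)) (PTb.Good.node (PTb.Good.node tP196_good dummyP_good)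 (PTb.Good.node tP452_good dummyP_good)))) (PTb.Good.node (PTb.Good.node (PTb.Good.node (PTb.Good.node tP36_good tP548_good) (PTb.Good.node tP292_good dummyP_good)) (PTb.Good.node (PTb.Good.node tP164_good tP676_good) (PTb.Good.node tP420_good dummyP_good))) (PTb.Good.node (PTb.Good.node (PTb.Good.node tP100_good tP612_good) (PTb.Good.node tP356_good dummyP_good)) (PTb.Good.node (PTb.Good.node tP228_good dummyP_good) (PTb.Good.node tP484_good dummyP_good))))) (PTb.Good.node (PTb.Good.node (PTb.Good.node (PTb.Good.node (PTb.Good.node tP20_good tP532_good) (PTb.Good.node tP276_good dummyP_good)) (PTb.Good.node (PTb.Good.node tP148_good tP660_good) (PTb.Good.node tP404_good dummyP_good))) (PTb.Good.node (PTb.Good.node (PTb.Good.node tP84_good tP596_good) (PTb.Good.node tP340_good dummyP_good)) (PTb.Good.node (PTb.Good.node tP212_good dummyP_good) (PTb.Good.node tP468_good dummyP_good)))) (PTb.Good.node (PTb.Good.node (PTb.Good.node (PTb.Good.node tP52_good tP564_good) (PTb.Good.node tP308_good dummyP_good)) (PTb.Good.node (PTb.Good.node tP180_good tP692_good) (PTb.Good.node tP436_good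 dummyP_good))) (PTb.Good.node (PTb.Good.node (PTb.Good.node tP116_good tP628_good) (PTb.Good.node tP372_good dummyP_good)) (PTb.Good.node (PTb.Good.node tP244_good dummyP_good) (PTb.Good.node tP500_good dummyP_good)))))) (PTb.Good.node (PTb.Good.node (PTb.Good.node (PTb.Good.node (PTb.Good.node (PTb.Good.node tP12_good tP524_good) (PTb.Good.node tP268_good dummyP_good)) (PTb.Good.node (PTb.Good.node tP140_good tP652_good) (PTb.Good.node tP396_good dummyP_good))) (PTb.Good.node (PTb.Good.node (PTb.Good.node tP76_good tP588_good) (PTb.Good.node tP332_good dummyP_good)) (PTb.Good.node (PTb.Good.node tP204_good dummyP_good) (PTb.Good.node tP460_good dummyP_good)))) (PTb.Good.node (PTb.Good.node (PTb.Good.node (PTb.Good.node tP44_good tP556_good) (PTb.Good.node tP300_good dummyP_good)) (PTb.Good.node (PTb.Good.node tP172_good tP684_good) (PTb.Good.node tP428_good dummyP_good))) (PTb.Good.node (PTb.Good.node (PTb.Good.node tP108_good tP620_good) (PTb.Good.node tP364_good dummyP_good)) (PTb.Good.node (PTb.Good.node tP236_good dummyP_good) (PTb.Good.node tP492_good dummyP_good)))))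 (PTb.Good.node (PTb.Good.node (PTb.Good.node (PTb.Good.node (PTb.Good.node tP28_good tP540_good) (PTb.Good.node tP284_good dummyP_good)) (PTb.Good.node (PTb.Good.node tP156_good tP668_good) (PTb.Good.node tP412_good dummyP_good))) (PTb.Good.node (PTb.Good.node (PTb.Good.node tP92_good tP604_good) (PTb.Good.node tP348_good dummyP_good)) (PTb.Good.node (PTb.Good.node tP220_good dummyP_good) (PTb.Good.node tP476_good dummyP_good)))) (PTb.Good.node (PTb.Good.node (PTb.Good.node (PTb.Good.node tP60_good tP572_good) (PTb.Good.node tP316_good dummyP_good)) (PTb.Good.node (PTb.Good.node tP188_good dummyP_good) (PTb.Good.node tP444_good dummyP_good))) (PTb.Good.node (PTb.Good.node (PTb.Good.node tP124_good tP636_good) (PTb.Good.node tP380_good dummyP_good)) (PTb.Good.node (PTb.Good.node tP252_good dummyP_good) (PTb.Good.node tP508_good dummyP_good)))))))) (PTb.Good.node (PTb.Good.node (PTb.Good.node (PTb.Good.node (PTb.Good.node (PTb.Good.node (PTb.Good.node (PTb.Good.node tP2_good tP514_good) (PTb.Good.node tP258_good dummyP_good)) (PTb.Good.node (PTb.Good.node tP130_good tP642_good)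 (PTb.Good.node tP386_good dummyP_good))) (PTb.Good.node (PTb.Good.node (PTb.Good.node tP66_good tP578_good) (PTb.Good.node tP322_good dummyP_good)) (PTb.Good.node (PTb.Good.node tP194_good dummyP_good) (PTb.Good.node tP450_good dummyP_good)))) (PTb.Good.node (PTb.Good.node (PTb.Good.node (PTb.Good.node tP34_good tP546_good) (PTb.Good.node tP290_good dummyP_good)) (PTb.Good.node (PTb.Good.node tP162_good tP674_good) (PTb.Good.node tP418_good dummyP_good))) (PTb.Good.node (PTb.Good.node (PTb.Good.node tP98_good tP610_good) (PTb.Good.node tP354_good dummyP_good)) (PTb.Good.node (PTb.Good.node tP226_good dummyP_good) (PTb.Good.node tP482_good dummyP_good))))) (PTb.Good.node (PTb.Good.node (PTb.Good.node (PTb.Good.node (PTb.Good.node tP18_good tP530_good) (PTb.Good.node tP274_good dummyP_good)) (PTb.Good.node (PTb.Good.node tP146_good tP658_good) (PTb.Good.node tP402_good dummyP_good))) (PTb.Good.node (PTb.Good.node (PTb.Good.node tP82_good tP594_good) (PTb.Good.node tP338_good dummyP_good)) (PTb.Good.node (PTb.Good.node tP210_good dummyP_good) (PTb.Good.node tP466_good dummyP_good))))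 (PTb.Good.node (PTb.Good.node (PTb.Good.node (PTb.Good.node tP50_good tP562_good) (PTb.Good.node tP306_good dummyP_good)) (PTb.Good.node (PTb.Good.node tP178_good tP690_good) (PTb.Good.node tP434_good dummyP_good))) (PTb.Good.node (PTb.Good.node (PTb.Good.node tP114_good tP626_good) (PTb.Good.node tP370_good dummyP_good)) (PTb.Good.node (PTb.Good.node tP242_good dummyP_good) (PTb.Good.node tP498_good dummyP_good)))))) (PTb.Good.node (PTb.Good.node (PTb.Good.node (PTb.Good.node (PTb.Good.node (PTb.Good.node tP10_good tP522_good) (PTb.Good.node tP266_good dummyP_good)) (PTb.Good.node (PTb.Good.node tP138_good tP650_good) (PTb.Good.node tP394_good dummyP_good))) (PTb.Good.node (PTb.Good.node (PTb.Good.node tP74_good tP586_good) (PTb.Good.node tP330_good dummyP_good)) (PTb.Good.node (PTb.Good.node tP202_good dummyP_good) (PTb.Good.node tP458_good dummyP_good)))) (PTb.Good.node (PTb.Good.node (PTb.Good.node (PTb.Good.node tP42_good tP554_good) (PTb.Good.node tP298_good dummyP_good)) (PTb.Good.node (PTb.Good.node tP170_good tP682_good) (PTb.Good.node tP426_good dummyP_good))) (PTb.Good.node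 (PTb.Good.node (PTb.Good.node tP106_good tP618_good) (PTb.Good.node tP362_good dummyP_good)) (PTb.Good.node (PTb.Good.node tP234_good dummyP_good) (PTb.Good.node tP490_good dummyP_good))))) (PTb.Good.node (PTb.Good.node (PTb.Good.node (PTb.Good.node (PTb.Good.node tP26_good tP538_good) (PTb.Good.node tP282_good dummyP_good)) (PTb.Good.node (PTb.Good.node tP154_good tP666_good) (PTb.Good.node tP410_good dummyP_good))) (PTb.Good.node (PTb.Good.node (PTb.Good.node tP90_good tP602_good) (PTb.Good.node tP346_good dummyP_good)) (PTb.Good.node (PTb.Good.node tP218_good dummyP_good) (PTb.Good.node tP474_good dummyP_good)))) (PTb.Good.node (PTb.Good.node (PTb.Good.node (PTb.Good.node tP58_good tP570_good) (PTb.Good.node tP314_good dummyP_good)) (PTb.Good.node (PTb.Good.node tP186_good tP698_good) (PTb.Good.node tP442_good dummyP_good))) (PTb.Good.node (PTb.Good.node (PTb.Good.node tP122_good tP634_good) (PTb.Good.node tP378_good dummyP_good)) (PTb.Good.node (PTb.Good.node tP250_good dummyP_good) (PTb.Good.node tP506_good dummyP_good))))))) (PTb.Good.node (PTb.Good.node (PTb.Good.node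 (PTb.Good.node (PTb.Good.node (PTb.Good.node (PTb.Good.node tP6_good tP518_good) (PTb.Good.node tP262_good dummyP_good)) (PTb.Good.node (PTb.Good.node tP134_good tP646_good) (PTb.Good.node tP390_good dummyP_good))) (PTb.Good.node (PTb.Good.node (PTb.Good.node tP70_good tP582_good) (PTb.Good.node tP326_good dummyP_good)) (PTb.Good.node (PTb.Good.node tP198_good dummyP_good) (PTb.Good.node tP454_good dummyP_good)))) (PTb.Good.node (PTb.Good.node (PTb.Good.node (PTb.Good.node tP38_good tP550_good) (PTb.Good.node tP294_good dummyP_good)) (PTb.Good.node (PTb.Good.node tP166_good tP678_good) (PTb.Good.node tP422_good dummyP_good))) (PTb.Good.node (PTb.Good.node (PTb.Good.node tP102_good tP614_good) (PTb.Good.node tP358_good dummyP_good)) (PTb.Good.node (PTb.Good.node tP230_good dummyP_good) (PTb.Good.node tP486_good dummyP_good))))) (PTb.Good.node (PTb.Good.node (PTb.Good.node (PTb.Good.node (PTb.Good.node tP22_good tP534_good) (PTb.Good.node tP278_good dummyP_good)) (PTb.Good.node (PTb.Good.node tP150_good tP662_good) (PTb.Good.node tP406_good dummyP_good))) (PTb.Good.node (PTb.Good.node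 (PTb.Good.node tP86_good tP598_good) (PTb.Good.node tP342_good dummyP_good)) (PTb.Good.node (PTb.Good.node tP214_good dummyP_good) (PTb.Good.node tP470_good dummyP_good)))) (PTb.Good.node (PTb.Good.node (PTb.Good.node (PTb.Good.node tP54_good tP566_good) (PTb.Good.node tP310_good dummyP_good)) (PTb.Good.node (PTb.Good.node tP182_good tP694_good) (PTb.Good.node tP438_good dummyP_good))) (PTb.Good.node (PTb.Good.node (PTb.Good.node tP118_good tP630_good) (PTb.Good.node tP374_good dummyP_good)) (PTb.Good.node (PTb.Good.node tP246_good dummyP_good) (PTb.Good.node tP502_good dummyP_good)))))) (PTb.Good.node (PTb.Good.node (PTb.Good.node (PTb.Good.node (PTb.Good.node (PTb.Good.node tP14_good tP526_good) (PTb.Good.node tP270_good dummyP_good)) (PTb.Good.node (PTb.Good.node tP142_good tP654_good) (PTb.Good.node tP398_good dummyP_good))) (PTb.Good.node (PTb.Good.node (PTb.Good.node tP78_good tP590_good) (PTb.Good.node tP334_good dummyP_good)) (PTb.Good.node (PTb.Good.node tP206_good dummyP_good) (PTb.Good.node tP462_good dummyP_good)))) (PTb.Good.node (PTb.Good.node (PTb.Good.node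 (PTb.Good.node tP46_good tP558_good) (PTb.Good.node tP302_good dummyP_good)) (PTb.Good.node (PTb.Good.node tP174_good tP686_good) (PTb.Good.node tP430_good dummyP_good))) (PTb.Good.node (PTb.Good.node (PTb.Good.node tP110_good tP622_good) (PTb.Good.node tP366_good dummyP_good)) (PTb.Good.node (PTb.Good.node tP238_good dummyP_good) (PTb.Good.node tP494_good dummyP_good))))) (PTb.Good.node (PTb.Good.node (PTb.Good.node (PTb.Good.node (PTb.Good.node tP30_good tP542_good) (PTb.Good.node tP286_good dummyP_good)) (PTb.Good.node (PTb.Good.node tP158_good tP670_good) (PTb.Good.node tP414_good dummyP_good))) (PTb.Good.node (PTb.Good.node (PTb.Good.node tP94_good tP606_good) (PTb.Good.node tP350_good dummyP_good)) (PTb.Good.node (PTb.Good.node tP222_good dummyP_good) (PTb.Good.node tP478_good dummyP_good)))) (PTb.Good.node (PTb.Good.node (PTb.Good.node (PTb.Good.node tP62_good tP574_good) (PTb.Good.node tP318_good dummyP_good)) (PTb.Good.node (PTb.Good.node tP190_good dummyP_good) (PTb.Good.node tP446_good dummyP_good))) (PTb.Good.node (PTb.Good.node (PTb.Good.node tP126_good tP638_good)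 (PTb.Good.node tP382_good dummyP_good)) (PTb.Good.node (PTb.Good.node tP254_good dummyP_good) (PTb.Good.node tP510_good dummyP_good))))))))) (PTb.Good.node (PTb.Good.node (PTb.Good.node (PTb.Good.node (PTb.Good.node (PTb.Good.node (PTb.Good.node (PTb.Good.node (PTb.Good.node tP1_good tP513_good) (PTb.Good.node tP257_good dummyP_good)) (PTb.Good.node (PTb.Good.node tP129_good tP641_good) (PTb.Good.node tP385_good dummyP_good))) (PTb.Good.node (PTb.Good.node (PTb.Good.node tP65_good tP577_good) (PTb.Good.node tP321_good dummyP_good)) (PTb.Good.node (PTb.Good.node tP193_good dummyP_good) (PTb.Good.node tP449_good dummyP_good)))) (PTb.Good.node (PTb.Good.node (PTb.Good.node (PTb.Good.node tP33_good tP545_good) (PTb.Good.node tP289_good dummyP_good)) (PTb.Good.node (PTb.Good.node tP161_good tP673_good) (PTb.Good.node tP417_good dummyP_good))) (PTb.Good.node (PTb.Good.node (PTb.Good.node tP97_good tP609_good) (PTb.Good.node tP353_good dummyP_good)) (PTb.Good.node (PTb.Good.node tP225_good dummyP_good) (PTb.Good.node tP481_good dummyP_good))))) (PTb.Good.node (PTb.Good.node (PTb.Good.node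 (PTb.Good.node (PTb.Good.node tP17_good tP529_good) (PTb.Good.node tP273_good dummyP_good)) (PTb.Good.node (PTb.Good.node tP145_good tP657_good) (PTb.Good.node tP401_good dummyP_good))) (PTb.Good.node (PTb.Good.node (PTb.Good.node tP81_good tP593_good) (PTb.Good.node tP337_good dummyP_good)) (PTb.Good.node (PTb.Good.node tP209_good dummyP_good) (PTb.Good.node tP465_good dummyP_good)))) (PTb.Good.node (PTb.Good.node (PTb.Good.node (PTb.Good.node tP49_good tP561_good) (PTb.Good.node tP305_good dummyP_good)) (PTb.Good.node (PTb.Good.node tP177_good tP689_good) (PTb.Good.node tP433_good dummyP_good))) (PTb.Good.node (PTb.Good.node (PTb.Good.node tP113_good tP625_good) (PTb.Good.node tP369_good dummyP_good)) (PTb.Good.node (PTb.Good.node tP241_good dummyP_good) (PTb.Good.node tP497_good dummyP_good)))))) (PTb.Good.node (PTb.Good.node (PTb.Good.node (PTb.Good.node (PTb.Good.node (PTb.Good.node tP9_good tP521_good) (PTb.Good.node tP265_good dummyP_good)) (PTb.Good.node (PTb.Good.node tP137_good tP649_good) (PTb.Good.node tP393_good dummyP_good))) (PTb.Good.node (PTb.Good.node (PTb.Good.node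 tP73_good tP585_good) (PTb.Good.node tP329_good dummyP_good)) (PTb.Good.node (PTb.Good.node tP201_good dummyP_good) (PTb.Good.node tP457_good dummyP_good)))) (PTb.Good.node (PTb.Good.node (PTb.Good.node (PTb.Good.node tP41_good tP553_good) (PTb.Good.node tP297_good dummyP_good)) (PTb.Good.node (PTb.Good.node tP169_good tP681_good) (PTb.Good.node tP425_good dummyP_good))) (PTb.Good.node (PTb.Good.node (PTb.Good.node tP105_good tP617_good) (PTb.Good.node tP361_good dummyP_good)) (PTb.Good.node (PTb.Good.node tP233_good dummyP_good) (PTb.Good.node tP489_good dummyP_good))))) (PTb.Good.node (PTb.Good.node (PTb.Good.node (PTb.Good.node (PTb.Good.node tP25_good tP537_good) (PTb.Good.node tP281_good dummyP_good)) (PTb.Good.node (PTb.Good.node tP153_good tP665_good) (PTb.Good.node tP409_good dummyP_good))) (PTb.Good.node (PTb.Good.node (PTb.Good.node tP89_good tP601_good) (PTb.Good.node tP345_good dummyP_good)) (PTb.Good.node (PTb.Good.node tP217_good dummyP_good) (PTb.Good.node tP473_good dummyP_good)))) (PTb.Good.node (PTb.Good.node (PTb.Good.node (PTb.Good.node tP57_good tP569_good)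 (PTb.Good.node tP313_good dummyP_good)) (PTb.Good.node (PTb.Good.node tP185_good tP697_good) (PTb.Good.node tP441_good dummyP_good))) (PTb.Good.node (PTb.Good.node (PTb.Good.node tP121_good tP633_good) (PTb.Good.node tP377_good dummyP_good)) (PTb.Good.node (PTb.Good.node tP249_good dummyP_good) (PTb.Good.node tP505_good dummyP_good))))))) (PTb.Good.node (PTb.Good.node (PTb.Good.node (PTb.Good.node (PTb.Good.node (PTb.Good.node (PTb.Good.node tP5_good tP517_good) (PTb.Good.node tP261_good dummyP_good)) (PTb.Good.node (PTb.Good.node tP133_good tP645_good) (PTb.Good.node tP389_good dummyP_good))) (PTb.Good.node (PTb.Good.node (PTb.Good.node tP69_good tP581_good) (PTb.Good.node tP325_good dummyP_good)) (PTb.Good.node (PTb.Good.node tP197_good dummyP_good) (PTb.Good.node tP453_good dummyP_good)))) (PTb.Good.node (PTb.Good.node (PTb.Good.node (PTb.Good.node tP37_good tP549_good) (PTb.Good.node tP293_good dummyP_good)) (PTb.Good.node (PTb.Good.node tP165_good tP677_good) (PTb.Good.node tP421_good dummyP_good))) (PTb.Good.node (PTb.Good.node (PTb.Good.node tP101_good tP613_good)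 (PTb.Good.node tP357_good dummyP_good)) (PTb.Good.node (PTb.Good.node tP229_good dummyP_good) (PTb.Good.node tP485_good dummyP_good))))) (PTb.Good.node (PTb.Good.node (PTb.Good.node (PTb.Good.node (PTb.Good.node tP21_good tP533_good) (PTb.Good.node tP277_good dummyP_good)) (PTb.Good.node (PTb.Good.node tP149_good tP661_good) (PTb.Good.node tP405_good dummyP_good))) (PTb.Good.node (PTb.Good.node (PTb.Good.node tP85_good tP597_good) (PTb.Good.node tP341_good dummyP_good)) (PTb.Good.node (PTb.Good.node tP213_good dummyP_good) (PTb.Good.node tP469_good dummyP_good)))) (PTb.Good.node (PTb.Good.node (PTb.Good.node (PTb.Good.node tP53_good tP565_good) (PTb.Good.node tP309_good dummyP_good)) (PTb.Good.node (PTb.Good.node tP181_good tP693_good) (PTb.Good.node tP437_good dummyP_good))) (PTb.Good.node (PTb.Good.node (PTb.Good.node tP117_good tP629_good) (PTb.Good.node tP373_good dummyP_good)) (PTb.Good.node (PTb.Good.node tP245_good dummyP_good) (PTb.Good.node tP501_good dummyP_good)))))) (PTb.Good.node (PTb.Good.node (PTb.Good.node (PTb.Good.node (PTb.Good.node (PTb.Good.node tP13_good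 tP525_good) (PTb.Good.node tP269_good dummyP_good)) (PTb.Good.node (PTb.Good.node tP141_good tP653_good) (PTb.Good.node tP397_good dummyP_good))) (PTb.Good.node (PTb.Good.node (PTb.Good.node tP77_good tP589_good) (PTb.Good.node tP333_good dummyP_good)) (PTb.Good.node (PTb.Good.node tP205_good dummyP_good) (PTb.Good.node tP461_good dummyP_good)))) (PTb.Good.node (PTb.Good.node (PTb.Good.node (PTb.Good.node tP45_good tP557_good) (PTb.Good.node tP301_good dummyP_good)) (PTb.Good.node (PTb.Good.node tP173_good tP685_good) (PTb.Good.node tP429_good dummyP_good))) (PTb.Good.node (PTb.Good.node (PTb.Good.node tP109_good tP621_good) (PTb.Good.node tP365_good dummyP_good)) (PTb.Good.node (PTb.Good.node tP237_good dummyP_good) (PTb.Good.node tP493_good dummyP_good))))) (PTb.Good.node (PTb.Good.node (PTb.Good.node (PTb.Good.node (PTb.Good.node tP29_good tP541_good) (PTb.Good.node tP285_good dummyP_good)) (PTb.Good.node (PTb.Good.node tP157_good tP669_good) (PTb.Good.node tP413_good dummyP_good))) (PTb.Good.node (PTb.Good.node (PTb.Good.node tP93_good tP605_good) (PTb.Good.node tP349_good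 dummyP_good)) (PTb.Good.node (PTb.Good.node tP221_good dummyP_good) (PTb.Good.node tP477_good dummyP_good)))) (PTb.Good.node (PTb.Good.node (PTb.Good.node (PTb.Good.node tP61_good tP573_good) (PTb.Good.node tP317_good dummyP_good)) (PTb.Good.node (PTb.Good.node tP189_good dummyP_good) (PTb.Good.node tP445_good dummyP_good))) (PTb.Good.node (PTb.Good.node (PTb.Good.node tP125_good tP637_good) (PTb.Good.node tP381_good dummyP_good)) (PTb.Good.node (PTb.Good.node tP253_good dummyP_good) (PTb.Good.node tP509_good dummyP_good)))))))) (PTb.Good.node (PTb.Good.node (PTb.Good.node (PTb.Good.node (PTb.Good.node (PTb.Good.node (PTb.Good.node (PTb.Good.node tP3_good tP515_good) (PTb.Good.node tP259_good dummyP_good)) (PTb.Good.node (PTb.Good.node tP131_good tP643_good) (PTb.Good.node tP387_good dummyP_good))) (PTb.Good.node (PTb.Good.node (PTb.Good.node tP67_good tP579_good) (PTb.Good.node tP323_good dummyP_good)) (PTb.Good.node (PTb.Good.node tP195_good dummyP_good) (PTb.Good.node tP451_good dummyP_good)))) (PTb.Good.node (PTb.Good.node (PTb.Good.node (PTb.Good.node tP35_good tP547_good)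 (PTb.Good.node tP291_good dummyP_good)) (PTb.Good.node (PTb.Good.node tP163_good tP675_good) (PTb.Good.node tP419_good dummyP_good))) (PTb.Good.node (PTb.Good.node (PTb.Good.node tP99_good tP611_good) (PTb.Good.node tP355_good dummyP_good)) (PTb.Good.node (PTb.Good.node tP227_good dummyP_good) (PTb.Good.node tP483_good dummyP_good))))) (PTb.Good.node (PTb.Good.node (PTb.Good.node (PTb.Good.node (PTb.Good.node tP19_good tP531_good) (PTb.Good.node tP275_good dummyP_good)) (PTb.Good.node (PTb.Good.node tP147_good tP659_good) (PTb.Good.node tP403_good dummyP_good))) (PTb.Good.node (PTb.Good.node (PTb.Good.node tP83_good tP595_good) (PTb.Good.node tP339_good dummyP_good)) (PTb.Good.node (PTb.Good.node tP211_good dummyP_good) (PTb.Good.node tP467_good dummyP_good)))) (PTb.Good.node (PTb.Good.node (PTb.Good.node (PTb.Good.node tP51_good tP563_good) (PTb.Good.node tP307_good dummyP_good)) (PTb.Good.node (PTb.Good.node tP179_good tP691_good) (PTb.Good.node tP435_good dummyP_good))) (PTb.Good.node (PTb.Good.node (PTb.Good.node tP115_good tP627_good) (PTb.Good.node tP371_good dummyP_good))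 (PTb.Good.node (PTb.Good.node tP243_good dummyP_good) (PTb.Good.node tP499_good dummyP_good)))))) (PTb.Good.node (PTb.Good.node (PTb.Good.node (PTb.Good.node (PTb.Good.node (PTb.Good.node tP11_good tP523_good) (PTb.Good.node tP267_good dummyP_good)) (PTb.Good.node (PTb.Good.node tP139_good tP651_good) (PTb.Good.node tP395_good dummyP_good))) (PTb.Good.node (PTb.Good.node (PTb.Good.node tP75_good tP587_good) (PTb.Good.node tP331_good dummyP_good)) (PTb.Good.node (PTb.Good.node tP203_good dummyP_good) (PTb.Good.node tP459_good dummyP_good)))) (PTb.Good.node (PTb.Good.node (PTb.Good.node (PTb.Good.node tP43_good tP555_good) (PTb.Good.node tP299_good dummyP_good)) (PTb.Good.node (PTb.Good.node tP171_good tP683_good) (PTb.Good.node tP427_good dummyP_good))) (PTb.Good.node (PTb.Good.node (PTb.Good.node tP107_good tP619_good) (PTb.Good.node tP363_good dummyP_good)) (PTb.Good.node (PTb.Good.node tP235_good dummyP_good) (PTb.Good.node tP491_good dummyP_good))))) (PTb.Good.node (PTb.Good.node (PTb.Good.node (PTb.Good.node (PTb.Good.node tP27_good tP539_good) (PTb.Good.node tP283_good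 dummyP_good)) (PTb.Good.node (PTb.Good.node tP155_good tP667_good) (PTb.Good.node tP411_good dummyP_good))) (PTb.Good.node (PTb.Good.node (PTb.Good.node tP91_good tP603_good) (PTb.Good.node tP347_good dummyP_good)) (PTb.Good.node (PTb.Good.node tP219_good dummyP_good) (PTb.Good.node tP475_good dummyP_good)))) (PTb.Good.node (PTb.Good.node (PTb.Good.node (PTb.Good.node tP59_good tP571_good) (PTb.Good.node tP315_good dummyP_good)) (PTb.Good.node (PTb.Good.node tP187_good tP699_good) (PTb.Good.node tP443_good dummyP_good))) (PTb.Good.node (PTb.Good.node (PTb.Good.node tP123_good tP635_good) (PTb.Good.node tP379_good dummyP_good)) (PTb.Good.node (PTb.Good.node tP251_good dummyP_good) (PTb.Good.node tP507_good dummyP_good))))))) (PTb.Good.node (PTb.Good.node (PTb.Good.node (PTb.Good.node (PTb.Good.node (PTb.Good.node (PTb.Good.node tP7_good tP519_good) (PTb.Good.node tP263_good dummyP_good)) (PTb.Good.node (PTb.Good.node tP135_good tP647_good) (PTb.Good.node tP391_good dummyP_good))) (PTb.Good.node (PTb.Good.node (PTb.Good.node tP71_good tP583_good) (PTb.Good.node tP327_good dummyP_good))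 (PTb.Good.node (PTb.Good.node tP199_good dummyP_good) (PTb.Good.node tP455_good dummyP_good)))) (PTb.Good.node (PTb.Good.node (PTb.Good.node (PTb.Good.node tP39_good tP551_good) (PTb.Good.node tP295_good dummyP_good)) (PTb.Good.node (PTb.Good.node tP167_good tP679_good) (PTb.Good.node tP423_good dummyP_good))) (PTb.Good.node (PTb.Good.node (PTb.Good.node tP103_good tP615_good) (PTb.Good.node tP359_good dummyP_good)) (PTb.Good.node (PTb.Good.node tP231_good dummyP_good) (PTb.Good.node tP487_good dummyP_good))))) (PTb.Good.node (PTb.Good.node (PTb.Good.node (PTb.Good.node (PTb.Good.node tP23_good tP535_good) (PTb.Good.node tP279_good dummyP_good)) (PTb.Good.node (PTb.Good.node tP151_good tP663_good) (PTb.Good.node tP407_good dummyP_good))) (PTb.Good.node (PTb.Good.node (PTb.Good.node tP87_good tP599_good) (PTb.Good.node tP343_good dummyP_good)) (PTb.Good.node (PTb.Good.node tP215_good dummyP_good) (PTb.Good.node tP471_good dummyP_good)))) (PTb.Good.node (PTb.Good.node (PTb.Good.node (PTb.Good.node tP55_good tP567_good) (PTb.Good.node tP311_good dummyP_good)) (PTb.Good.node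 (PTb.Good.node tP183_good tP695_good) (PTb.Good.node tP439_good dummyP_good))) (PTb.Good.node (PTb.Good.node (PTb.Good.node tP119_good tP631_good) (PTb.Good.node tP375_good dummyP_good)) (PTb.Good.node (PTb.Good.node tP247_good dummyP_good) (PTb.Good.node tP503_good dummyP_good)))))) (PTb.Good.node (PTb.Good.node (PTb.Good.node (PTb.Good.node (PTb.Good.node (PTb.Good.node tP15_good tP527_good) (PTb.Good.node tP271_good dummyP_good)) (PTb.Good.node (PTb.Good.node tP143_good tP655_good) (PTb.Good.node tP399_good dummyP_good))) (PTb.Good.node (PTb.Good.node (PTb.Good.node tP79_good tP591_good) (PTb.Good.node tP335_good dummyP_good)) (PTb.Good.node (PTb.Good.node tP207_good dummyP_good) (PTb.Good.node tP463_good dummyP_good)))) (PTb.Good.node (PTb.Good.node (PTb.Good.node (PTb.Good.node tP47_good tP559_good) (PTb.Good.node tP303_good dummyP_good)) (PTb.Good.node (PTb.Good.node tP175_good tP687_good) (PTb.Good.node tP431_good dummyP_good))) (PTb.Good.node (PTb.Good.node (PTb.Good.node tP111_good tP623_good) (PTb.Good.node tP367_good dummyP_good)) (PTb.Good.node (PTb.Good.node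 tP239_good dummyP_good) (PTb.Good.node tP495_good dummyP_good))))) (PTb.Good.node (PTb.Good.node (PTb.Good.node (PTb.Good.node (PTb.Good.node tP31_good tP543_good) (PTb.Good.node tP287_good dummyP_good)) (PTb.Good.node (PTb.Good.node tP159_good tP671_good) (PTb.Good.node tP415_good dummyP_good))) (PTb.Good.node (PTb.Good.node (PTb.Good.node tP95_good tP607_good) (PTb.Good.node tP351_good dummyP_good)) (PTb.Good.node (PTb.Good.node tP223_good dummyP_good) (PTb.Good.node tP479_good dummyP_good)))) (PTb.Good.node (PTb.Good.node (PTb.Good.node (PTb.Good.node tP63_good tP575_good) (PTb.Good.node tP319_good dummyP_good)) (PTb.Good.node (PTb.Good.node tP191_good dummyP_good) (PTb.Good.node tP447_good dummyP_good))) (PTb.Good.node (PTb.Good.node (PTb.Good.node tP127_good tP639_good) (PTb.Good.node tP383_good dummyP_good)) (PTb.Good.node (PTb.Good.node tP255_good dummyP_good) (PTb.Good.node tP511_good dummyP_good))))))))))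
end Pool.Agent.Gomoku
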