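import Pool.Agent.Helper47.GomZ.QL2
import Pool.Agent.Helper47.GomZ.Q2_0
import Pool.Agent.Helper47.GomZ.Q2_1
set_option autoImplicit false
set_option linter.all false
namespace Pool.Agent.Gomoku
noncomputable def tQL3 : PTb := (.node (.node (.node (.node (.node (.node (.node (.node (.node (.node tQ0 tQ512) (.node tQ256 tQ768)) (.node (.node tQ128 tQ640) (.node tQ384 tQ896))) (.node (.node (.node tQ64 tQ576) (.node tQ320 tQ832)) (.node (.node tQ192 tQ704) (.node tQ448 tQ960)))) (.node (.node (.node (.node tQ32 tQ544) (.node tQ288 tQ800)) (.node (.node tQ160 tQ672) (.node tQ416 tQ928))) (.node (.node (.node tQ96 tQ608) (.node tQ352 tQ864)) (.node (.node tQ224 tQ736) (.node tQ480 dummyP))))) (.node (.node (.node (.node (.node tQ16 tQ528) (.node tQ272 tQ784)) (.node (.node tQ144 tQ656) (.node tQ400 tQ912))) (.node (.node (.node tQ80 tQ592) (.node tQ336 tQ848)) (.node (.node tQ208 tQ720) (.node tQ464 tQ976)))) (.node (.node (.node (.node tQ48 tQ560) (.node tQ304 tQ816)) (.node (.node tQ176 tQ688) (.node tQ432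 tQ944))) (.node (.node (.node tQ112 tQ624) (.node tQ368 tQ880)) (.node (.node tQ240 tQ752) (.node tQ496 dummyP)))))) (.node (.node (.node (.node (.node (.node tQ8 tQ520) (.node tQ264 tQ776)) (.node (.node tQ136 tQ648) (.node tQ392 tQ904))) (.node (.node (.node tQ72 tQ584) (.node tQ328 tQ840)) (.node (.node tQ200 tQ712) (.node tQ456 tQ968)))) (.node (.node (.node (.node tQ40 tQ552) (.node tQ296 tQ808)) (.node (.node tQ168 tQ680) (.node tQ424 tQ936))) (.node (.node (.node tQ104 tQ616) (.node tQ360 tQ872)) (.node (.node tQ232 tQ744) (.node tQ488 dummyP))))) (.node (.node (.node (.node (.node tQ24 tQ536) (.node tQ280 tQ792)) (.node (.node tQ152 tQ664) (.node tQ408 tQ920))) (.node (.node (.node tQ88 tQ600) (.node tQ344 tQ856)) (.node (.node tQ216 tQ728) (.node tQ472 tQ984)))) (.node (.node (.node (.node tQ56 tQ568) (.node tQ312 tQ824)) (.node (.node tQ184 tQ696) (.node tQ440 tQ952))) (.node (.node (.node tQ120 tQ632) (.node tQ376 tQ888)) (.node (.node tQ248 tQ760) (.node tQ504 dummyP))))))) (.node (.node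 (.node (.node (.node (.node (.node tQ4 tQ516) (.node tQ260 tQ772)) (.node (.node tQ132 tQ644) (.node tQ388 tQ900))) (.node (.node (.node tQ68 tQ580) (.node tQ324 tQ836)) (.node (.node tQ196 tQ708) (.node tQ452 tQ964)))) (.node (.node (.node (.node tQ36 tQ548) (.node tQ292 tQ804)) (.node (.node tQ164 tQ676) (.node tQ420 tQ932))) (.node (.node (.node tQ100 tQ612) (.node tQ356 tQ868)) (.node (.node tQ228 tQ740) (.node tQ484 dummyP))))) (.node (.node (.node (.node (.node tQ20 tQ532) (.node tQ276 tQ788)) (.node (.node tQ148 tQ660) (.node tQ404 tQ916))) (.node (.node (.node tQ84 tQ596) (.node tQ340 tQ852)) (.node (.node tQ212 tQ724) (.node tQ468 tQ980)))) (.node (.node (.node (.node tQ52 tQ564) (.node tQ308 tQ820)) (.node (.node tQ180 tQ692) (.node tQ436 tQ948))) (.node (.node (.node tQ116 tQ628) (.node tQ372 tQ884)) (.node (.node tQ244 tQ756) (.node tQ500 dummyP)))))) (.node (.node (.node (.node (.node (.node tQ12 tQ524) (.node tQ268 tQ780)) (.node (.node tQ140 tQ652) (.node tQ396 tQ908))) (.node (.node (.node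 tQ76 tQ588) (.node tQ332 tQ844)) (.node (.node tQ204 tQ716) (.node tQ460 tQ972)))) (.node (.node (.node (.node tQ44 tQ556) (.node tQ300 tQ812)) (.node (.node tQ172 tQ684) (.node tQ428 tQ940))) (.node (.node (.node tQ108 tQ620) (.node tQ364 tQ876)) (.node (.node tQ236 tQ748) (.node tQ492 dummyP))))) (.node (.node (.node (.node (.node tQ28 tQ540) (.node tQ284 tQ796)) (.node (.node tQ156 tQ668) (.node tQ412 tQ924))) (.node (.node (.node tQ92 tQ604) (.node tQ348 tQ860)) (.node (.node tQ220 tQ732) (.node tQ476 dummyP)))) (.node (.node (.node (.node tQ60 tQ572) (.node tQ316 tQ828)) (.node (.node tQ188 tQ700) (.node tQ444 tQ956))) (.node (.node (.node tQ124 tQ636) (.node tQ380 tQ892)) (.node (.node tQ252 tQ764) (.node tQ508 dummyP)))))))) (.node (.node (.node (.node (.node (.node (.node (.node tQ2 tQ514) (.node tQ258 tQ770)) (.node (.node tQ130 tQ642) (.node tQ386 tQ898))) (.node (.node (.node tQ66 tQ578) (.node tQ322 tQ834)) (.node (.node tQ194 tQ706) (.node tQ450 tQ962)))) (.node (.node (.node (.node tQ34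 tQ546) (.node tQ290 tQ802)) (.node (.node tQ162 tQ674) (.node tQ418 tQ930))) (.node (.node (.node tQ98 tQ610) (.node tQ354 tQ866)) (.node (.node tQ226 tQ738) (.node tQ482 dummyP))))) (.node (.node (.node (.node (.node tQ18 tQ530) (.node tQ274 tQ786)) (.node (.node tQ146 tQ658) (.node tQ402 tQ914))) (.node (.node (.node tQ82 tQ594) (.node tQ338 tQ850)) (.node (.node tQ210 tQ722) (.node tQ466 tQ978)))) (.node (.node (.node (.node tQ50 tQ562) (.node tQ306 tQ818)) (.node (.node tQ178 tQ690) (.node tQ434 tQ946))) (.node (.node (.node tQ114 tQ626) (.node tQ370 tQ882)) (.node (.node tQ242 tQ754) (.node tQ498 dummyP)))))) (.node (.node (.node (.node (.node (.node tQ10 tQ522) (.node tQ266 tQ778)) (.node (.node tQ138 tQ650) (.node tQ394 tQ906))) (.node (.node (.node tQ74 tQ586) (.node tQ330 tQ842)) (.node (.node tQ202 tQ714) (.node tQ458 tQ970)))) (.node (.node (.node (.node tQ42 tQ554) (.node tQ298 tQ810)) (.node (.node tQ170 tQ682) (.node tQ426 tQ938))) (.node (.node (.node tQ106 tQ618) (.node tQ362 tQ874))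 (.node (.node tQ234 tQ746) (.node tQ490 dummyP))))) (.node (.node (.node (.node (.node tQ26 tQ538) (.node tQ282 tQ794)) (.node (.node tQ154 tQ666) (.node tQ410 tQ922))) (.node (.node (.node tQ90 tQ602) (.node tQ346 tQ858)) (.node (.node tQ218 tQ730) (.node tQ474 tQ986)))) (.node (.node (.node (.node tQ58 tQ570) (.node tQ314 tQ826)) (.node (.node tQ186 tQ698) (.node tQ442 tQ954))) (.node (.node (.node tQ122 tQ634) (.node tQ378 tQ890)) (.node (.node tQ250 tQ762) (.node tQ506 dummyP))))))) (.node (.node (.node (.node (.node (.node (.node tQ6 tQ518) (.node tQ262 tQ774)) (.node (.node tQ134 tQ646) (.node tQ390 tQ902))) (.node (.node (.node tQ70 tQ582) (.node tQ326 tQ838)) (.node (.node tQ198 tQ710) (.node tQ454 tQ966)))) (.node (.node (.node (.node tQ38 tQ550) (.node tQ294 tQ806)) (.node (.node tQ166 tQ678) (.node tQ422 tQ934))) (.node (.node (.node tQ102 tQ614) (.node tQ358 tQ870)) (.node (.node tQ230 tQ742) (.node tQ486 dummyP))))) (.node (.node (.node (.node (.node tQ22 tQ534) (.node tQ278 tQ790)) (.node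 (.node tQ150 tQ662) (.node tQ406 tQ918))) (.node (.node (.node tQ86 tQ598) (.node tQ342 tQ854)) (.node (.node tQ214 tQ726) (.node tQ470 tQ982)))) (.node (.node (.node (.node tQ54 tQ566) (.node tQ310 tQ822)) (.node (.node tQ182 tQ694) (.node tQ438 tQ950))) (.node (.node (.node tQ118 tQ630) (.node tQ374 tQ886)) (.node (.node tQ246 tQ758) (.node tQ502 dummyP)))))) (.node (.node (.node (.node (.node (.node tQ14 tQ526) (.node tQ270 tQ782)) (.node (.node tQ142 tQ654) (.node tQ398 tQ910))) (.node (.node (.node tQ78 tQ590) (.node tQ334 tQ846)) (.node (.node tQ206 tQ718) (.node tQ462 tQ974)))) (.node (.node (.node (.node tQ46 tQ558) (.node tQ302 tQ814)) (.node (.node tQ174 tQ686) (.node tQ430 tQ942))) (.node (.node (.node tQ110 tQ622) (.node tQ366 tQ878)) (.node (.node tQ238 tQ750) (.node tQ494 dummyP))))) (.node (.node (.node (.node (.node tQ30 tQ542) (.node tQ286 tQ798)) (.node (.node tQ158 tQ670) (.node tQ414 tQ926))) (.node (.node (.node tQ94 tQ606) (.node tQ350 tQ862)) (.node (.node tQ222 tQ734) (.node tQ478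 dummyP)))) (.node (.node (.node (.node tQ62 tQ574) (.node tQ318 tQ830)) (.node (.node tQ190 tQ702) (.node tQ446 tQ958))) (.node (.node (.node tQ126 tQ638) (.node tQ382 tQ894)) (.node (.node tQ254 tQ766) (.node tQ510 dummyP))))))))) (.node (.node (.node (.node (.node (.node (.node (.node (.node tQ1 tQ513) (.node tQ257 tQ769)) (.node (.node tQ129 tQ641) (.node tQ385 tQ897))) (.node (.node (.node tQ65 tQ577) (.node tQ321 tQ833)) (.node (.node tQ193 tQ705) (.node tQ449 tQ961)))) (.node (.node (.node (.node tQ33 tQ545) (.node tQ289 tQ801)) (.node (.node tQ161 tQ673) (.node tQ417 tQ929))) (.node (.node (.node tQ97 tQ609) (.node tQ353 tQ865)) (.node (.node tQ225 tQ737) (.node tQ481 dummyP))))) (.node (.node (.node (.node (.node tQ17 tQ529) (.node tQ273 tQ785)) (.node (.node tQ145 tQ657) (.node tQ401 tQ913))) (.node (.node (.node tQ81 tQ593) (.node tQ337 tQ849)) (.node (.node tQ209 tQ721) (.node tQ465 tQ977)))) (.node (.node (.node (.node tQ49 tQ561) (.node tQ305 tQ817)) (.node (.node tQ177 tQ689) (.node tQ433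 tQ945))) (.node (.node (.node tQ113 tQ625) (.node tQ369 tQ881)) (.node (.node tQ241 tQ753) (.node tQ497 dummyP)))))) (.node (.node (.node (.node (.node (.node tQ9 tQ521) (.node tQ265 tQ777)) (.node (.node tQ137 tQ649) (.node tQ393 tQ905))) (.node (.node (.node tQ73 tQ585) (.node tQ329 tQ841)) (.node (.node tQ201 tQ713) (.node tQ457 tQ969)))) (.node (.node (.node (.node tQ41 tQ553) (.node tQ297 tQ809)) (.node (.node tQ169 tQ681) (.node tQ425 tQ937))) (.node (.node (.node tQ105 tQ617) (.node tQ361 tQ873)) (.node (.node tQ233 tQ745) (.node tQ489 dummyP))))) (.node (.node (.node (.node (.node tQ25 tQ537) (.node tQ281 tQ793)) (.node (.node tQ153 tQ665) (.node tQ409 tQ921))) (.node (.node (.node tQ89 tQ601) (.node tQ345 tQ857)) (.node (.node tQ217 tQ729) (.node tQ473 tQ985)))) (.node (.node (.node (.node tQ57 tQ569) (.node tQ313 tQ825)) (.node (.node tQ185 tQ697) (.node tQ441 tQ953))) (.node (.node (.node tQ121 tQ633) (.node tQ377 tQ889)) (.node (.node tQ249 tQ761) (.node tQ505 dummyP))))))) (.node (.node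 (.node (.node (.node (.node (.node tQ5 tQ517) (.node tQ261 tQ773)) (.node (.node tQ133 tQ645) (.node tQ389 tQ901))) (.node (.node (.node tQ69 tQ581) (.node tQ325 tQ837)) (.node (.node tQ197 tQ709) (.node tQ453 tQ965)))) (.node (.node (.node (.node tQ37 tQ549) (.node tQ293 tQ805)) (.node (.node tQ165 tQ677) (.node tQ421 tQ933))) (.node (.node (.node tQ101 tQ613) (.node tQ357 tQ869)) (.node (.node tQ229 tQ741) (.node tQ485 dummyP))))) (.node (.node (.node (.node (.node tQ21 tQ533) (.node tQ277 tQ789)) (.node (.node tQ149 tQ661) (.node tQ405 tQ917))) (.node (.node (.node tQ85 tQ597) (.node tQ341 tQ853)) (.node (.node tQ213 tQ725) (.node tQ469 tQ981)))) (.node (.node (.node (.node tQ53 tQ565) (.node tQ309 tQ821)) (.node (.node tQ181 tQ693) (.node tQ437 tQ949))) (.node (.node (.node tQ117 tQ629) (.node tQ373 tQ885)) (.node (.node tQ245 tQ757) (.node tQ501 dummyP)))))) (.node (.node (.node (.node (.node (.node tQ13 tQ525) (.node tQ269 tQ781)) (.node (.node tQ141 tQ653) (.node tQ397 tQ909))) (.node (.node (.node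 tQ77 tQ589) (.node tQ333 tQ845)) (.node (.node tQ205 tQ717) (.node tQ461 tQ973)))) (.node (.node (.node (.node tQ45 tQ557) (.node tQ301 tQ813)) (.node (.node tQ173 tQ685) (.node tQ429 tQ941))) (.node (.node (.node tQ109 tQ621) (.node tQ365 tQ877)) (.node (.node tQ237 tQ749) (.node tQ493 dummyP))))) (.node (.node (.node (.node (.node tQ29 tQ541) (.node tQ285 tQ797)) (.node (.node tQ157 tQ669) (.node tQ413 tQ925))) (.node (.node (.node tQ93 tQ605) (.node tQ349 tQ861)) (.node (.node tQ221 tQ733) (.node tQ477 dummyP)))) (.node (.node (.node (.node tQ61 tQ573) (.node tQ317 tQ829)) (.node (.node tQ189 tQ701) (.node tQ445 tQ957))) (.node (.node (.node tQ125 tQ637) (.node tQ381 tQ893)) (.node (.node tQ253 tQ765) (.node tQ509 dummyP)))))))) (.node (.node (.node (.node (.node (.node (.node (.node tQ3 tQ515) (.node tQ259 tQ771)) (.node (.node tQ131 tQ643) (.node tQ387 tQ899))) (.node (.node (.node tQ67 tQ579) (.node tQ323 tQ835)) (.node (.node tQ195 tQ707) (.node tQ451 tQ963)))) (.node (.node (.node (.node tQ35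 tQ547) (.node tQ291 tQ803)) (.node (.node tQ163 tQ675) (.node tQ419 tQ931))) (.node (.node (.node tQ99 tQ611) (.node tQ355 tQ867)) (.node (.node tQ227 tQ739) (.node tQ483 dummyP))))) (.node (.node (.node (.node (.node tQ19 tQ531) (.node tQ275 tQ787)) (.node (.node tQ147 tQ659) (.node tQ403 tQ915))) (.node (.node (.node tQ83 tQ595) (.node tQ339 tQ851)) (.node (.node tQ211 tQ723) (.node tQ467 tQ979)))) (.node (.node (.node (.node tQ51 tQ563) (.node tQ307 tQ819)) (.node (.node tQ179 tQ691) (.node tQ435 tQ947))) (.node (.node (.node tQ115 tQ627) (.node tQ371 tQ883)) (.node (.node tQ243 tQ755) (.node tQ499 dummyP)))))) (.node (.node (.node (.node (.node (.node tQ11 tQ523) (.node tQ267 tQ779)) (.node (.node tQ139 tQ651) (.node tQ395 tQ907))) (.node (.node (.node tQ75 tQ587) (.node tQ331 tQ843)) (.node (.node tQ203 tQ715) (.node tQ459 tQ971)))) (.node (.node (.node (.node tQ43 tQ555) (.node tQ299 tQ811)) (.node (.node tQ171 tQ683) (.node tQ427 tQ939))) (.node (.node (.node tQ107 tQ619) (.node tQ363 tQ875))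 (.node (.node tQ235 tQ747) (.node tQ491 dummyP))))) (.node (.node (.node (.node (.node tQ27 tQ539) (.node tQ283 tQ795)) (.node (.node tQ155 tQ667) (.node tQ411 tQ923))) (.node (.node (.node tQ91 tQ603) (.node tQ347 tQ859)) (.node (.node tQ219 tQ731) (.node tQ475 dummyP)))) (.node (.node (.node (.node tQ59 tQ571) (.node tQ315 tQ827)) (.node (.node tQ187 tQ699) (.node tQ443 tQ955))) (.node (.node (.node tQ123 tQ635) (.node tQ379 tQ891)) (.node (.node tQ251 tQ763) (.node tQ507 dummyP))))))) (.node (.node (.node (.node (.node (.node (.node tQ7 tQ519) (.node tQ263 tQ775)) (.node (.node tQ135 tQ647) (.node tQ391 tQ903))) (.node (.node (.node tQ71 tQ583) (.node tQ327 tQ839)) (.node (.node tQ199 tQ711) (.node tQ455 tQ967)))) (.node (.node (.node (.node tQ39 tQ551) (.node tQ295 tQ807)) (.node (.node tQ167 tQ679) (.node tQ423 tQ935))) (.node (.node (.node tQ103 tQ615) (.node tQ359 tQ871)) (.node (.node tQ231 tQ743) (.node tQ487 dummyP))))) (.node (.node (.node (.node (.node tQ23 tQ535) (.node tQ279 tQ791)) (.node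 (.node tQ151 tQ663) (.node tQ407 tQ919))) (.node (.node (.node tQ87 tQ599) (.node tQ343 tQ855)) (.node (.node tQ215 tQ727) (.node tQ471 tQ983)))) (.node (.node (.node (.node tQ55 tQ567) (.node tQ311 tQ823)) (.node (.node tQ183 tQ695) (.node tQ439 tQ951))) (.node (.node (.node tQ119 tQ631) (.node tQ375 tQ887)) (.node (.node tQ247 tQ759) (.node tQ503 dummyP)))))) (.node (.node (.node (.node (.node (.node tQ15 tQ527) (.node tQ271 tQ783)) (.node (.node tQ143 tQ655) (.node tQ399 tQ911))) (.node (.node (.node tQ79 tQ591) (.node tQ335 tQ847)) (.node (.node tQ207 tQ719) (.node tQ463 tQ975)))) (.node (.node (.node (.node tQ47 tQ559) (.node tQ303 tQ815)) (.node (.node tQ175 tQ687) (.node tQ431 tQ943))) (.node (.node (.node tQ111 tQ623) (.node tQ367 tQ879)) (.node (.node tQ239 tQ751) (.node tQ495 dummyP))))) (.node (.node (.node (.node (.node tQ31 tQ543) (.node tQ287 tQ799)) (.node (.node tQ159 tQ671) (.node tQ415 tQ927))) (.node (.node (.node tQ95 tQ607) (.node tQ351 tQ863)) (.node (.node tQ223 tQ735) (.node tQ479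 dummyP)))) (.node (.node (.node (.node tQ63 tQ575) (.node tQ319 tQ831)) (.node (.node tQ191 tQ703) (.node tQ447 tQ959))) (.node (.node (.node tQ127 tQ639) (.node tQ383 tQ895)) (.node (.node tQ255 tQ767) (.node tQ511 dummyP))))))))))
theorem tQL3_good : tQL3.Good := (PTb.Good.node (PTb.Good.node (PTb.Good.node (PTb.Good.node (PTb.Good.node (PTb.Good.node (PTb.Good.node (PTb.Good.node (PTb.Good.node (PTb.Good.node tQ0_good tQ512_good) (PTb.Good.node tQ256_good tQ768_good)) (PTb.Good.node (PTb.Good.node tQ128_good tQ640_good) (PTb.Good.node tQ384_good tQ896_good))) (PTb.Good.node (PTb.Good.node (PTb.Good.node tQ64_good tQ576_good) (PTb.Good.node tQ320_good tQ832_good)) (PTb.Good.node (PTb.Good.node tQ192_good tQ704_good) (PTb.Good.node tQ448_good tQ960_good)))) (PTb.Good.node (PTb.Good.node (PTb.Good.node (PTb.Good.node tQ32_good tQ544_good) (PTb.Good.node tQ288_good tQ800_good)) (PTb.Good.node (PTb.Good.node tQ160_good tQ672_good) (PTb.Good.node tQ416_good tQ928_good))) (PTb.Good.node (PTb.Good.node (PTb.Good.node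 tQ96_good tQ608_good) (PTb.Good.node tQ352_good tQ864_good)) (PTb.Good.node (PTb.Good.node tQ224_good tQ736_good) (PTb.Good.node tQ480_good dummyP_good))))) (PTb.Good.node (PTb.Good.node (PTb.Good.node (PTb.Good.node (PTb.Good.node tQ16_good tQ528_good) (PTb.Good.node tQ272_good tQ784_good)) (PTb.Good.node (PTb.Good.node tQ144_good tQ656_good) (PTb.Good.node tQ400_good tQ912_good))) (PTb.Good.node (PTb.Good.node (PTb.Good.node tQ80_good tQ592_good) (PTb.Good.node tQ336_good tQ848_good)) (PTb.Good.node (PTb.Good.node tQ208_good tQ720_good) (PTb.Good.node tQ464_good tQ976_good)))) (PTb.Good.node (PTb.Good.node (PTb.Good.node (PTb.Good.node tQ48_good tQ560_good) (PTb.Good.node tQ304_good tQ816_good)) (PTb.Good.node (PTb.Good.node tQ176_good tQ688_good) (PTb.Good.node tQ432_good tQ944_good))) (PTb.Good.node (PTb.Good.node (PTb.Good.node tQ112_good tQ624_good) (PTb.Good.node tQ368_good tQ880_good)) (PTb.Good.node (PTb.Good.node tQ240_good tQ752_good) (PTb.Good.node tQ496_good dummyP_good)))))) (PTb.Good.node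 (PTb.Good.node (PTb.Good.node (PTb.Good.node (PTb.Good.node (PTb.Good.node tQ8_good tQ520_good) (PTb.Good.node tQ264_good tQ776_good)) (PTb.Good.node (PTb.Good.node tQ136_good tQ648_good) (PTb.Good.node tQ392_good tQ904_good))) (PTb.Good.node (PTb.Good.node (PTb.Good.node tQ72_good tQ584_good) (PTb.Good.node tQ328_good tQ840_good)) (PTb.Good.node (PTb.Good.node tQ200_good tQ712_good) (PTb.Good.node tQ456_good tQ968_good)))) (PTb.Good.node (PTb.Good.node (PTb.Good.node (PTb.Good.node tQ40_good tQ552_good) (PTb.Good.node tQ296_good tQ808_good)) (PTb.Good.node (PTb.Good.node tQ168_good tQ680_good) (PTb.Good.node tQ424_good tQ936_good))) (PTb.Good.node (PTb.Good.node (PTb.Good.node tQ104_good tQ616_good) (PTb.Good.node tQ360_good tQ872_good)) (PTb.Good.node (PTb.Good.node tQ232_good tQ744_good) (PTb.Good.node tQ488_good dummyP_good))))) (PTb.Good.node (PTb.Good.node (PTb.Good.node (PTb.Good.node (PTb.Good.node tQ24_good tQ536_good) (PTb.Good.node tQ280_good tQ792_good)) (PTb.Good.node (PTb.Good.node tQ152_good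 tQ664_good) (PTb.Good.node tQ408_good tQ920_good))) (PTb.Good.node (PTb.Good.node (PTb.Good.node tQ88_good tQ600_good) (PTb.Good.node tQ344_good tQ856_good)) (PTb.Good.node (PTb.Good.node tQ216_good tQ728_good) (PTb.Good.node tQ472_good tQ984_good)))) (PTb.Good.node (PTb.Good.node (PTb.Good.node (PTb.Good.node tQ56_good tQ568_good) (PTb.Good.node tQ312_good tQ824_good)) (PTb.Good.node (PTb.Good.node tQ184_good tQ696_good) (PTb.Good.node tQ440_good tQ952_good))) (PTb.Good.node (PTb.Good.node (PTb.Good.node tQ120_good tQ632_good) (PTb.Good.node tQ376_good tQ888_good)) (PTb.Good.node (PTb.Good.node tQ248_good tQ760_good) (PTb.Good.node tQ504_good dummyP_good))))))) (PTb.Good.node (PTb.Good.node (PTb.Good.node (PTb.Good.node (PTb.Good.node (PTb.Good.node (PTb.Good.node tQ4_good tQ516_good) (PTb.Good.node tQ260_good tQ772_good)) (PTb.Good.node (PTb.Good.node tQ132_good tQ644_good) (PTb.Good.node tQ388_good tQ900_good))) (PTb.Good.node (PTb.Good.node (PTb.Good.node tQ68_good tQ580_good) (PTb.Good.node tQ324_good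 tQ836_good)) (PTb.Good.node (PTb.Good.node tQ196_good tQ708_good) (PTb.Good.node tQ452_good tQ964_good)))) (PTb.Good.node (PTb.Good.node (PTb.Good.node (PTb.Good.node tQ36_good tQ548_good) (PTb.Good.node tQ292_good tQ804_good)) (PTb.Good.node (PTb.Good.node tQ164_good tQ676_good) (PTb.Good.node tQ420_good tQ932_good))) (PTb.Good.node (PTb.Good.node (PTb.Good.node tQ100_good tQ612_good) (PTb.Good.node tQ356_good tQ868_good)) (PTb.Good.node (PTb.Good.node tQ228_good tQ740_good) (PTb.Good.node tQ484_good dummyP_good))))) (PTb.Good.node (PTb.Good.node (PTb.Good.node (PTb.Good.node (PTb.Good.node tQ20_good tQ532_good) (PTb.Good.node tQ276_good tQ788_good)) (PTb.Good.node (PTb.Good.node tQ148_good tQ660_good) (PTb.Good.node tQ404_good tQ916_good))) (PTb.Good.node (PTb.Good.node (PTb.Good.node tQ84_good tQ596_good) (PTb.Good.node tQ340_good tQ852_good)) (PTb.Good.node (PTb.Good.node tQ212_good tQ724_good) (PTb.Good.node tQ468_good tQ980_good)))) (PTb.Good.node (PTb.Good.node (PTb.Good.node (PTb.Good.node tQ52_good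 tQ564_good) (PTb.Good.node tQ308_good tQ820_good)) (PTb.Good.node (PTb.Good.node tQ180_good tQ692_good) (PTb.Good.node tQ436_good tQ948_good))) (PTb.Good.node (PTb.Good.node (PTb.Good.node tQ116_good tQ628_good) (PTb.Good.node tQ372_good tQ884_good)) (PTb.Good.node (PTb.Good.node tQ244_good tQ756_good) (PTb.Good.node tQ500_good dummyP_good)))))) (PTb.Good.node (PTb.Good.node (PTb.Good.node (PTb.Good.node (PTb.Good.node (PTb.Good.node tQ12_good tQ524_good) (PTb.Good.node tQ268_good tQ780_good)) (PTb.Good.node (PTb.Good.node tQ140_good tQ652_good) (PTb.Good.node tQ396_good tQ908_good))) (PTb.Good.node (PTb.Good.node (PTb.Good.node tQ76_good tQ588_good) (PTb.Good.node tQ332_good tQ844_good)) (PTb.Good.node (PTb.Good.node tQ204_good tQ716_good) (PTb.Good.node tQ460_good tQ972_good)))) (PTb.Good.node (PTb.Good.node (PTb.Good.node (PTb.Good.node tQ44_good tQ556_good) (PTb.Good.node tQ300_good tQ812_good)) (PTb.Good.node (PTb.Good.node tQ172_good tQ684_good) (PTb.Good.node tQ428_good tQ940_good))) (PTb.Good.node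 (PTb.Good.node (PTb.Good.node tQ108_good tQ620_good) (PTb.Good.node tQ364_good tQ876_good)) (PTb.Good.node (PTb.Good.node tQ236_good tQ748_good) (PTb.Good.node tQ492_good dummyP_good))))) (PTb.Good.node (PTb.Good.node (PTb.Good.node (PTb.Good.node (PTb.Good.node tQ28_good tQ540_good) (PTb.Good.node tQ284_good tQ796_good)) (PTb.Good.node (PTb.Good.node tQ156_good tQ668_good) (PTb.Good.node tQ412_good tQ924_good))) (PTb.Good.node (PTb.Good.node (PTb.Good.node tQ92_good tQ604_good) (PTb.Good.node tQ348_good tQ860_good)) (PTb.Good.node (PTb.Good.node tQ220_good tQ732_good) (PTb.Good.node tQ476_good dummyP_good)))) (PTb.Good.node (PTb.Good.node (PTb.Good.node (PTb.Good.node tQ60_good tQ572_good) (PTb.Good.node tQ316_good tQ828_good)) (PTb.Good.node (PTb.Good.node tQ188_good tQ700_good) (PTb.Good.node tQ444_good tQ956_good))) (PTb.Good.node (PTb.Good.node (PTb.Good.node tQ124_good tQ636_good) (PTb.Good.node tQ380_good tQ892_good)) (PTb.Good.node (PTb.Good.node tQ252_good tQ764_good) (PTb.Good.node tQ508_good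 dummyP_good)))))))) (PTb.Good.node (PTb.Good.node (PTb.Good.node (PTb.Good.node (PTb.Good.node (PTb.Good.node (PTb.Good.node (PTb.Good.node tQ2_good tQ514_good) (PTb.Good.node tQ258_good tQ770_good)) (PTb.Good.node (PTb.Good.node tQ130_good tQ642_good) (PTb.Good.node tQ386_good tQ898_good))) (PTb.Good.node (PTb.Good.node (PTb.Good.node tQ66_good tQ578_good) (PTb.Good.node tQ322_good tQ834_good)) (PTb.Good.node (PTb.Good.node tQ194_good tQ706_good) (PTb.Good.node tQ450_good tQ962_good)))) (PTb.Good.node (PTb.Good.node (PTb.Good.node (PTb.Good.node tQ34_good tQ546_good) (PTb.Good.node tQ290_good tQ802_good)) (PTb.Good.node (PTb.Good.node tQ162_good tQ674_good) (PTb.Good.node tQ418_good tQ930_good))) (PTb.Good.node (PTb.Good.node (PTb.Good.node tQ98_good tQ610_good) (PTb.Good.node tQ354_good tQ866_good)) (PTb.Good.node (PTb.Good.node tQ226_good tQ738_good) (PTb.Good.node tQ482_good dummyP_good))))) (PTb.Good.node (PTb.Good.node (PTb.Good.node (PTb.Good.node (PTb.Good.node tQ18_good tQ530_good) (PTb.Good.node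 tQ274_good tQ786_good)) (PTb.Good.node (PTb.Good.node tQ146_good tQ658_good) (PTb.Good.node tQ402_good tQ914_good))) (PTb.Good.node (PTb.Good.node (PTb.Good.node tQ82_good tQ594_good) (PTb.Good.node tQ338_good tQ850_good)) (PTb.Good.node (PTb.Good.node tQ210_good tQ722_good) (PTb.Good.node tQ466_good tQ978_good)))) (PTb.Good.node (PTb.Good.node (PTb.Good.node (PTb.Good.node tQ50_good tQ562_good) (PTb.Good.node tQ306_good tQ818_good)) (PTb.Good.node (PTb.Good.node tQ178_good tQ690_good) (PTb.Good.node tQ434_good tQ946_good))) (PTb.Good.node (PTb.Good.node (PTb.Good.node tQ114_good tQ626_good) (PTb.Good.node tQ370_good tQ882_good)) (PTb.Good.node (PTb.Good.node tQ242_good tQ754_good) (PTb.Good.node tQ498_good dummyP_good)))))) (PTb.Good.node (PTb.Good.node (PTb.Good.node (PTb.Good.node (PTb.Good.node (PTb.Good.node tQ10_good tQ522_good) (PTb.Good.node tQ266_good tQ778_good)) (PTb.Good.node (PTb.Good.node tQ138_good tQ650_good) (PTb.Good.node tQ394_good tQ906_good))) (PTb.Good.node (PTb.Good.node (PTb.Good.node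 tQ74_good tQ586_good) (PTb.Good.node tQ330_good tQ842_good)) (PTb.Good.node (PTb.Good.node tQ202_good tQ714_good) (PTb.Good.node tQ458_good tQ970_good)))) (PTb.Good.node (PTb.Good.node (PTb.Good.node (PTb.Good.node tQ42_good tQ554_good) (PTb.Good.node tQ298_good tQ810_good)) (PTb.Good.node (PTb.Good.node tQ170_good tQ682_good) (PTb.Good.node tQ426_good tQ938_good))) (PTb.Good.node (PTb.Good.node (PTb.Good.node tQ106_good tQ618_good) (PTb.Good.node tQ362_good tQ874_good)) (PTb.Good.node (PTb.Good.node tQ234_good tQ746_good) (PTb.Good.node tQ490_good dummyP_good))))) (PTb.Good.node (PTb.Good.node (PTb.Good.node (PTb.Good.node (PTb.Good.node tQ26_good tQ538_good) (PTb.Good.node tQ282_good tQ794_good)) (PTb.Good.node (PTb.Good.node tQ154_good tQ666_good) (PTb.Good.node tQ410_good tQ922_good))) (PTb.Good.node (PTb.Good.node (PTb.Good.node tQ90_good tQ602_good) (PTb.Good.node tQ346_good tQ858_good)) (PTb.Good.node (PTb.Good.node tQ218_good tQ730_good) (PTb.Good.node tQ474_good tQ986_good)))) (PTb.Good.node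 (PTb.Good.node (PTb.Good.node (PTb.Good.node tQ58_good tQ570_good) (PTb.Good.node tQ314_good tQ826_good)) (PTb.Good.node (PTb.Good.node tQ186_good tQ698_good) (PTb.Good.node tQ442_good tQ954_good))) (PTb.Good.node (PTb.Good.node (PTb.Good.node tQ122_good tQ634_good) (PTb.Good.node tQ378_good tQ890_good)) (PTb.Good.node (PTb.Good.node tQ250_good tQ762_good) (PTb.Good.node tQ506_good dummyP_good))))))) (PTb.Good.node (PTb.Good.node (PTb.Good.node (PTb.Good.node (PTb.Good.node (PTb.Good.node (PTb.Good.node tQ6_good tQ518_good) (PTb.Good.node tQ262_good tQ774_good)) (PTb.Good.node (PTb.Good.node tQ134_good tQ646_good) (PTb.Good.node tQ390_good tQ902_good))) (PTb.Good.node (PTb.Good.node (PTb.Good.node tQ70_good tQ582_good) (PTb.Good.node tQ326_good tQ838_good)) (PTb.Good.node (PTb.Good.node tQ198_good tQ710_good) (PTb.Good.node tQ454_good tQ966_good)))) (PTb.Good.node (PTb.Good.node (PTb.Good.node (PTb.Good.node tQ38_good tQ550_good) (PTb.Good.node tQ294_good tQ806_good)) (PTb.Good.node (PTb.Good.node tQ166_good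 tQ678_good) (PTb.Good.node tQ422_good tQ934_good))) (PTb.Good.node (PTb.Good.node (PTb.Good.node tQ102_good tQ614_good) (PTb.Good.node tQ358_good tQ870_good)) (PTb.Good.node (PTb.Good.node tQ230_good tQ742_good) (PTb.Good.node tQ486_good dummyP_good))))) (PTb.Good.node (PTb.Good.node (PTb.Good.node (PTb.Good.node (PTb.Good.node tQ22_good tQ534_good) (PTb.Good.node tQ278_good tQ790_good)) (PTb.Good.node (PTb.Good.node tQ150_good tQ662_good) (PTb.Good.node tQ406_good tQ918_good))) (PTb.Good.node (PTb.Good.node (PTb.Good.node tQ86_good tQ598_good) (PTb.Good.node tQ342_good tQ854_good)) (PTb.Good.node (PTb.Good.node tQ214_good tQ726_good) (PTb.Good.node tQ470_good tQ982_good)))) (PTb.Good.node (PTb.Good.node (PTb.Good.node (PTb.Good.node tQ54_good tQ566_good) (PTb.Good.node tQ310_good tQ822_good)) (PTb.Good.node (PTb.Good.node tQ182_good tQ694_good) (PTb.Good.node tQ438_good tQ950_good))) (PTb.Good.node (PTb.Good.node (PTb.Good.node tQ118_good tQ630_good) (PTb.Good.node tQ374_good tQ886_good)) (PTb.Good.node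 (PTb.Good.node tQ246_good tQ758_good) (PTb.Good.node tQ502_good dummyP_good)))))) (PTb.Good.node (PTb.Good.node (PTb.Good.node (PTb.Good.node (PTb.Good.node (PTb.Good.node tQ14_good tQ526_good) (PTb.Good.node tQ270_good tQ782_good)) (PTb.Good.node (PTb.Good.node tQ142_good tQ654_good) (PTb.Good.node tQ398_good tQ910_good))) (PTb.Good.node (PTb.Good.node (PTb.Good.node tQ78_good tQ590_good) (PTb.Good.node tQ334_good tQ846_good)) (PTb.Good.node (PTb.Good.node tQ206_good tQ718_good) (PTb.Good.node tQ462_good tQ974_good)))) (PTb.Good.node (PTb.Good.node (PTb.Good.node (PTb.Good.node tQ46_good tQ558_good) (PTb.Good.node tQ302_good tQ814_good)) (PTb.Good.node (PTb.Good.node tQ174_good tQ686_good) (PTb.Good.node tQ430_good tQ942_good))) (PTb.Good.node (PTb.Good.node (PTb.Good.node tQ110_good tQ622_good) (PTb.Good.node tQ366_good tQ878_good)) (PTb.Good.node (PTb.Good.node tQ238_good tQ750_good) (PTb.Good.node tQ494_good dummyP_good))))) (PTb.Good.node (PTb.Good.node (PTb.Good.node (PTb.Good.node (PTb.Good.node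 tQ30_good tQ542_good) (PTb.Good.node tQ286_good tQ798_good)) (PTb.Good.node (PTb.Good.node tQ158_good tQ670_good) (PTb.Good.node tQ414_good tQ926_good))) (PTb.Good.node (PTb.Good.node (PTb.Good.node tQ94_good tQ606_good) (PTb.Good.node tQ350_good tQ862_good)) (PTb.Good.node (PTb.Good.node tQ222_good tQ734_good) (PTb.Good.node tQ478_good dummyP_good)))) (PTb.Good.node (PTb.Good.node (PTb.Good.node (PTb.Good.node tQ62_good tQ574_good) (PTb.Good.node tQ318_good tQ830_good)) (PTb.Good.node (PTb.Good.node tQ190_good tQ702_good) (PTb.Good.node tQ446_good tQ958_good))) (PTb.Good.node (PTb.Good.node (PTb.Good.node tQ126_good tQ638_good) (PTb.Good.node tQ382_good tQ894_good)) (PTb.Good.node (PTb.Good.node tQ254_good tQ766_good) (PTb.Good.node tQ510_good dummyP_good))))))))) (PTb.Good.node (PTb.Good.node (PTb.Good.node (PTb.Good.node (PTb.Good.node (PTb.Good.node (PTb.Good.node (PTb.Good.node (PTb.Good.node tQ1_good tQ513_good) (PTb.Good.node tQ257_good tQ769_good)) (PTb.Good.node (PTb.Good.node tQ129_good tQ641_good)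 (PTb.Good.node tQ385_good tQ897_good))) (PTb.Good.node (PTb.Good.node (PTb.Good.node tQ65_good tQ577_good) (PTb.Good.node tQ321_good tQ833_good)) (PTb.Good.node (PTb.Good.node tQ193_good tQ705_good) (PTb.Good.node tQ449_good tQ961_good)))) (PTb.Good.node (PTb.Good.node (PTb.Good.node (PTb.Good.node tQ33_good tQ545_good) (PTb.Good.node tQ289_good tQ801_good)) (PTb.Good.node (PTb.Good.node tQ161_good tQ673_good) (PTb.Good.node tQ417_good tQ929_good))) (PTb.Good.node (PTb.Good.node (PTb.Good.node tQ97_good tQ609_good) (PTb.Good.node tQ353_good tQ865_good)) (PTb.Good.node (PTb.Good.node tQ225_good tQ737_good) (PTb.Good.node tQ481_good dummyP_good))))) (PTb.Good.node (PTb.Good.node (PTb.Good.node (PTb.Good.node (PTb.Good.node tQ17_good tQ529_good) (PTb.Good.node tQ273_good tQ785_good)) (PTb.Good.node (PTb.Good.node tQ145_good tQ657_good) (PTb.Good.node tQ401_good tQ913_good))) (PTb.Good.node (PTb.Good.node (PTb.Good.node tQ81_good tQ593_good) (PTb.Good.node tQ337_good tQ849_good)) (PTb.Good.node (PTb.Good.node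 tQ209_good tQ721_good) (PTb.Good.node tQ465_good tQ977_good)))) (PTb.Good.node (PTb.Good.node (PTb.Good.node (PTb.Good.node tQ49_good tQ561_good) (PTb.Good.node tQ305_good tQ817_good)) (PTb.Good.node (PTb.Good.node tQ177_good tQ689_good) (PTb.Good.node tQ433_good tQ945_good))) (PTb.Good.node (PTb.Good.node (PTb.Good.node tQ113_good tQ625_good) (PTb.Good.node tQ369_good tQ881_good)) (PTb.Good.node (PTb.Good.node tQ241_good tQ753_good) (PTb.Good.node tQ497_good dummyP_good)))))) (PTb.Good.node (PTb.Good.node (PTb.Good.node (PTb.Good.node (PTb.Good.node (PTb.Good.node tQ9_good tQ521_good) (PTb.Good.node tQ265_good tQ777_good)) (PTb.Good.node (PTb.Good.node tQ137_good tQ649_good) (PTb.Good.node tQ393_good tQ905_good))) (PTb.Good.node (PTb.Good.node (PTb.Good.node tQ73_good tQ585_good) (PTb.Good.node tQ329_good tQ841_good)) (PTb.Good.node (PTb.Good.node tQ201_good tQ713_good) (PTb.Good.node tQ457_good tQ969_good)))) (PTb.Good.node (PTb.Good.node (PTb.Good.node (PTb.Good.node tQ41_good tQ553_good) (PTb.Good.node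 tQ297_good tQ809_good)) (PTb.Good.node (PTb.Good.node tQ169_good tQ681_good) (PTb.Good.node tQ425_good tQ937_good))) (PTb.Good.node (PTb.Good.node (PTb.Good.node tQ105_good tQ617_good) (PTb.Good.node tQ361_good tQ873_good)) (PTb.Good.node (PTb.Good.node tQ233_good tQ745_good) (PTb.Good.node tQ489_good dummyP_good))))) (PTb.Good.node (PTb.Good.node (PTb.Good.node (PTb.Good.node (PTb.Good.node tQ25_good tQ537_good) (PTb.Good.node tQ281_good tQ793_good)) (PTb.Good.node (PTb.Good.node tQ153_good tQ665_good) (PTb.Good.node tQ409_good tQ921_good))) (PTb.Good.node (PTb.Good.node (PTb.Good.node tQ89_good tQ601_good) (PTb.Good.node tQ345_good tQ857_good)) (PTb.Good.node (PTb.Good.node tQ217_good tQ729_good) (PTb.Good.node tQ473_good tQ985_good)))) (PTb.Good.node (PTb.Good.node (PTb.Good.node (PTb.Good.node tQ57_good tQ569_good) (PTb.Good.node tQ313_good tQ825_good)) (PTb.Good.node (PTb.Good.node tQ185_good tQ697_good) (PTb.Good.node tQ441_good tQ953_good))) (PTb.Good.node (PTb.Good.node (PTb.Good.node tQ121_good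 tQ633_good) (PTb.Good.node tQ377_good tQ889_good)) (PTb.Good.node (PTb.Good.node tQ249_good tQ761_good) (PTb.Good.node tQ505_good dummyP_good))))))) (PTb.Good.node (PTb.Good.node (PTb.Good.node (PTb.Good.node (PTb.Good.node (PTb.Good.node (PTb.Good.node tQ5_good tQ517_good) (PTb.Good.node tQ261_good tQ773_good)) (PTb.Good.node (PTb.Good.node tQ133_good tQ645_good) (PTb.Good.node tQ389_good tQ901_good))) (PTb.Good.node (PTb.Good.node (PTb.Good.node tQ69_good tQ581_good) (PTb.Good.node tQ325_good tQ837_good)) (PTb.Good.node (PTb.Good.node tQ197_good tQ709_good) (PTb.Good.node tQ453_good tQ965_good)))) (PTb.Good.node (PTb.Good.node (PTb.Good.node (PTb.Good.node tQ37_good tQ549_good) (PTb.Good.node tQ293_good tQ805_good)) (PTb.Good.node (PTb.Good.node tQ165_good tQ677_good) (PTb.Good.node tQ421_good tQ933_good))) (PTb.Good.node (PTb.Good.node (PTb.Good.node tQ101_good tQ613_good) (PTb.Good.node tQ357_good tQ869_good)) (PTb.Good.node (PTb.Good.node tQ229_good tQ741_good) (PTb.Good.node tQ485_good dummyP_good)))))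 (PTb.Good.node (PTb.Good.node (PTb.Good.node (PTb.Good.node (PTb.Good.node tQ21_good tQ533_good) (PTb.Good.node tQ277_good tQ789_good)) (PTb.Good.node (PTb.Good.node tQ149_good tQ661_good) (PTb.Good.node tQ405_good tQ917_good))) (PTb.Good.node (PTb.Good.node (PTb.Good.node tQ85_good tQ597_good) (PTb.Good.node tQ341_good tQ853_good)) (PTb.Good.node (PTb.Good.node tQ213_good tQ725_good) (PTb.Good.node tQ469_good tQ981_good)))) (PTb.Good.node (PTb.Good.node (PTb.Good.node (PTb.Good.node tQ53_good tQ565_good) (PTb.Good.node tQ309_good tQ821_good)) (PTb.Good.node (PTb.Good.node tQ181_good tQ693_good) (PTb.Good.node tQ437_good tQ949_good))) (PTb.Good.node (PTb.Good.node (PTb.Good.node tQ117_good tQ629_good) (PTb.Good.node tQ373_good tQ885_good)) (PTb.Good.node (PTb.Good.node tQ245_good tQ757_good) (PTb.Good.node tQ501_good dummyP_good)))))) (PTb.Good.node (PTb.Good.node (PTb.Good.node (PTb.Good.node (PTb.Good.node (PTb.Good.node tQ13_good tQ525_good) (PTb.Good.node tQ269_good tQ781_good)) (PTb.Good.node (PTb.Good.node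 tQ141_good tQ653_good) (PTb.Good.node tQ397_good tQ909_good))) (PTb.Good.node (PTb.Good.node (PTb.Good.node tQ77_good tQ589_good) (PTb.Good.node tQ333_good tQ845_good)) (PTb.Good.node (PTb.Good.node tQ205_good tQ717_good) (PTb.Good.node tQ461_good tQ973_good)))) (PTb.Good.node (PTb.Good.node (PTb.Good.node (PTb.Good.node tQ45_good tQ557_good) (PTb.Good.node tQ301_good tQ813_good)) (PTb.Good.node (PTb.Good.node tQ173_good tQ685_good) (PTb.Good.node tQ429_good tQ941_good))) (PTb.Good.node (PTb.Good.node (PTb.Good.node tQ109_good tQ621_good) (PTb.Good.node tQ365_good tQ877_good)) (PTb.Good.node (PTb.Good.node tQ237_good tQ749_good) (PTb.Good.node tQ493_good dummyP_good))))) (PTb.Good.node (PTb.Good.node (PTb.Good.node (PTb.Good.node (PTb.Good.node tQ29_good tQ541_good) (PTb.Good.node tQ285_good tQ797_good)) (PTb.Good.node (PTb.Good.node tQ157_good tQ669_good) (PTb.Good.node tQ413_good tQ925_good))) (PTb.Good.node (PTb.Good.node (PTb.Good.node tQ93_good tQ605_good) (PTb.Good.node tQ349_good tQ861_good))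 (PTb.Good.node (PTb.Good.node tQ221_good tQ733_good) (PTb.Good.node tQ477_good dummyP_good)))) (PTb.Good.node (PTb.Good.node (PTb.Good.node (PTb.Good.node tQ61_good tQ573_good) (PTb.Good.node tQ317_good tQ829_good)) (PTb.Good.node (PTb.Good.node tQ189_good tQ701_good) (PTb.Good.node tQ445_good tQ957_good))) (PTb.Good.node (PTb.Good.node (PTb.Good.node tQ125_good tQ637_good) (PTb.Good.node tQ381_good tQ893_good)) (PTb.Good.node (PTb.Good.node tQ253_good tQ765_good) (PTb.Good.node tQ509_good dummyP_good)))))))) (PTb.Good.node (PTb.Good.node (PTb.Good.node (PTb.Good.node (PTb.Good.node (PTb.Good.node (PTb.Good.node (PTb.Good.node tQ3_good tQ515_good) (PTb.Good.node tQ259_good tQ771_good)) (PTb.Good.node (PTb.Good.node tQ131_good tQ643_good) (PTb.Good.node tQ387_good tQ899_good))) (PTb.Good.node (PTb.Good.node (PTb.Good.node tQ67_good tQ579_good) (PTb.Good.node tQ323_good tQ835_good)) (PTb.Good.node (PTb.Good.node tQ195_good tQ707_good) (PTb.Good.node tQ451_good tQ963_good)))) (PTb.Good.node (PTb.Good.node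 (PTb.Good.node (PTb.Good.node tQ35_good tQ547_good) (PTb.Good.node tQ291_good tQ803_good)) (PTb.Good.node (PTb.Good.node tQ163_good tQ675_good) (PTb.Good.node tQ419_good tQ931_good))) (PTb.Good.node (PTb.Good.node (PTb.Good.node tQ99_good tQ611_good) (PTb.Good.node tQ355_good tQ867_good)) (PTb.Good.node (PTb.Good.node tQ227_good tQ739_good) (PTb.Good.node tQ483_good dummyP_good))))) (PTb.Good.node (PTb.Good.node (PTb.Good.node (PTb.Good.node (PTb.Good.node tQ19_good tQ531_good) (PTb.Good.node tQ275_good tQ787_good)) (PTb.Good.node (PTb.Good.node tQ147_good tQ659_good) (PTb.Good.node tQ403_good tQ915_good))) (PTb.Good.node (PTb.Good.node (PTb.Good.node tQ83_good tQ595_good) (PTb.Good.node tQ339_good tQ851_good)) (PTb.Good.node (PTb.Good.node tQ211_good tQ723_good) (PTb.Good.node tQ467_good tQ979_good)))) (PTb.Good.node (PTb.Good.node (PTb.Good.node (PTb.Good.node tQ51_good tQ563_good) (PTb.Good.node tQ307_good tQ819_good)) (PTb.Good.node (PTb.Good.node tQ179_good tQ691_good) (PTb.Good.node tQ435_good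 tQ947_good))) (PTb.Good.node (PTb.Good.node (PTb.Good.node tQ115_good tQ627_good) (PTb.Good.node tQ371_good tQ883_good)) (PTb.Good.node (PTb.Good.node tQ243_good tQ755_good) (PTb.Good.node tQ499_good dummyP_good)))))) (PTb.Good.node (PTb.Good.node (PTb.Good.node (PTb.Good.node (PTb.Good.node (PTb.Good.node tQ11_good tQ523_good) (PTb.Good.node tQ267_good tQ779_good)) (PTb.Good.node (PTb.Good.node tQ139_good tQ651_good) (PTb.Good.node tQ395_good tQ907_good))) (PTb.Good.node (PTb.Good.node (PTb.Good.node tQ75_good tQ587_good) (PTb.Good.node tQ331_good tQ843_good)) (PTb.Good.node (PTb.Good.node tQ203_good tQ715_good) (PTb.Good.node tQ459_good tQ971_good)))) (PTb.Good.node (PTb.Good.node (PTb.Good.node (PTb.Good.node tQ43_good tQ555_good) (PTb.Good.node tQ299_good tQ811_good)) (PTb.Good.node (PTb.Good.node tQ171_good tQ683_good) (PTb.Good.node tQ427_good tQ939_good))) (PTb.Good.node (PTb.Good.node (PTb.Good.node tQ107_good tQ619_good) (PTb.Good.node tQ363_good tQ875_good)) (PTb.Good.node (PTb.Good.node tQ235_good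 tQ747_good) (PTb.Good.node tQ491_good dummyP_good))))) (PTb.Good.node (PTb.Good.node (PTb.Good.node (PTb.Good.node (PTb.Good.node tQ27_good tQ539_good) (PTb.Good.node tQ283_good tQ795_good)) (PTb.Good.node (PTb.Good.node tQ155_good tQ667_good) (PTb.Good.node tQ411_good tQ923_good))) (PTb.Good.node (PTb.Good.node (PTb.Good.node tQ91_good tQ603_good) (PTb.Good.node tQ347_good tQ859_good)) (PTb.Good.node (PTb.Good.node tQ219_good tQ731_good) (PTb.Good.node tQ475_good dummyP_good)))) (PTb.Good.node (PTb.Good.node (PTb.Good.node (PTb.Good.node tQ59_good tQ571_good) (PTb.Good.node tQ315_good tQ827_good)) (PTb.Good.node (PTb.Good.node tQ187_good tQ699_good) (PTb.Good.node tQ443_good tQ955_good))) (PTb.Good.node (PTb.Good.node (PTb.Good.node tQ123_good tQ635_good) (PTb.Good.node tQ379_good tQ891_good)) (PTb.Good.node (PTb.Good.node tQ251_good tQ763_good) (PTb.Good.node tQ507_good dummyP_good))))))) (PTb.Good.node (PTb.Good.node (PTb.Good.node (PTb.Good.node (PTb.Good.node (PTb.Good.node (PTb.Good.node tQ7_good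 tQ519_good) (PTb.Good.node tQ263_good tQ775_good)) (PTb.Good.node (PTb.Good.node tQ135_good tQ647_good) (PTb.Good.node tQ391_good tQ903_good))) (PTb.Good.node (PTb.Good.node (PTb.Good.node tQ71_good tQ583_good) (PTb.Good.node tQ327_good tQ839_good)) (PTb.Good.node (PTb.Good.node tQ199_good tQ711_good) (PTb.Good.node tQ455_good tQ967_good)))) (PTb.Good.node (PTb.Good.node (PTb.Good.node (PTb.Good.node tQ39_good tQ551_good) (PTb.Good.node tQ295_good tQ807_good)) (PTb.Good.node (PTb.Good.node tQ167_good tQ679_good) (PTb.Good.node tQ423_good tQ935_good))) (PTb.Good.node (PTb.Good.node (PTb.Good.node tQ103_good tQ615_good) (PTb.Good.node tQ359_good tQ871_good)) (PTb.Good.node (PTb.Good.node tQ231_good tQ743_good) (PTb.Good.node tQ487_good dummyP_good))))) (PTb.Good.node (PTb.Good.node (PTb.Good.node (PTb.Good.node (PTb.Good.node tQ23_good tQ535_good) (PTb.Good.node tQ279_good tQ791_good)) (PTb.Good.node (PTb.Good.node tQ151_good tQ663_good) (PTb.Good.node tQ407_good tQ919_good))) (PTb.Good.node (PTb.Good.node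 (PTb.Good.node tQ87_good tQ599_good) (PTb.Good.node tQ343_good tQ855_good)) (PTb.Good.node (PTb.Good.node tQ215_good tQ727_good) (PTb.Good.node tQ471_good tQ983_good)))) (PTb.Good.node (PTb.Good.node (PTb.Good.node (PTb.Good.node tQ55_good tQ567_good) (PTb.Good.node tQ311_good tQ823_good)) (PTb.Good.node (PTb.Good.node tQ183_good tQ695_good) (PTb.Good.node tQ439_good tQ951_good))) (PTb.Good.node (PTb.Good.node (PTb.Good.node tQ119_good tQ631_good) (PTb.Good.node tQ375_good tQ887_good)) (PTb.Good.node (PTb.Good.node tQ247_good tQ759_good) (PTb.Good.node tQ503_good dummyP_good)))))) (PTb.Good.node (PTb.Good.node (PTb.Good.node (PTb.Good.node (PTb.Good.node (PTb.Good.node tQ15_good tQ527_good) (PTb.Good.node tQ271_good tQ783_good)) (PTb.Good.node (PTb.Good.node tQ143_good tQ655_good) (PTb.Good.node tQ399_good tQ911_good))) (PTb.Good.node (PTb.Good.node (PTb.Good.node tQ79_good tQ591_good) (PTb.Good.node tQ335_good tQ847_good)) (PTb.Good.node (PTb.Good.node tQ207_good tQ719_good) (PTb.Good.node tQ463_good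 tQ975_good)))) (PTb.Good.node (PTb.Good.node (PTb.Good.node (PTb.Good.node tQ47_good tQ559_good) (PTb.Good.node tQ303_good tQ815_good)) (PTb.Good.node (PTb.Good.node tQ175_good tQ687_good) (PTb.Good.node tQ431_good tQ943_good))) (PTb.Good.node (PTb.Good.node (PTb.Good.node tQ111_good tQ623_good) (PTb.Good.node tQ367_good tQ879_good)) (PTb.Good.node (PTb.Good.node tQ239_good tQ751_good) (PTb.Good.node tQ495_good dummyP_good))))) (PTb.Good.node (PTb.Good.node (PTb.Good.node (PTb.Good.node (PTb.Good.node tQ31_good tQ543_good) (PTb.Good.node tQ287_good tQ799_good)) (PTb.Good.node (PTb.Good.node tQ159_good tQ671_good) (PTb.Good.node tQ415_good tQ927_good))) (PTb.Good.node (PTb.Good.node (PTb.Good.node tQ95_good tQ607_good) (PTb.Good.node tQ351_good tQ863_good)) (PTb.Good.node (PTb.Good.node tQ223_good tQ735_good) (PTb.Good.node tQ479_good dummyP_good)))) (PTb.Good.node (PTb.Good.node (PTb.Good.node (PTb.Good.node tQ63_good tQ575_good) (PTb.Good.node tQ319_good tQ831_good)) (PTb.Good.node (PTb.Good.node tQ191_good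 tQ703_good) (PTb.Good.node tQ447_good tQ959_good))) (PTb.Good.node (PTb.Good.node (PTb.Good.node tQ127_good tQ639_good) (PTb.Good.node tQ383_good tQ895_good)) (PTb.Good.node (PTb.Good.node tQ255_good tQ767_good) (PTb.Good.node tQ511_good dummyP_good))))))))))
end Pool.Agent.Gomoku
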