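import Pool.Agent.Helper47.GomZ.PT
import Pool.Agent.Helper47.GomZ.GT
import Pool.Agent.Helper93.Gomoku.NearRoot
set_option autoImplicit false
set_option linter.all false
namespace Pool.Agent.Gomoku
theorem rt6 : ∀ off, ∃ n, AndWin n (dec off (Nat.lor (bit1 525) (bit1 558))) (dec off (bit1 569)) := rootChk_sound tC_good tP_good (gd := gS0_3) gS0_3_good (wd := (nat_lit 19)) (nl := [(nat_lit 7),(nat_lit 3),(nat_lit 5),(nat_lit 13),(nat_lit 9),(nat_lit 11),(nat_lit 15)]) (l := [(nat_lit 0x530000c12a),(nat_lit 0x538000f12e),(nat_lit 0x6180013947),(nat_lit 0x6200015148),(nat_lit 0x6280016149),(nat_lit 0x630001814a),(nat_lit 0x638001c14b),(nat_lit 0x640001a14c),(nat_lit 0x638001f14d),(nat_lit 0x638002314f),(nat_lit 0x6400021150),(nat_lit 0x6380025151),(nat_lit 0x6380028953),(nat_lit 0x7180014967),(nat_lit 0x720002a968),(nat_lit 0x728002d169),(nat_lit 0x730003116a),(nat_lit 0x738002f16b),(nat_lit 0x738003916c),(nat_lit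 0x738003316d),(nat_lit 0x730003516e),(nat_lit 0x738003716f),(nat_lit 0x740003b170),(nat_lit 0x730003d171),(nat_lit 0x740003f172),(nat_lit 0x7380041173),(nat_lit 0x7400029174),(nat_lit 0x8180015987),(nat_lit 0x820002c988),(nat_lit 0x8280041989),(nat_lit 0x830004418a),(nat_lit 0x838004618b),(nat_lit 0x838004a18c),(nat_lit 0x838004c18d),(nat_lit 0x838004818e),(nat_lit 0x840004e18f),(nat_lit 0x8400057990),(nat_lit 0x8380050191),(nat_lit 0x8380052192),(nat_lit 0x838003f993),(nat_lit 0x910000b9a6),(nat_lit 0x91800179a7),(nat_lit 0x92000309a8),(nat_lit 0x92800439a9),(nat_lit 0x93000551aa),(nat_lit 0x93800539ab),(nat_lit 0x938005b9ac),(nat_lit 0x93000599ad),(nat_lit 0x93800619ae),(nat_lit 0x93800639af),(nat_lit 0x938005d9b0),(nat_lit 0x938005f9b1),(nat_lit 0x93800509b2),(nat_lit 0x938003d9b3),(nat_lit 0x21870011edb5),(nat_lit 0xa18001b9c7),(nat_lit 0xa20002e9c8),(nat_lit 0xa2800459c9),(nat_lit 0xa3000531ca),(nat_lit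 0x93800651cb),(nat_lit 0x93800679cc),(nat_lit 0x938006b9cd),(nat_lit 0xa38006d9ce),(nat_lit 0xa3800699cf),(nat_lit 0xa38006f9d0),(nat_lit 0xa38005e1d1),(nat_lit 0xa3800581d2),(nat_lit 0xa38003b9d3),(nat_lit 0xa3800219d4),(nat_lit 0x2187001305d6),(nat_lit 0xb1800199e7),(nat_lit 0xa2000389e8),(nat_lit 0xa2800499e9),(nat_lit 0xa30005b1ea),(nat_lit 0xa3000671eb),(nat_lit 0x93800711ec),(nat_lit 0x92800761ed),(nat_lit 0xa3800781ee),(nat_lit 0xa3800739ef),(nat_lit 0xa30006a1f0),(nat_lit 0xa3800641f1),(nat_lit 0x940004e9f2),(nat_lit 0x93800379f3),(nat_lit 0xa3800239f4),(nat_lit 0x2187001465f7),(nat_lit 0xa18001ea07),(nat_lit 0xa200032a08),(nat_lit 0xa28004ba09),(nat_lit 0x930005920a),(nat_lit 0xa30006b20b),(nat_lit 0x8300075a0c),(nat_lit 0xa380074a0e),(nat_lit 0x9300078a0f),(nat_lit 0xa30006e210),(nat_lit 0xb300062211),(nat_lit 0xa400048a12),(nat_lit 0xb380035a13),(nat_lit 0x218700154618),(nat_lit 0xa10000ea26),(nat_lit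 0xb18001da27),(nat_lit 0x9200034a28),(nat_lit 0xa280047a29),(nat_lit 0xa30006122a),(nat_lit 0xa38006d22b),(nat_lit 0xa380077a2c),(nat_lit 0xa38007422d),(nat_lit 0xa300076a2f),(nat_lit 0x738006c230),(nat_lit 0xb38005a231),(nat_lit 0xa38004ca32),(nat_lit 0xb400033a33),(nat_lit 0xb40001fa34),(nat_lit 0x21870011ee35),(nat_lit 0x21870012fe36),(nat_lit 0x218700145e37),(nat_lit 0x218700153e38),(nat_lit 0x218b0015be3a),(nat_lit 0xa180022a47),(nat_lit 0xa200036a48),(nat_lit 0xb28004da49),(nat_lit 0xa30006324a),(nat_lit 0xa38006924b),(nat_lit 0xa38007324c),(nat_lit 0x930007924d),(nat_lit 0x938007724e),(nat_lit 0x930007224f),(nat_lit 0x9380068250),(nat_lit 0x938005c251),(nat_lit 0xb40004aa52),(nat_lit 0xa400039a53),(nat_lit 0xb180020a67),(nat_lit 0xb20003aa68),(nat_lit 0xb280057269),(nat_lit 0xa30005d26a),(nat_lit 0xa38006f26b),(nat_lit 0x938006aa6c),(nat_lit 0x938006ea6d),(nat_lit 0xa20006ca6e),(nat_lit 0xa300068a6f),(nat_lit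 0xa300066270),(nat_lit 0xa380054271),(nat_lit 0xa380046a72),(nat_lit 0x938002fa73),(nat_lit 0xb40001ca74),(nat_lit 0xa180024a87),(nat_lit 0x920003ca88),(nat_lit 0xa28004fa89),(nat_lit 0xa30005f28a),(nat_lit 0xa38005ea8b),(nat_lit 0xa380064a8c),(nat_lit 0x9400062a8d),(nat_lit 0xa40005aa8e),(nat_lit 0xa30005ca8f),(nat_lit 0xa380054a90),(nat_lit 0xa380056291),(nat_lit 0xb400044a92),(nat_lit 0xa400031a93),(nat_lit 0xa180026aa7),(nat_lit 0xb20003eaa8),(nat_lit 0xa280051aa9),(nat_lit 0xa3000512aa),(nat_lit 0xa380058aab),(nat_lit 0xb30004f2ac),(nat_lit 0xb3800492ad),(nat_lit 0xa38004d2ae),(nat_lit 0xb40004b2af),(nat_lit 0xa3800472b0),(nat_lit 0xb4000452b1),(nat_lit 0xb400042ab2),(nat_lit 0xb40002dab3),(nat_lit 0xa1800282c7),(nat_lit 0xa200040ac8),(nat_lit 0xa2800402c9),(nat_lit 0xa30003e2ca),(nat_lit 0xa38003c2cb),(nat_lit 0xa3000382cc),(nat_lit 0xa4000362cd),(nat_lit 0xb4000342ce),(nat_lit 0xb38003a2cf),(nat_lit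 0xa3000302d0),(nat_lit 0xb3800322d1),(nat_lit 0xb40002e2d2),(nat_lit 0xb40002bad3),(nat_lit 0xb200029ae8),(nat_lit 0xa3800242ec),(nat_lit 0xb4000202ee),(nat_lit 0xb40001d2f0),(nat_lit 0xb3800142f4)]) (by decide +kernel)
theorem root_12_1 : ∃ n, Win n {(0, 0)} {(12, 1)} := near_of_root rt6 false false false false (by decide +kernel)
theorem root_11_0 : ∃ n, Win n {(0, 0)} {(11, 0)} := near_of_root rt6 true false false false (by decide +kernel)
theorem rt7 : ∀ off, ∃ n, AndWin n (dec off (Nat.lor (bit1 525) (bit1 558))) (dec off (bit1 537)) := rootChk_sound tC_good tP_good (gd := gS0_3) gS0_3_good (wd := (nat_lit 3)) (nl := [(nat_lit 7),(nat_lit 1),(nat_lit 5),(nat_lit 9),(nat_lit 11),(nat_lit 13),(nat_lit 15)]) (l := [(nat_lit 0x5100007926),(nat_lit 0x530000c12a),(nat_lit 0x538000f12e),(nat_lit 0x6180013947),(nat_lit 0x6200015148),(nat_lit 0x6280016149),(nat_lit 0x630001814a),(nat_lit 0x638001c14b),(nat_lit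 0x640001a14c),(nat_lit 0x638001f14d),(nat_lit 0x638002314f),(nat_lit 0x6400021150),(nat_lit 0x6380025151),(nat_lit 0x6380028953),(nat_lit 0x7180014967),(nat_lit 0x720002a968),(nat_lit 0x728002d169),(nat_lit 0x730003116a),(nat_lit 0x738002f16b),(nat_lit 0x738003916c),(nat_lit 0x738003316d),(nat_lit 0x730003516e),(nat_lit 0x738003716f),(nat_lit 0x740003b170),(nat_lit 0x730003d171),(nat_lit 0x740003f172),(nat_lit 0x7380041173),(nat_lit 0x8180015987),(nat_lit 0x820002c988),(nat_lit 0x8280041989),(nat_lit 0x830004418a),(nat_lit 0x838004618b),(nat_lit 0x838004a18c),(nat_lit 0x838004c18d),(nat_lit 0x838004818e),(nat_lit 0x840004e18f),(nat_lit 0x8400057990),(nat_lit 0x8380050191),(nat_lit 0x8380052192),(nat_lit 0x838003f993),(nat_lit 0x218300111d95),(nat_lit 0x910000b9a6),(nat_lit 0x91800179a7),(nat_lit 0x92000309a8),(nat_lit 0x92800439a9),(nat_lit 0x93000551aa),(nat_lit 0x93800539ab),(nat_lit 0x938005b9ac),(nat_lit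 0x93000599ad),(nat_lit 0x93800619ae),(nat_lit 0x93800639af),(nat_lit 0x938005d9b0),(nat_lit 0x938005f9b1),(nat_lit 0x93800509b2),(nat_lit 0x938003d9b3),(nat_lit 0x2187001325b6),(nat_lit 0xa18001b9c7),(nat_lit 0xa20002e9c8),(nat_lit 0xa2800459c9),(nat_lit 0xa3000531ca),(nat_lit 0x93800651cb),(nat_lit 0x93800679cc),(nat_lit 0x938006b9cd),(nat_lit 0xa38006d9ce),(nat_lit 0xa3800699cf),(nat_lit 0xa38006f9d0),(nat_lit 0xa38005e1d1),(nat_lit 0xa3800581d2),(nat_lit 0xa38003b9d3),(nat_lit 0xa3800219d4),(nat_lit 0x218700147dd7),(nat_lit 0xb1800199e7),(nat_lit 0xa2000389e8),(nat_lit 0xa2800499e9),(nat_lit 0xa30005b1ea),(nat_lit 0xa3000671eb),(nat_lit 0x93800711ec),(nat_lit 0x92800761ed),(nat_lit 0xa3800781ee),(nat_lit 0xa3800739ef),(nat_lit 0xa30006a1f0),(nat_lit 0xa3800641f1),(nat_lit 0x940004e9f2),(nat_lit 0x93800379f3),(nat_lit 0xa3800239f4),(nat_lit 0x218700155df8),(nat_lit 0x218b0015c5fa),(nat_lit 0xa18001ea07),(nat_lit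 0xa200032a08),(nat_lit 0xa28004ba09),(nat_lit 0x930005920a),(nat_lit 0xa30006b20b),(nat_lit 0x8300075a0c),(nat_lit 0xa380074a0e),(nat_lit 0x9300078a0f),(nat_lit 0xa30006e210),(nat_lit 0xb300062211),(nat_lit 0xa400048a12),(nat_lit 0xb380035a13),(nat_lit 0x218300112615),(nat_lit 0x218700131e16),(nat_lit 0x218700147617),(nat_lit 0x218700155618),(nat_lit 0xa10000ea26),(nat_lit 0xb18001da27),(nat_lit 0x9200034a28),(nat_lit 0xa280047a29),(nat_lit 0xa30006122a),(nat_lit 0xa38006d22b),(nat_lit 0xa380077a2c),(nat_lit 0xa38007422d),(nat_lit 0xa300076a2f),(nat_lit 0x738006c230),(nat_lit 0xb38005a231),(nat_lit 0xa38004ca32),(nat_lit 0xb400033a33),(nat_lit 0xb40001fa34),(nat_lit 0x218700154e38),(nat_lit 0xa180022a47),(nat_lit 0xa200036a48),(nat_lit 0xb28004da49),(nat_lit 0xa30006324a),(nat_lit 0xa38006924b),(nat_lit 0xa38007324c),(nat_lit 0x930007924d),(nat_lit 0x938007724e),(nat_lit 0x930007224f),(nat_lit 0x9380068250),(nat_lit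 0x938005c251),(nat_lit 0xb40004aa52),(nat_lit 0xa400039a53),(nat_lit 0x218700146e57),(nat_lit 0xb180020a67),(nat_lit 0xb20003aa68),(nat_lit 0xb280057269),(nat_lit 0xa30005d26a),(nat_lit 0xa38006f26b),(nat_lit 0x938006aa6c),(nat_lit 0x938006ea6d),(nat_lit 0xa20006ca6e),(nat_lit 0xa300068a6f),(nat_lit 0xa300066270),(nat_lit 0xa380054271),(nat_lit 0xa380046a72),(nat_lit 0x938002fa73),(nat_lit 0xb40001ca74),(nat_lit 0x218700130e76),(nat_lit 0xa180024a87),(nat_lit 0x920003ca88),(nat_lit 0xa28004fa89),(nat_lit 0xa30005f28a),(nat_lit 0xa38005ea8b),(nat_lit 0xa380064a8c),(nat_lit 0x9400062a8d),(nat_lit 0xa40005aa8e),(nat_lit 0xa30005ca8f),(nat_lit 0xa380054a90),(nat_lit 0xa380056291),(nat_lit 0xb400044a92),(nat_lit 0xa400031a93),(nat_lit 0x218300111e95),(nat_lit 0xa180026aa7),(nat_lit 0xb20003eaa8),(nat_lit 0xa280051aa9),(nat_lit 0xa3000512aa),(nat_lit 0xa380058aab),(nat_lit 0xb30004f2ac),(nat_lit 0xb3800492ad),(nat_lit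 0xa38004d2ae),(nat_lit 0xb40004b2af),(nat_lit 0xa3800472b0),(nat_lit 0xb4000452b1),(nat_lit 0xb400042ab2),(nat_lit 0xb40002dab3),(nat_lit 0xa1800282c7),(nat_lit 0xa200040ac8),(nat_lit 0xa2800402c9),(nat_lit 0xa30003e2ca),(nat_lit 0xa38003c2cb),(nat_lit 0xa3000382cc),(nat_lit 0xa4000362cd),(nat_lit 0xb4000342ce),(nat_lit 0xb38003a2cf),(nat_lit 0xa3000302d0),(nat_lit 0xb3800322d1),(nat_lit 0xb40002e2d2),(nat_lit 0xb40002bad3),(nat_lit 0xb200029ae8),(nat_lit 0xa3800242ec),(nat_lit 0xb4000202ee),(nat_lit 0xb40001d2f0),(nat_lit 0xb3800142f4)]) (by decide +kernel)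
theorem root_12_0 : ∃ n, Win n {(0, 0)} {(12, 0)} := near_of_root rt7 false false false false (by decide +kernel)
theorem root_11_1 : ∃ n, Win n {(0, 0)} {(11, 1)} := near_of_root rt7 true false false true (by decide +kernel)
theorem rt8 : ∀ off, ∃ n, AndWin n (dec off (Nat.lor (bit1 525) (bit1 558))) (dec off (bit1 377)) := rootChk_sound tC_good tP_good (gd := gS0_3) gS0_3_good (wd := (nat_lit 21)) (nl := [(nat_lit 3),(nat_lit 1),(nat_lit 5),(nat_lit 11),(nat_lit 9),(nat_lit 7),(nat_lit 13),(nat_lit 15)]) (l := [(nat_lit 0x5100007926),(nat_lit 0x530000c12a),(nat_lit 0x538000f12e),(nat_lit 0x6180013947),(nat_lit 0x6200015148),(nat_lit 0x6280016149),(nat_lit 0x630001814a),(nat_lit 0x638001c14b),(nat_lit 0x640001a14c),(nat_lit 0x638001f14d),(nat_lit 0x638002314f),(nat_lit 0x6400021150),(nat_lit 0x6380025151),(nat_lit 0x6380028953),(nat_lit 0x7180014967),(nat_lit 0x720002a968),(nat_lit 0x728002d169),(nat_lit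 0x730003116a),(nat_lit 0x738002f16b),(nat_lit 0x738003916c),(nat_lit 0x738003316d),(nat_lit 0x730003516e),(nat_lit 0x738003716f),(nat_lit 0x740003b170),(nat_lit 0x730003d171),(nat_lit 0x740003f172),(nat_lit 0x7380041173),(nat_lit 0x21830010fd75),(nat_lit 0x218700134d76),(nat_lit 0x21870014ad77),(nat_lit 0x218700156d78),(nat_lit 0x8180015987),(nat_lit 0x820002c988),(nat_lit 0x8280041989),(nat_lit 0x830004418a),(nat_lit 0x838004618b),(nat_lit 0x838004a18c),(nat_lit 0x838004c18d),(nat_lit 0x838004818e),(nat_lit 0x840004e18f),(nat_lit 0x8400057990),(nat_lit 0x8380050191),(nat_lit 0x8380052192),(nat_lit 0x838003f993),(nat_lit 0x218700156598),(nat_lit 0x910000b9a6),(nat_lit 0x91800179a7),(nat_lit 0x92000309a8),(nat_lit 0x92800439a9),(nat_lit 0x93000551aa),(nat_lit 0x93800539ab),(nat_lit 0x938005b9ac),(nat_lit 0x93000599ad),(nat_lit 0x93800619ae),(nat_lit 0x93800639af),(nat_lit 0x938005d9b0),(nat_lit 0x938005f9b1),(nat_lit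 0x93800509b2),(nat_lit 0x938003d9b3),(nat_lit 0x21870014a5b7),(nat_lit 0xa18001b9c7),(nat_lit 0xa20002e9c8),(nat_lit 0xa2800459c9),(nat_lit 0xa3000531ca),(nat_lit 0x93800651cb),(nat_lit 0x93800679cc),(nat_lit 0x938006b9cd),(nat_lit 0xa38006d9ce),(nat_lit 0xa3800699cf),(nat_lit 0xa38006f9d0),(nat_lit 0xa38005e1d1),(nat_lit 0xa3800581d2),(nat_lit 0xa38003b9d3),(nat_lit 0xa3800219d4),(nat_lit 0x2187001345d6),(nat_lit 0xb1800199e7),(nat_lit 0xa2000389e8),(nat_lit 0xa2800499e9),(nat_lit 0xa30005b1ea),(nat_lit 0xa3000671eb),(nat_lit 0x93800711ec),(nat_lit 0x92800761ed),(nat_lit 0xa3800781ee),(nat_lit 0xa3800739ef),(nat_lit 0xa30006a1f0),(nat_lit 0xa3800641f1),(nat_lit 0x940004e9f2),(nat_lit 0x93800379f3),(nat_lit 0xa3800239f4),(nat_lit 0x21830010fdf5),(nat_lit 0xa18001ea07),(nat_lit 0xa200032a08),(nat_lit 0xa28004ba09),(nat_lit 0x930005920a),(nat_lit 0xa30006b20b),(nat_lit 0x8300075a0c),(nat_lit 0xa380074a0e),(nat_lit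 0x9300078a0f),(nat_lit 0xa30006e210),(nat_lit 0xb300062211),(nat_lit 0xa400048a12),(nat_lit 0xb380035a13),(nat_lit 0xa10000ea26),(nat_lit 0xb18001da27),(nat_lit 0x9200034a28),(nat_lit 0xa280047a29),(nat_lit 0xa30006122a),(nat_lit 0xa38006d22b),(nat_lit 0xa380077a2c),(nat_lit 0xa38007422d),(nat_lit 0xa300076a2f),(nat_lit 0x738006c230),(nat_lit 0xb38005a231),(nat_lit 0xa38004ca32),(nat_lit 0xb400033a33),(nat_lit 0xb40001fa34),(nat_lit 0xa180022a47),(nat_lit 0xa200036a48),(nat_lit 0xb28004da49),(nat_lit 0xa30006324a),(nat_lit 0xa38006924b),(nat_lit 0xa38007324c),(nat_lit 0x930007924d),(nat_lit 0x938007724e),(nat_lit 0x930007224f),(nat_lit 0x9380068250),(nat_lit 0x938005c251),(nat_lit 0xb40004aa52),(nat_lit 0xa400039a53),(nat_lit 0xb180020a67),(nat_lit 0xb20003aa68),(nat_lit 0xb280057269),(nat_lit 0xa30005d26a),(nat_lit 0xa38006f26b),(nat_lit 0x938006aa6c),(nat_lit 0x938006ea6d),(nat_lit 0xa20006ca6e),(nat_lit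 0xa300068a6f),(nat_lit 0xa300066270),(nat_lit 0xa380054271),(nat_lit 0xa380046a72),(nat_lit 0x938002fa73),(nat_lit 0xb40001ca74),(nat_lit 0xa180024a87),(nat_lit 0x920003ca88),(nat_lit 0xa28004fa89),(nat_lit 0xa30005f28a),(nat_lit 0xa38005ea8b),(nat_lit 0xa380064a8c),(nat_lit 0x9400062a8d),(nat_lit 0xa40005aa8e),(nat_lit 0xa30005ca8f),(nat_lit 0xa380054a90),(nat_lit 0xa380056291),(nat_lit 0xb400044a92),(nat_lit 0xa400031a93),(nat_lit 0xa180026aa7),(nat_lit 0xb20003eaa8),(nat_lit 0xa280051aa9),(nat_lit 0xa3000512aa),(nat_lit 0xa380058aab),(nat_lit 0xb30004f2ac),(nat_lit 0xb3800492ad),(nat_lit 0xa38004d2ae),(nat_lit 0xb40004b2af),(nat_lit 0xa3800472b0),(nat_lit 0xb4000452b1),(nat_lit 0xb400042ab2),(nat_lit 0xb40002dab3),(nat_lit 0xa1800282c7),(nat_lit 0xa200040ac8),(nat_lit 0xa2800402c9),(nat_lit 0xa30003e2ca),(nat_lit 0xa38003c2cb),(nat_lit 0xa3000382cc),(nat_lit 0xa4000362cd),(nat_lit 0xb4000342ce),(nat_lit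 0xb38003a2cf),(nat_lit 0xa3000302d0),(nat_lit 0xb3800322d1),(nat_lit 0xb40002e2d2),(nat_lit 0xb40002bad3),(nat_lit 0xb200029ae8),(nat_lit 0xa3800242ec),(nat_lit 0xb4000202ee),(nat_lit 0xb40001d2f0),(nat_lit 0xb3800142f4)]) (by decide +kernel)
theorem root_11_6 : ∃ n, Win n {(0, 0)} {(11, 6)} := near_of_root rt8 true false false true (by decide +kernel)
theorem rt9 : ∀ off, ∃ n, AndWin n (dec off (Nat.lor (bit1 528) (bit1 561))) (dec off (bit1 230)) := rootChk_sound tC_good tP_good (gd := gS3_3) gS3_3_good (wd := (nat_lit 17)) (nl := [(nat_lit 7),(nat_lit 5),(nat_lit 9),(nat_lit 11),(nat_lit 13),(nat_lit 15),(nat_lit 3)]) (l := [(nat_lit 0x228c0014e4c5),(nat_lit 0x218800135d07),(nat_lit 0x218800120528),(nat_lit 0x5280007929),(nat_lit 0x548000c12d),(nat_lit 0x550000f131),(nat_lit 0x21880010b549),(nat_lit 0x630001394a),(nat_lit 0x638001514b),(nat_lit 0x640001614c),(nat_lit 0x648001814d),(nat_lit 0x650001c14e),(nat_lit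 0x658001a14f),(nat_lit 0x650001f150),(nat_lit 0x6500023152),(nat_lit 0x6580021153),(nat_lit 0x6500025154),(nat_lit 0x6500028956),(nat_lit 0x208000016d6a),(nat_lit 0x738002a96b),(nat_lit 0x740002d16c),(nat_lit 0x748003116d),(nat_lit 0x750002f16e),(nat_lit 0x750003916f),(nat_lit 0x7500033170),(nat_lit 0x7480035171),(nat_lit 0x7500037172),(nat_lit 0x758003b173),(nat_lit 0x748003d174),(nat_lit 0x758003f175),(nat_lit 0x7500041176),(nat_lit 0x7580029177),(nat_lit 0x830001598a),(nat_lit 0x838002c98b),(nat_lit 0x840004198c),(nat_lit 0x848004418d),(nat_lit 0x850004618e),(nat_lit 0x850004a18f),(nat_lit 0x850004c190),(nat_lit 0x8500048191),(nat_lit 0x858004e192),(nat_lit 0x8580057993),(nat_lit 0x8500050194),(nat_lit 0x8500052195),(nat_lit 0x850003f996),(nat_lit 0x928000b9a9),(nat_lit 0x93000179aa),(nat_lit 0x93800309ab),(nat_lit 0x94000439ac),(nat_lit 0x94800551ad),(nat_lit 0x95000539ae),(nat_lit 0x950005b9af),(nat_lit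 0x94800599b0),(nat_lit 0x95000619b1),(nat_lit 0x95000639b2),(nat_lit 0x950005d9b3),(nat_lit 0x950005f9b4),(nat_lit 0x95000509b5),(nat_lit 0x950003d9b6),(nat_lit 0xa30001b9ca),(nat_lit 0xa38002e9cb),(nat_lit 0xa4000459cc),(nat_lit 0xa4800531cd),(nat_lit 0x95000651ce),(nat_lit 0x95000679cf),(nat_lit 0x950006b9d0),(nat_lit 0xa50006d9d1),(nat_lit 0xa5000699d2),(nat_lit 0xa50006f9d3),(nat_lit 0xa50005e1d4),(nat_lit 0xa5000581d5),(nat_lit 0xa50003b9d6),(nat_lit 0xa5000219d7),(nat_lit 0xb3000199ea),(nat_lit 0xa3800389eb),(nat_lit 0xa4000499ec),(nat_lit 0xa48005b1ed),(nat_lit 0xa4800671ee),(nat_lit 0x95000711ef),(nat_lit 0x94000761f0),(nat_lit 0xa5000781f1),(nat_lit 0xa5000739f2),(nat_lit 0xa48006a1f3),(nat_lit 0xa5000641f4),(nat_lit 0x958004e9f5),(nat_lit 0x95000379f6),(nat_lit 0xa5000239f7),(nat_lit 0xa30001ea0a),(nat_lit 0xa380032a0b),(nat_lit 0xa40004ba0c),(nat_lit 0x948005920d),(nat_lit 0xa48006b20e),(nat_lit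 0x8480075a0f),(nat_lit 0xa500074a11),(nat_lit 0x9480078a12),(nat_lit 0xa48006e213),(nat_lit 0xb480062214),(nat_lit 0xa580048a15),(nat_lit 0xb500035a16),(nat_lit 0xa28000ea29),(nat_lit 0xb30001da2a),(nat_lit 0x9380034a2b),(nat_lit 0xa400047a2c),(nat_lit 0xa48006122d),(nat_lit 0xa50006d22e),(nat_lit 0xa500077a2f),(nat_lit 0xa500074230),(nat_lit 0xa480076a32),(nat_lit 0x750006c233),(nat_lit 0xb50005a234),(nat_lit 0xa50004ca35),(nat_lit 0xb580033a36),(nat_lit 0xb58001fa37),(nat_lit 0xa300022a4a),(nat_lit 0xa380036a4b),(nat_lit 0xb40004da4c),(nat_lit 0xa48006324d),(nat_lit 0xa50006924e),(nat_lit 0xa50007324f),(nat_lit 0x9480079250),(nat_lit 0x9500077251),(nat_lit 0x9480072252),(nat_lit 0x9500068253),(nat_lit 0x950005c254),(nat_lit 0xb58004aa55),(nat_lit 0xa580039a56),(nat_lit 0xb300020a6a),(nat_lit 0xb38003aa6b),(nat_lit 0xb40005726c),(nat_lit 0xa48005d26d),(nat_lit 0xa50006f26e),(nat_lit 0x950006aa6f),(nat_lit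 0x950006ea70),(nat_lit 0xa38006ca71),(nat_lit 0xa480068a72),(nat_lit 0xa480066273),(nat_lit 0xa500054274),(nat_lit 0xa500046a75),(nat_lit 0x950002fa76),(nat_lit 0xb58001ca77),(nat_lit 0xa300024a8a),(nat_lit 0x938003ca8b),(nat_lit 0xa40004fa8c),(nat_lit 0xa48005f28d),(nat_lit 0xa50005ea8e),(nat_lit 0xa500064a8f),(nat_lit 0x9580062a90),(nat_lit 0xa58005aa91),(nat_lit 0xa48005ca92),(nat_lit 0xa500054a93),(nat_lit 0xa500056294),(nat_lit 0xb580044a95),(nat_lit 0xa580031a96),(nat_lit 0xa300026aaa),(nat_lit 0xb38003eaab),(nat_lit 0xa400051aac),(nat_lit 0xa4800512ad),(nat_lit 0xa500058aae),(nat_lit 0xb48004f2af),(nat_lit 0xb5000492b0),(nat_lit 0xa50004d2b1),(nat_lit 0xb58004b2b2),(nat_lit 0xa5000472b3),(nat_lit 0xb5800452b4),(nat_lit 0xb580042ab5),(nat_lit 0xb58002dab6),(nat_lit 0xa3000282ca),(nat_lit 0xa380040acb),(nat_lit 0xa4000402cc),(nat_lit 0xa48003e2cd),(nat_lit 0xa50003c2ce),(nat_lit 0xa4800382cf),(nat_lit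 0xa5800362d0),(nat_lit 0xb5800342d1),(nat_lit 0xb50003a2d2),(nat_lit 0xa4800302d3),(nat_lit 0xb5000322d4),(nat_lit 0xb58002e2d5),(nat_lit 0xb58002bad6),(nat_lit 0xb380029aeb),(nat_lit 0xa5000242ef),(nat_lit 0xb5800202f1),(nat_lit 0xb58001d2f3),(nat_lit 0xb5000142f7)]) (by decide +kernel)
theorem root_10_9 : ∃ n, Win n {(0, 0)} {(10, 9)} := near_of_root rt9 false false true true (by decide +kernel)
theorem root_11_10 : ∃ n, Win n {(0, 0)} {(11, 10)} := near_of_root rt9 true false true true (by decide +kernel)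
theorem rt10 : ∀ off, ∃ n, AndWin n (dec off (Nat.lor (bit1 528) (bit1 561))) (dec off (bit1 827)) := rootChk_sound tC_good tP_good (gd := gS3_3) gS3_3_good (wd := (nat_lit 5)) (nl := [(nat_lit 13),(nat_lit 7),(nat_lit 9),(nat_lit 11),(nat_lit 3),(nat_lit 15)]) (l := [(nat_lit 0x5280007929),(nat_lit 0x548000c12d),(nat_lit 0x550000f131),(nat_lit 0x630001394a),(nat_lit 0x638001514b),(nat_lit 0x640001614c),(nat_lit 0x648001814d),(nat_lit 0x650001c14e),(nat_lit 0x658001a14f),(nat_lit 0x650001f150),(nat_lit 0x6500023152),(nat_lit 0x6580021153),(nat_lit 0x6500025154),(nat_lit 0x6500028956),(nat_lit 0x730001496a),(nat_lit 0x738002a96b),(nat_lit 0x740002d16c),(nat_lit 0x748003116d),(nat_lit 0x750002f16e),(nat_lit 0x750003916f),(nat_lit 0x7500033170),(nat_lit 0x7480035171),(nat_lit 0x7500037172),(nat_lit 0x758003b173),(nat_lit 0x748003d174),(nat_lit 0x758003f175),(nat_lit 0x7500041176),(nat_lit 0x7580029177),(nat_lit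 0x830001598a),(nat_lit 0x838002c98b),(nat_lit 0x840004198c),(nat_lit 0x848004418d),(nat_lit 0x850004618e),(nat_lit 0x850004a18f),(nat_lit 0x850004c190),(nat_lit 0x8500048191),(nat_lit 0x858004e192),(nat_lit 0x8580057993),(nat_lit 0x8500050194),(nat_lit 0x8500052195),(nat_lit 0x850003f996),(nat_lit 0x928000b9a9),(nat_lit 0x93000179aa),(nat_lit 0x93800309ab),(nat_lit 0x94000439ac),(nat_lit 0x94800551ad),(nat_lit 0x95000539ae),(nat_lit 0x950005b9af),(nat_lit 0x94800599b0),(nat_lit 0x95000619b1),(nat_lit 0x95000639b2),(nat_lit 0x950005d9b3),(nat_lit 0x950005f9b4),(nat_lit 0x95000509b5),(nat_lit 0x950003d9b6),(nat_lit 0xa30001b9ca),(nat_lit 0xa38002e9cb),(nat_lit 0xa4000459cc),(nat_lit 0xa4800531cd),(nat_lit 0x95000651ce),(nat_lit 0x95000679cf),(nat_lit 0x950006b9d0),(nat_lit 0xa50006d9d1),(nat_lit 0xa5000699d2),(nat_lit 0xa50006f9d3),(nat_lit 0xa50005e1d4),(nat_lit 0xa5000581d5),(nat_lit 0xa50003b9d6),(nat_lit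 0xa5000219d7),(nat_lit 0xb3000199ea),(nat_lit 0xa3800389eb),(nat_lit 0xa4000499ec),(nat_lit 0xa48005b1ed),(nat_lit 0xa4800671ee),(nat_lit 0x95000711ef),(nat_lit 0x94000761f0),(nat_lit 0xa5000781f1),(nat_lit 0xa5000739f2),(nat_lit 0xa48006a1f3),(nat_lit 0xa5000641f4),(nat_lit 0x958004e9f5),(nat_lit 0x95000379f6),(nat_lit 0xa5000239f7),(nat_lit 0xa30001ea0a),(nat_lit 0xa380032a0b),(nat_lit 0xa40004ba0c),(nat_lit 0x948005920d),(nat_lit 0xa48006b20e),(nat_lit 0x8480075a0f),(nat_lit 0xa500074a11),(nat_lit 0x9480078a12),(nat_lit 0xa48006e213),(nat_lit 0xb480062214),(nat_lit 0xa580048a15),(nat_lit 0xb500035a16),(nat_lit 0xa28000ea29),(nat_lit 0xb30001da2a),(nat_lit 0x9380034a2b),(nat_lit 0xa400047a2c),(nat_lit 0xa48006122d),(nat_lit 0xa50006d22e),(nat_lit 0xa500077a2f),(nat_lit 0xa500074230),(nat_lit 0xa480076a32),(nat_lit 0x750006c233),(nat_lit 0xb50005a234),(nat_lit 0xa50004ca35),(nat_lit 0xb580033a36),(nat_lit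 0xb58001fa37),(nat_lit 0xa300022a4a),(nat_lit 0xa380036a4b),(nat_lit 0xb40004da4c),(nat_lit 0xa48006324d),(nat_lit 0xa50006924e),(nat_lit 0xa50007324f),(nat_lit 0x9480079250),(nat_lit 0x9500077251),(nat_lit 0x9480072252),(nat_lit 0x9500068253),(nat_lit 0x950005c254),(nat_lit 0xb58004aa55),(nat_lit 0xa580039a56),(nat_lit 0xb300020a6a),(nat_lit 0xb38003aa6b),(nat_lit 0xb40005726c),(nat_lit 0xa48005d26d),(nat_lit 0xa50006f26e),(nat_lit 0x950006aa6f),(nat_lit 0x950006ea70),(nat_lit 0xa38006ca71),(nat_lit 0xa480068a72),(nat_lit 0xa480066273),(nat_lit 0xa500054274),(nat_lit 0xa500046a75),(nat_lit 0x950002fa76),(nat_lit 0xb58001ca77),(nat_lit 0xa300024a8a),(nat_lit 0x938003ca8b),(nat_lit 0xa40004fa8c),(nat_lit 0xa48005f28d),(nat_lit 0xa50005ea8e),(nat_lit 0xa500064a8f),(nat_lit 0x9580062a90),(nat_lit 0xa58005aa91),(nat_lit 0xa48005ca92),(nat_lit 0xa500054a93),(nat_lit 0xa500056294),(nat_lit 0xb580044a95),(nat_lit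 0xa580031a96),(nat_lit 0xa300026aaa),(nat_lit 0xb38003eaab),(nat_lit 0xa400051aac),(nat_lit 0xa4800512ad),(nat_lit 0xa500058aae),(nat_lit 0xb48004f2af),(nat_lit 0xb5000492b0),(nat_lit 0xa50004d2b1),(nat_lit 0xb58004b2b2),(nat_lit 0xa5000472b3),(nat_lit 0xb5800452b4),(nat_lit 0xb580042ab5),(nat_lit 0xb58002dab6),(nat_lit 0x218b000eceb7),(nat_lit 0xa3000282ca),(nat_lit 0xa380040acb),(nat_lit 0xa4000402cc),(nat_lit 0xa48003e2cd),(nat_lit 0xa50003c2ce),(nat_lit 0xa4800382cf),(nat_lit 0xa5800362d0),(nat_lit 0xb5800342d1),(nat_lit 0xb50003a2d2),(nat_lit 0xa4800302d3),(nat_lit 0xb5000322d4),(nat_lit 0xb58002e2d5),(nat_lit 0xb58002bad6),(nat_lit 0x218f0010aed8),(nat_lit 0xb380029aeb),(nat_lit 0xa5000242ef),(nat_lit 0xb5800202f1),(nat_lit 0xb58001d2f3),(nat_lit 0xb5000142f7),(nat_lit 0x218f001216f9),(nat_lit 0x218f00136f1a),(nat_lit 0x22930014ef5c)]) (by decide +kernel)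
theorem root_11_9 : ∃ n, Win n {(0, 0)} {(11, 9)} := near_of_root rt10 false false false false (by decide +kernel)
theorem root_10_8 : ∃ n, Win n {(0, 0)} {(10, 8)} := near_of_root rt10 true false false false (by decide +kernel)
theorem rt11 : ∀ off, ∃ n, AndWin n (dec off (Nat.lor (bit1 528) (bit1 561))) (dec off (bit1 795)) := rootChk_sound tC_good tP_good (gd := gS3_3) gS3_3_good (wd := (nat_lit 17)) (nl := [(nat_lit 9),(nat_lit 7),(nat_lit 5),(nat_lit 11),(nat_lit 13),(nat_lit 15),(nat_lit 3)]) (l := [(nat_lit 0x5280007929),(nat_lit 0x548000c12d),(nat_lit 0x550000f131),(nat_lit 0x630001394a),(nat_lit 0x638001514b),(nat_lit 0x640001614c),(nat_lit 0x648001814d),(nat_lit 0x650001c14e),(nat_lit 0x658001a14f),(nat_lit 0x650001f150),(nat_lit 0x6500023152),(nat_lit 0x6580021153),(nat_lit 0x6500025154),(nat_lit 0x6500028956),(nat_lit 0x738002a96b),(nat_lit 0x740002d16c),(nat_lit 0x748003116d),(nat_lit 0x750002f16e),(nat_lit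 0x750003916f),(nat_lit 0x7500033170),(nat_lit 0x7480035171),(nat_lit 0x7500037172),(nat_lit 0x758003b173),(nat_lit 0x748003d174),(nat_lit 0x758003f175),(nat_lit 0x7500041176),(nat_lit 0x7580029177),(nat_lit 0x830001598a),(nat_lit 0x838002c98b),(nat_lit 0x840004198c),(nat_lit 0x848004418d),(nat_lit 0x850004618e),(nat_lit 0x850004a18f),(nat_lit 0x850004c190),(nat_lit 0x8500048191),(nat_lit 0x858004e192),(nat_lit 0x8580057993),(nat_lit 0x8500050194),(nat_lit 0x8500052195),(nat_lit 0x850003f996),(nat_lit 0x928000b9a9),(nat_lit 0x93000179aa),(nat_lit 0x93800309ab),(nat_lit 0x94000439ac),(nat_lit 0x94800551ad),(nat_lit 0x95000539ae),(nat_lit 0x950005b9af),(nat_lit 0x94800599b0),(nat_lit 0x95000619b1),(nat_lit 0x95000639b2),(nat_lit 0x950005d9b3),(nat_lit 0x950005f9b4),(nat_lit 0x95000509b5),(nat_lit 0x950003d9b6),(nat_lit 0xa30001b9ca),(nat_lit 0xa38002e9cb),(nat_lit 0xa4000459cc),(nat_lit 0xa4800531cd),(nat_lit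 0x95000651ce),(nat_lit 0x95000679cf),(nat_lit 0x950006b9d0),(nat_lit 0xa50006d9d1),(nat_lit 0xa5000699d2),(nat_lit 0xa50006f9d3),(nat_lit 0xa50005e1d4),(nat_lit 0xa5000581d5),(nat_lit 0xa50003b9d6),(nat_lit 0xa5000219d7),(nat_lit 0xb3000199ea),(nat_lit 0xa3800389eb),(nat_lit 0xa4000499ec),(nat_lit 0xa48005b1ed),(nat_lit 0xa4800671ee),(nat_lit 0x95000711ef),(nat_lit 0x94000761f0),(nat_lit 0xa5000781f1),(nat_lit 0xa5000739f2),(nat_lit 0xa48006a1f3),(nat_lit 0xa5000641f4),(nat_lit 0x958004e9f5),(nat_lit 0x95000379f6),(nat_lit 0xa5000239f7),(nat_lit 0xa30001ea0a),(nat_lit 0xa380032a0b),(nat_lit 0xa40004ba0c),(nat_lit 0x948005920d),(nat_lit 0xa48006b20e),(nat_lit 0x8480075a0f),(nat_lit 0xa500074a11),(nat_lit 0x9480078a12),(nat_lit 0xa48006e213),(nat_lit 0xb480062214),(nat_lit 0xa580048a15),(nat_lit 0xb500035a16),(nat_lit 0xa28000ea29),(nat_lit 0xb30001da2a),(nat_lit 0x9380034a2b),(nat_lit 0xa400047a2c),(nat_lit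 0xa48006122d),(nat_lit 0xa50006d22e),(nat_lit 0xa500077a2f),(nat_lit 0xa500074230),(nat_lit 0xa480076a32),(nat_lit 0x750006c233),(nat_lit 0xb50005a234),(nat_lit 0xa50004ca35),(nat_lit 0xb580033a36),(nat_lit 0xb58001fa37),(nat_lit 0xa300022a4a),(nat_lit 0xa380036a4b),(nat_lit 0xb40004da4c),(nat_lit 0xa48006324d),(nat_lit 0xa50006924e),(nat_lit 0xa50007324f),(nat_lit 0x9480079250),(nat_lit 0x9500077251),(nat_lit 0x9480072252),(nat_lit 0x9500068253),(nat_lit 0x950005c254),(nat_lit 0xb58004aa55),(nat_lit 0xa580039a56),(nat_lit 0xb300020a6a),(nat_lit 0xb38003aa6b),(nat_lit 0xb40005726c),(nat_lit 0xa48005d26d),(nat_lit 0xa50006f26e),(nat_lit 0x950006aa6f),(nat_lit 0x950006ea70),(nat_lit 0xa38006ca71),(nat_lit 0xa480068a72),(nat_lit 0xa480066273),(nat_lit 0xa500054274),(nat_lit 0xa500046a75),(nat_lit 0x950002fa76),(nat_lit 0xb58001ca77),(nat_lit 0xa300024a8a),(nat_lit 0x938003ca8b),(nat_lit 0xa40004fa8c),(nat_lit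 0xa48005f28d),(nat_lit 0xa50005ea8e),(nat_lit 0xa500064a8f),(nat_lit 0x9580062a90),(nat_lit 0xa58005aa91),(nat_lit 0xa48005ca92),(nat_lit 0xa500054a93),(nat_lit 0xa500056294),(nat_lit 0xb580044a95),(nat_lit 0xa580031a96),(nat_lit 0x218700004697),(nat_lit 0xa300026aaa),(nat_lit 0xb38003eaab),(nat_lit 0xa400051aac),(nat_lit 0xa4800512ad),(nat_lit 0xa500058aae),(nat_lit 0xb48004f2af),(nat_lit 0xb5000492b0),(nat_lit 0xa50004d2b1),(nat_lit 0xb58004b2b2),(nat_lit 0xa5000472b3),(nat_lit 0xb5800452b4),(nat_lit 0xb580042ab5),(nat_lit 0xb58002dab6),(nat_lit 0x218f0010beb8),(nat_lit 0xa3000282ca),(nat_lit 0xa380040acb),(nat_lit 0xa4000402cc),(nat_lit 0xa48003e2cd),(nat_lit 0xa50003c2ce),(nat_lit 0xa4800382cf),(nat_lit 0xa5800362d0),(nat_lit 0xb5800342d1),(nat_lit 0xb50003a2d2),(nat_lit 0xa4800302d3),(nat_lit 0xb5000322d4),(nat_lit 0xb58002e2d5),(nat_lit 0xb58002bad6),(nat_lit 0x218f00121ed9),(nat_lit 0xb380029aeb),(nat_lit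 0xa5000242ef),(nat_lit 0xb5800202f1),(nat_lit 0xb58001d2f3),(nat_lit 0xb5000142f7),(nat_lit 0x218f001366fa),(nat_lit 0x21930014f73c)]) (by decide +kernel)
theorem root_11_8 : ∃ n, Win n {(0, 0)} {(11, 8)} := near_of_root rt11 false false false false (by decide +kernel)
theorem root_10_7 : ∃ n, Win n {(0, 0)} {(10, 7)} := near_of_root rt11 true false false false (by decide +kernel)
end Pool.Agent.Gomoku
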