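import Pool.Agent.Helper47.GomZ.PT
import Pool.Agent.Helper47.GomZ.GT
import Pool.Agent.Helper93.Gomoku.NearRoot
set_option autoImplicit false
set_option linter.all false
namespace Pool.Agent.Gomoku
theorem rt12 : ∀ off, ∃ n, AndWin n (dec off (Nat.lor (bit1 528) (bit1 561))) (dec off (bit1 699)) := rootChk_sound tC_good tP_good (gd := gS3_3) gS3_3_good (wd := (nat_lit 5)) (nl := [(nat_lit 13),(nat_lit 7),(nat_lit 9),(nat_lit 11),(nat_lit 3),(nat_lit 15)]) (l := [(nat_lit 0x5280007929),(nat_lit 0x548000c12d),(nat_lit 0x550000f131),(nat_lit 0x630001394a),(nat_lit 0x638001514b),(nat_lit 0x640001614c),(nat_lit 0x648001814d),(nat_lit 0x650001c14e),(nat_lit 0x658001a14f),(nat_lit 0x650001f150),(nat_lit 0x6500023152),(nat_lit 0x6580021153),(nat_lit 0x6500025154),(nat_lit 0x6500028956),(nat_lit 0x730001496a),(nat_lit 0x738002a96b),(nat_lit 0x740002d16c),(nat_lit 0x748003116d),(nat_lit 0x750002f16e),(nat_lit 0x750003916f),(nat_lit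 0x7500033170),(nat_lit 0x7480035171),(nat_lit 0x7500037172),(nat_lit 0x758003b173),(nat_lit 0x748003d174),(nat_lit 0x758003f175),(nat_lit 0x7500041176),(nat_lit 0x7580029177),(nat_lit 0x830001598a),(nat_lit 0x838002c98b),(nat_lit 0x840004198c),(nat_lit 0x848004418d),(nat_lit 0x850004618e),(nat_lit 0x850004a18f),(nat_lit 0x850004c190),(nat_lit 0x8500048191),(nat_lit 0x858004e192),(nat_lit 0x8580057993),(nat_lit 0x8500050194),(nat_lit 0x8500052195),(nat_lit 0x850003f996),(nat_lit 0x928000b9a9),(nat_lit 0x93000179aa),(nat_lit 0x93800309ab),(nat_lit 0x94000439ac),(nat_lit 0x94800551ad),(nat_lit 0x95000539ae),(nat_lit 0x950005b9af),(nat_lit 0x94800599b0),(nat_lit 0x95000619b1),(nat_lit 0x95000639b2),(nat_lit 0x950005d9b3),(nat_lit 0x950005f9b4),(nat_lit 0x95000509b5),(nat_lit 0x950003d9b6),(nat_lit 0xa30001b9ca),(nat_lit 0xa38002e9cb),(nat_lit 0xa4000459cc),(nat_lit 0xa4800531cd),(nat_lit 0x95000651ce),(nat_lit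 0x95000679cf),(nat_lit 0x950006b9d0),(nat_lit 0xa50006d9d1),(nat_lit 0xa5000699d2),(nat_lit 0xa50006f9d3),(nat_lit 0xa50005e1d4),(nat_lit 0xa5000581d5),(nat_lit 0xa50003b9d6),(nat_lit 0xa5000219d7),(nat_lit 0xb3000199ea),(nat_lit 0xa3800389eb),(nat_lit 0xa4000499ec),(nat_lit 0xa48005b1ed),(nat_lit 0xa4800671ee),(nat_lit 0x95000711ef),(nat_lit 0x94000761f0),(nat_lit 0xa5000781f1),(nat_lit 0xa5000739f2),(nat_lit 0xa48006a1f3),(nat_lit 0xa5000641f4),(nat_lit 0x958004e9f5),(nat_lit 0x95000379f6),(nat_lit 0xa5000239f7),(nat_lit 0xa30001ea0a),(nat_lit 0xa380032a0b),(nat_lit 0xa40004ba0c),(nat_lit 0x948005920d),(nat_lit 0xa48006b20e),(nat_lit 0x8480075a0f),(nat_lit 0xa500074a11),(nat_lit 0x9480078a12),(nat_lit 0xa48006e213),(nat_lit 0xb480062214),(nat_lit 0xa580048a15),(nat_lit 0xb500035a16),(nat_lit 0xa28000ea29),(nat_lit 0xb30001da2a),(nat_lit 0x9380034a2b),(nat_lit 0xa400047a2c),(nat_lit 0xa48006122d),(nat_lit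 0xa50006d22e),(nat_lit 0xa500077a2f),(nat_lit 0xa500074230),(nat_lit 0xa480076a32),(nat_lit 0x750006c233),(nat_lit 0xb50005a234),(nat_lit 0xa50004ca35),(nat_lit 0xb580033a36),(nat_lit 0x21878000f637),(nat_lit 0xa300022a4a),(nat_lit 0xa380036a4b),(nat_lit 0xb40004da4c),(nat_lit 0xa48006324d),(nat_lit 0xa50006924e),(nat_lit 0xa50007324f),(nat_lit 0x9480079250),(nat_lit 0x9500077251),(nat_lit 0x9480072252),(nat_lit 0x9500068253),(nat_lit 0x950005c254),(nat_lit 0xb58004aa55),(nat_lit 0xa580039a56),(nat_lit 0x218f0010de58),(nat_lit 0xb300020a6a),(nat_lit 0xb38003aa6b),(nat_lit 0xb40005726c),(nat_lit 0xa48005d26d),(nat_lit 0xa50006f26e),(nat_lit 0x950006aa6f),(nat_lit 0x950006ea70),(nat_lit 0xa38006ca71),(nat_lit 0xa480068a72),(nat_lit 0xa480066273),(nat_lit 0xa500054274),(nat_lit 0xa500046a75),(nat_lit 0x950002fa76),(nat_lit 0xb58001ca77),(nat_lit 0x218f00123679),(nat_lit 0xa300024a8a),(nat_lit 0x938003ca8b),(nat_lit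 0xa40004fa8c),(nat_lit 0xa48005f28d),(nat_lit 0xa50005ea8e),(nat_lit 0xa500064a8f),(nat_lit 0x9580062a90),(nat_lit 0xa58005aa91),(nat_lit 0xa48005ca92),(nat_lit 0xa500054a93),(nat_lit 0xa500056294),(nat_lit 0xb580044a95),(nat_lit 0xa580031a96),(nat_lit 0x218f0013969a),(nat_lit 0xa300026aaa),(nat_lit 0xb38003eaab),(nat_lit 0xa400051aac),(nat_lit 0xa4800512ad),(nat_lit 0xa500058aae),(nat_lit 0xb48004f2af),(nat_lit 0xb5000492b0),(nat_lit 0xa50004d2b1),(nat_lit 0xb58004b2b2),(nat_lit 0xa5000472b3),(nat_lit 0xb5800452b4),(nat_lit 0xb580042ab5),(nat_lit 0xb58002dab6),(nat_lit 0x2187800d76b7),(nat_lit 0x218f0010d6b8),(nat_lit 0x218f00122eb9),(nat_lit 0x218f00138eba),(nat_lit 0x219300150ebc),(nat_lit 0xa3000282ca),(nat_lit 0xa380040acb),(nat_lit 0xa4000402cc),(nat_lit 0xa48003e2cd),(nat_lit 0xa50003c2ce),(nat_lit 0xa4800382cf),(nat_lit 0xa5800362d0),(nat_lit 0xb5800342d1),(nat_lit 0xb50003a2d2),(nat_lit 0xa4800302d3),(nat_lit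 0xb5000322d4),(nat_lit 0xb58002e2d5),(nat_lit 0xb58002bad6),(nat_lit 0x2193001506dc),(nat_lit 0xb380029aeb),(nat_lit 0xa5000242ef),(nat_lit 0xb5800202f1),(nat_lit 0xb58001d2f3),(nat_lit 0xb5000142f7),(nat_lit 0x2197001576fd)]) (by decide +kernel)
theorem root_11_5 : ∃ n, Win n {(0, 0)} {(11, 5)} := near_of_root rt12 false false false false (by decide +kernel)
theorem root_10_4 : ∃ n, Win n {(0, 0)} {(10, 4)} := near_of_root rt12 true false false false (by decide +kernel)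
theorem rt13 : ∀ off, ∃ n, AndWin n (dec off (Nat.lor (bit1 528) (bit1 561))) (dec off (bit1 882)) := rootChk_sound tC_good tP_good (gd := gS3_3) gS3_3_good (wd := (nat_lit 1)) (nl := [(nat_lit 7),(nat_lit 5),(nat_lit 9),(nat_lit 11),(nat_lit 13),(nat_lit 3),(nat_lit 15)]) (l := [(nat_lit 0x548000c12d),(nat_lit 0x550000f131),(nat_lit 0x630001394a),(nat_lit 0x638001514b),(nat_lit 0x640001614c),(nat_lit 0x648001814d),(nat_lit 0x650001c14e),(nat_lit 0x658001a14f),(nat_lit 0x650001f150),(nat_lit 0x6500023152),(nat_lit 0x6580021153),(nat_lit 0x6500025154),(nat_lit 0x6500028956),(nat_lit 0x730001496a),(nat_lit 0x738002a96b),(nat_lit 0x740002d16c),(nat_lit 0x748003116d),(nat_lit 0x750002f16e),(nat_lit 0x750003916f),(nat_lit 0x7500033170),(nat_lit 0x7480035171),(nat_lit 0x7500037172),(nat_lit 0x758003b173),(nat_lit 0x748003d174),(nat_lit 0x758003f175),(nat_lit 0x7500041176),(nat_lit 0x7580029177),(nat_lit 0x830001598a),(nat_lit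 0x838002c98b),(nat_lit 0x840004198c),(nat_lit 0x848004418d),(nat_lit 0x850004618e),(nat_lit 0x850004a18f),(nat_lit 0x850004c190),(nat_lit 0x8500048191),(nat_lit 0x858004e192),(nat_lit 0x8580057993),(nat_lit 0x8500050194),(nat_lit 0x8500052195),(nat_lit 0x850003f996),(nat_lit 0x928000b9a9),(nat_lit 0x93000179aa),(nat_lit 0x93800309ab),(nat_lit 0x94000439ac),(nat_lit 0x94800551ad),(nat_lit 0x95000539ae),(nat_lit 0x950005b9af),(nat_lit 0x94800599b0),(nat_lit 0x95000619b1),(nat_lit 0x95000639b2),(nat_lit 0x950005d9b3),(nat_lit 0x950005f9b4),(nat_lit 0x95000509b5),(nat_lit 0x950003d9b6),(nat_lit 0xa30001b9ca),(nat_lit 0xa38002e9cb),(nat_lit 0xa4000459cc),(nat_lit 0xa4800531cd),(nat_lit 0x95000651ce),(nat_lit 0x95000679cf),(nat_lit 0x950006b9d0),(nat_lit 0xa50006d9d1),(nat_lit 0xa5000699d2),(nat_lit 0xa50006f9d3),(nat_lit 0xa50005e1d4),(nat_lit 0xa5000581d5),(nat_lit 0xa50003b9d6),(nat_lit 0xa5000219d7),(nat_lit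 0xb3000199ea),(nat_lit 0xa3800389eb),(nat_lit 0xa4000499ec),(nat_lit 0xa48005b1ed),(nat_lit 0xa4800671ee),(nat_lit 0x95000711ef),(nat_lit 0x94000761f0),(nat_lit 0xa5000781f1),(nat_lit 0xa5000739f2),(nat_lit 0xa48006a1f3),(nat_lit 0xa5000641f4),(nat_lit 0x958004e9f5),(nat_lit 0x95000379f6),(nat_lit 0xa5000239f7),(nat_lit 0xa30001ea0a),(nat_lit 0xa380032a0b),(nat_lit 0xa40004ba0c),(nat_lit 0x948005920d),(nat_lit 0xa48006b20e),(nat_lit 0x8480075a0f),(nat_lit 0xa500074a11),(nat_lit 0x9480078a12),(nat_lit 0xa48006e213),(nat_lit 0xb480062214),(nat_lit 0xa580048a15),(nat_lit 0xb500035a16),(nat_lit 0xa28000ea29),(nat_lit 0xb30001da2a),(nat_lit 0x9380034a2b),(nat_lit 0xa400047a2c),(nat_lit 0xa48006122d),(nat_lit 0xa50006d22e),(nat_lit 0xa500077a2f),(nat_lit 0xa500074230),(nat_lit 0xa480076a32),(nat_lit 0x750006c233),(nat_lit 0xb50005a234),(nat_lit 0xa50004ca35),(nat_lit 0xb580033a36),(nat_lit 0xb58001fa37),(nat_lit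 0xa300022a4a),(nat_lit 0xa380036a4b),(nat_lit 0xb40004da4c),(nat_lit 0xa48006324d),(nat_lit 0xa50006924e),(nat_lit 0xa50007324f),(nat_lit 0x9480079250),(nat_lit 0x9500077251),(nat_lit 0x9480072252),(nat_lit 0x9500068253),(nat_lit 0x950005c254),(nat_lit 0xb58004aa55),(nat_lit 0xa580039a56),(nat_lit 0xb300020a6a),(nat_lit 0xb38003aa6b),(nat_lit 0xb40005726c),(nat_lit 0xa48005d26d),(nat_lit 0xa50006f26e),(nat_lit 0x950006aa6f),(nat_lit 0x950006ea70),(nat_lit 0xa38006ca71),(nat_lit 0xa480068a72),(nat_lit 0xa480066273),(nat_lit 0xa500054274),(nat_lit 0xa500046a75),(nat_lit 0x950002fa76),(nat_lit 0xb58001ca77),(nat_lit 0xa300024a8a),(nat_lit 0x938003ca8b),(nat_lit 0xa40004fa8c),(nat_lit 0xa48005f28d),(nat_lit 0xa50005ea8e),(nat_lit 0xa500064a8f),(nat_lit 0x9580062a90),(nat_lit 0xa58005aa91),(nat_lit 0xa48005ca92),(nat_lit 0xa500054a93),(nat_lit 0xa500056294),(nat_lit 0xb580044a95),(nat_lit 0xa580031a96),(nat_lit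 0xa300026aaa),(nat_lit 0xb38003eaab),(nat_lit 0xa400051aac),(nat_lit 0xa4800512ad),(nat_lit 0xa500058aae),(nat_lit 0xb48004f2af),(nat_lit 0xb5000492b0),(nat_lit 0xa50004d2b1),(nat_lit 0xb58004b2b2),(nat_lit 0xa5000472b3),(nat_lit 0xb5800452b4),(nat_lit 0xb580042ab5),(nat_lit 0xb58002dab6),(nat_lit 0xa3000282ca),(nat_lit 0xa380040acb),(nat_lit 0xa4000402cc),(nat_lit 0xa48003e2cd),(nat_lit 0xa50003c2ce),(nat_lit 0xa4800382cf),(nat_lit 0xa5800362d0),(nat_lit 0xb5800342d1),(nat_lit 0xb50003a2d2),(nat_lit 0xa4800302d3),(nat_lit 0xb5000322d4),(nat_lit 0xb58002e2d5),(nat_lit 0xb58002bad6),(nat_lit 0xb380029aeb),(nat_lit 0x21878008aeee),(nat_lit 0xa5000242ef),(nat_lit 0xb5800202f1),(nat_lit 0x218f800feef2),(nat_lit 0xb58001d2f3),(nat_lit 0x21878008aef6),(nat_lit 0xb5000142f7),(nat_lit 0x218f8010ff0f),(nat_lit 0x218f8010ef12),(nat_lit 0x218f8010f715),(nat_lit 0x218f80124f30),(nat_lit 0x218f80125732),(nat_lit 0x218f80124734),(nat_lit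 0x218f8013bf51),(nat_lit 0x218f8013b752),(nat_lit 0x218f8013af53),(nat_lit 0x219380152f92),(nat_lit 0x219380153793)]) (by decide +kernel)
theorem root_11_2 : ∃ n, Win n {(0, 0)} {(11, 2)} := near_of_root rt13 false true false false (by decide +kernel)
theorem root_10_1 : ∃ n, Win n {(0, 0)} {(10, 1)} := near_of_root rt13 true true false false (by decide +kernel)
theorem rt14 : ∀ off, ∃ n, AndWin n (dec off (Nat.lor (bit1 528) (bit1 561))) (dec off (bit1 231)) := rootChk_sound tC_good tP_good (gd := gS3_3) gS3_3_good (wd := (nat_lit 1)) (nl := [(nat_lit 5),(nat_lit 9),(nat_lit 7),(nat_lit 11),(nat_lit 13),(nat_lit 3),(nat_lit 15)]) (l := [(nat_lit 0x249000149c84),(nat_lit 0x238c001424a5),(nat_lit 0x2288001354c6),(nat_lit 0x218400111508),(nat_lit 0x218400102529),(nat_lit 0x548000c12d),(nat_lit 0x550000f131),(nat_lit 0x2184000ea54a),(nat_lit 0x638001514b),(nat_lit 0x640001614c),(nat_lit 0x648001814d),(nat_lit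 0x650001c14e),(nat_lit 0x658001a14f),(nat_lit 0x650001f150),(nat_lit 0x6500023152),(nat_lit 0x6580021153),(nat_lit 0x6500025154),(nat_lit 0x6500028956),(nat_lit 0x730001496a),(nat_lit 0x208000000d6b),(nat_lit 0x740002d16c),(nat_lit 0x748003116d),(nat_lit 0x750002f16e),(nat_lit 0x750003916f),(nat_lit 0x7500033170),(nat_lit 0x7480035171),(nat_lit 0x7500037172),(nat_lit 0x758003b173),(nat_lit 0x748003d174),(nat_lit 0x758003f175),(nat_lit 0x7500041176),(nat_lit 0x7580029177),(nat_lit 0x830001598a),(nat_lit 0x838002c98b),(nat_lit 0x840004198c),(nat_lit 0x848004418d),(nat_lit 0x850004618e),(nat_lit 0x850004a18f),(nat_lit 0x850004c190),(nat_lit 0x8500048191),(nat_lit 0x858004e192),(nat_lit 0x8580057993),(nat_lit 0x8500050194),(nat_lit 0x8500052195),(nat_lit 0x850003f996),(nat_lit 0x928000b9a9),(nat_lit 0x93000179aa),(nat_lit 0x93800309ab),(nat_lit 0x94000439ac),(nat_lit 0x94800551ad),(nat_lit 0x95000539ae),(nat_lit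 0x950005b9af),(nat_lit 0x94800599b0),(nat_lit 0x95000619b1),(nat_lit 0x95000639b2),(nat_lit 0x950005d9b3),(nat_lit 0x950005f9b4),(nat_lit 0x95000509b5),(nat_lit 0x950003d9b6),(nat_lit 0xa30001b9ca),(nat_lit 0xa38002e9cb),(nat_lit 0xa4000459cc),(nat_lit 0xa4800531cd),(nat_lit 0x95000651ce),(nat_lit 0x95000679cf),(nat_lit 0x950006b9d0),(nat_lit 0xa50006d9d1),(nat_lit 0xa5000699d2),(nat_lit 0xa50006f9d3),(nat_lit 0xa50005e1d4),(nat_lit 0xa5000581d5),(nat_lit 0xa50003b9d6),(nat_lit 0xa5000219d7),(nat_lit 0xb3000199ea),(nat_lit 0xa3800389eb),(nat_lit 0xa4000499ec),(nat_lit 0xa48005b1ed),(nat_lit 0xa4800671ee),(nat_lit 0x95000711ef),(nat_lit 0x94000761f0),(nat_lit 0xa5000781f1),(nat_lit 0xa5000739f2),(nat_lit 0xa48006a1f3),(nat_lit 0xa5000641f4),(nat_lit 0x958004e9f5),(nat_lit 0x95000379f6),(nat_lit 0xa5000239f7),(nat_lit 0xa30001ea0a),(nat_lit 0xa380032a0b),(nat_lit 0xa40004ba0c),(nat_lit 0x948005920d),(nat_lit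 0xa48006b20e),(nat_lit 0x8480075a0f),(nat_lit 0xa500074a11),(nat_lit 0x9480078a12),(nat_lit 0xa48006e213),(nat_lit 0xb480062214),(nat_lit 0xa580048a15),(nat_lit 0xb500035a16),(nat_lit 0xa28000ea29),(nat_lit 0xb30001da2a),(nat_lit 0x9380034a2b),(nat_lit 0xa400047a2c),(nat_lit 0xa48006122d),(nat_lit 0xa50006d22e),(nat_lit 0xa500077a2f),(nat_lit 0xa500074230),(nat_lit 0xa480076a32),(nat_lit 0x750006c233),(nat_lit 0xb50005a234),(nat_lit 0xa50004ca35),(nat_lit 0xb580033a36),(nat_lit 0xb58001fa37),(nat_lit 0xa300022a4a),(nat_lit 0xa380036a4b),(nat_lit 0xb40004da4c),(nat_lit 0xa48006324d),(nat_lit 0xa50006924e),(nat_lit 0xa50007324f),(nat_lit 0x9480079250),(nat_lit 0x9500077251),(nat_lit 0x9480072252),(nat_lit 0x9500068253),(nat_lit 0x950005c254),(nat_lit 0xb58004aa55),(nat_lit 0xa580039a56),(nat_lit 0xb300020a6a),(nat_lit 0xb38003aa6b),(nat_lit 0xb40005726c),(nat_lit 0xa48005d26d),(nat_lit 0xa50006f26e),(nat_lit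 0x950006aa6f),(nat_lit 0x950006ea70),(nat_lit 0xa38006ca71),(nat_lit 0xa480068a72),(nat_lit 0xa480066273),(nat_lit 0xa500054274),(nat_lit 0xa500046a75),(nat_lit 0x950002fa76),(nat_lit 0xb58001ca77),(nat_lit 0xa300024a8a),(nat_lit 0x938003ca8b),(nat_lit 0xa40004fa8c),(nat_lit 0xa48005f28d),(nat_lit 0xa50005ea8e),(nat_lit 0xa500064a8f),(nat_lit 0x9580062a90),(nat_lit 0xa58005aa91),(nat_lit 0xa48005ca92),(nat_lit 0xa500054a93),(nat_lit 0xa500056294),(nat_lit 0xb580044a95),(nat_lit 0xa580031a96),(nat_lit 0xa300026aaa),(nat_lit 0xb38003eaab),(nat_lit 0xa400051aac),(nat_lit 0xa4800512ad),(nat_lit 0xa500058aae),(nat_lit 0xb48004f2af),(nat_lit 0xb5000492b0),(nat_lit 0xa50004d2b1),(nat_lit 0xb58004b2b2),(nat_lit 0xa5000472b3),(nat_lit 0xb5800452b4),(nat_lit 0xb580042ab5),(nat_lit 0xb58002dab6),(nat_lit 0xa3000282ca),(nat_lit 0xa380040acb),(nat_lit 0xa4000402cc),(nat_lit 0xa48003e2cd),(nat_lit 0xa50003c2ce),(nat_lit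 0xa4800382cf),(nat_lit 0xa5800362d0),(nat_lit 0xb5800342d1),(nat_lit 0xb50003a2d2),(nat_lit 0xa4800302d3),(nat_lit 0xb5000322d4),(nat_lit 0xb58002e2d5),(nat_lit 0xb58002bad6),(nat_lit 0xb380029aeb),(nat_lit 0xa5000242ef),(nat_lit 0xb5800202f1),(nat_lit 0xb58001d2f3),(nat_lit 0xb5000142f7)]) (by decide +kernel)
theorem root_9_9 : ∃ n, Win n {(0, 0)} {(9, 9)} := near_of_root rt14 false false true true (by decide +kernel)
theorem root_10_10 : ∃ n, Win n {(0, 0)} {(10, 10)} := near_of_root rt14 true false true true (by decide +kernel)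
theorem rt15 : ∀ off, ∃ n, AndWin n (dec off (Nat.lor (bit1 528) (bit1 561))) (dec off (bit1 730)) := rootChk_sound tC_good tP_good (gd := gS3_3) gS3_3_good (wd := (nat_lit 19)) (nl := [(nat_lit 5),(nat_lit 7),(nat_lit 9),(nat_lit 11),(nat_lit 13),(nat_lit 3),(nat_lit 15)]) (l := [(nat_lit 0x548000c12d),(nat_lit 0x550000f131),(nat_lit 0x630001394a),(nat_lit 0x638001514b),(nat_lit 0x640001614c),(nat_lit 0x648001814d),(nat_lit 0x650001c14e),(nat_lit 0x658001a14f),(nat_lit 0x650001f150),(nat_lit 0x6500023152),(nat_lit 0x6580021153),(nat_lit 0x6500025154),(nat_lit 0x6500028956),(nat_lit 0x730001496a),(nat_lit 0x738002a96b),(nat_lit 0x740002d16c),(nat_lit 0x748003116d),(nat_lit 0x750002f16e),(nat_lit 0x750003916f),(nat_lit 0x7500033170),(nat_lit 0x7480035171),(nat_lit 0x7500037172),(nat_lit 0x758003b173),(nat_lit 0x748003d174),(nat_lit 0x758003f175),(nat_lit 0x7500041176),(nat_lit 0x7580029177),(nat_lit 0x830001598a),(nat_lit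 0x838002c98b),(nat_lit 0x840004198c),(nat_lit 0x848004418d),(nat_lit 0x850004618e),(nat_lit 0x850004a18f),(nat_lit 0x850004c190),(nat_lit 0x8500048191),(nat_lit 0x858004e192),(nat_lit 0x8580057993),(nat_lit 0x8500050194),(nat_lit 0x8500052195),(nat_lit 0x850003f996),(nat_lit 0x928000b9a9),(nat_lit 0x93000179aa),(nat_lit 0x93800309ab),(nat_lit 0x94000439ac),(nat_lit 0x94800551ad),(nat_lit 0x95000539ae),(nat_lit 0x950005b9af),(nat_lit 0x94800599b0),(nat_lit 0x95000619b1),(nat_lit 0x95000639b2),(nat_lit 0x950005d9b3),(nat_lit 0x950005f9b4),(nat_lit 0x95000509b5),(nat_lit 0x950003d9b6),(nat_lit 0xa30001b9ca),(nat_lit 0xa38002e9cb),(nat_lit 0xa4000459cc),(nat_lit 0xa4800531cd),(nat_lit 0x95000651ce),(nat_lit 0x95000679cf),(nat_lit 0x950006b9d0),(nat_lit 0xa50006d9d1),(nat_lit 0xa5000699d2),(nat_lit 0xa50006f9d3),(nat_lit 0xa50005e1d4),(nat_lit 0xa5000581d5),(nat_lit 0xa50003b9d6),(nat_lit 0xa5000219d7),(nat_lit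 0xb3000199ea),(nat_lit 0xa3800389eb),(nat_lit 0xa4000499ec),(nat_lit 0xa48005b1ed),(nat_lit 0xa4800671ee),(nat_lit 0x95000711ef),(nat_lit 0x94000761f0),(nat_lit 0xa5000781f1),(nat_lit 0xa5000739f2),(nat_lit 0xa48006a1f3),(nat_lit 0xa5000641f4),(nat_lit 0x958004e9f5),(nat_lit 0x95000379f6),(nat_lit 0xa5000239f7),(nat_lit 0xa30001ea0a),(nat_lit 0xa380032a0b),(nat_lit 0xa40004ba0c),(nat_lit 0x948005920d),(nat_lit 0xa48006b20e),(nat_lit 0x8480075a0f),(nat_lit 0xa500074a11),(nat_lit 0x9480078a12),(nat_lit 0xa48006e213),(nat_lit 0xb480062214),(nat_lit 0xa580048a15),(nat_lit 0xb500035a16),(nat_lit 0xa28000ea29),(nat_lit 0xb30001da2a),(nat_lit 0x9380034a2b),(nat_lit 0xa400047a2c),(nat_lit 0xa48006122d),(nat_lit 0xa50006d22e),(nat_lit 0xa500077a2f),(nat_lit 0xa500074230),(nat_lit 0xa480076a32),(nat_lit 0x750006c233),(nat_lit 0xb50005a234),(nat_lit 0xa50004ca35),(nat_lit 0xb580033a36),(nat_lit 0xb58001fa37),(nat_lit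 0xa300022a4a),(nat_lit 0xa380036a4b),(nat_lit 0xb40004da4c),(nat_lit 0xa48006324d),(nat_lit 0xa50006924e),(nat_lit 0xa50007324f),(nat_lit 0x9480079250),(nat_lit 0x9500077251),(nat_lit 0x9480072252),(nat_lit 0x9500068253),(nat_lit 0x950005c254),(nat_lit 0xb58004aa55),(nat_lit 0x218700000e56),(nat_lit 0xb300020a6a),(nat_lit 0xb38003aa6b),(nat_lit 0xb40005726c),(nat_lit 0xa48005d26d),(nat_lit 0xa50006f26e),(nat_lit 0x950006aa6f),(nat_lit 0x950006ea70),(nat_lit 0xa38006ca71),(nat_lit 0xa480068a72),(nat_lit 0xa480066273),(nat_lit 0xa500054274),(nat_lit 0xa500046a75),(nat_lit 0x950002fa76),(nat_lit 0x218b000eb677),(nat_lit 0xa300024a8a),(nat_lit 0x938003ca8b),(nat_lit 0xa40004fa8c),(nat_lit 0xa48005f28d),(nat_lit 0xa50005ea8e),(nat_lit 0xa500064a8f),(nat_lit 0x9580062a90),(nat_lit 0xa58005aa91),(nat_lit 0xa48005ca92),(nat_lit 0xa500054a93),(nat_lit 0xa500056294),(nat_lit 0xb580044a95),(nat_lit 0xa580031a96),(nat_lit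 0x218b00102e98),(nat_lit 0xa300026aaa),(nat_lit 0xb38003eaab),(nat_lit 0xa400051aac),(nat_lit 0xa4800512ad),(nat_lit 0xa500058aae),(nat_lit 0xb48004f2af),(nat_lit 0xb5000492b0),(nat_lit 0xa50004d2b1),(nat_lit 0xb58004b2b2),(nat_lit 0xa5000472b3),(nat_lit 0xb5800452b4),(nat_lit 0xb580042ab5),(nat_lit 0xb58002dab6),(nat_lit 0x218b001156b9),(nat_lit 0xa3000282ca),(nat_lit 0xa380040acb),(nat_lit 0xa4000402cc),(nat_lit 0xa48003e2cd),(nat_lit 0xa50003c2ce),(nat_lit 0xa4800382cf),(nat_lit 0xa5800362d0),(nat_lit 0xb5800342d1),(nat_lit 0xb50003a2d2),(nat_lit 0xa4800302d3),(nat_lit 0xb5000322d4),(nat_lit 0xb58002e2d5),(nat_lit 0x218700000ed6),(nat_lit 0x218b000eaed7),(nat_lit 0x218b00101ed8),(nat_lit 0x218b00114ed9),(nat_lit 0x218f001386db),(nat_lit 0x219300142edc),(nat_lit 0xb380029aeb),(nat_lit 0xa5000242ef),(nat_lit 0xb5800202f1),(nat_lit 0xb58001d2f3),(nat_lit 0xb5000142f7),(nat_lit 0x218f001376fb),(nat_lit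 0x21930014171c),(nat_lit 0x21970014b73d)]) (by decide +kernel)
theorem root_10_6 : ∃ n, Win n {(0, 0)} {(10, 6)} := near_of_root rt15 false false false false (by decide +kernel)
theorem root_9_5 : ∃ n, Win n {(0, 0)} {(9, 5)} := near_of_root rt15 true false false false (by decide +kernel)
theorem rt16 : ∀ off, ∃ n, AndWin n (dec off (Nat.lor (bit1 528) (bit1 561))) (dec off (bit1 698)) := rootChk_sound tC_good tP_good (gd := gS3_3) gS3_3_good (wd := (nat_lit 17)) (nl := [(nat_lit 9),(nat_lit 13),(nat_lit 7),(nat_lit 5),(nat_lit 11),(nat_lit 15),(nat_lit 3)]) (l := [(nat_lit 0x5280007929),(nat_lit 0x548000c12d),(nat_lit 0x550000f131),(nat_lit 0x630001394a),(nat_lit 0x638001514b),(nat_lit 0x640001614c),(nat_lit 0x648001814d),(nat_lit 0x650001c14e),(nat_lit 0x658001a14f),(nat_lit 0x650001f150),(nat_lit 0x6500023152),(nat_lit 0x6580021153),(nat_lit 0x6500025154),(nat_lit 0x6500028956),(nat_lit 0x738002a96b),(nat_lit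 0x740002d16c),(nat_lit 0x748003116d),(nat_lit 0x750002f16e),(nat_lit 0x750003916f),(nat_lit 0x7500033170),(nat_lit 0x7480035171),(nat_lit 0x7500037172),(nat_lit 0x758003b173),(nat_lit 0x748003d174),(nat_lit 0x758003f175),(nat_lit 0x7500041176),(nat_lit 0x7580029177),(nat_lit 0x830001598a),(nat_lit 0x838002c98b),(nat_lit 0x840004198c),(nat_lit 0x848004418d),(nat_lit 0x850004618e),(nat_lit 0x850004a18f),(nat_lit 0x850004c190),(nat_lit 0x8500048191),(nat_lit 0x858004e192),(nat_lit 0x8580057993),(nat_lit 0x8500050194),(nat_lit 0x8500052195),(nat_lit 0x850003f996),(nat_lit 0x928000b9a9),(nat_lit 0x93000179aa),(nat_lit 0x93800309ab),(nat_lit 0x94000439ac),(nat_lit 0x94800551ad),(nat_lit 0x95000539ae),(nat_lit 0x950005b9af),(nat_lit 0x94800599b0),(nat_lit 0x95000619b1),(nat_lit 0x95000639b2),(nat_lit 0x950005d9b3),(nat_lit 0x950005f9b4),(nat_lit 0x95000509b5),(nat_lit 0x950003d9b6),(nat_lit 0xa30001b9ca),(nat_lit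 0xa38002e9cb),(nat_lit 0xa4000459cc),(nat_lit 0xa4800531cd),(nat_lit 0x95000651ce),(nat_lit 0x95000679cf),(nat_lit 0x950006b9d0),(nat_lit 0xa50006d9d1),(nat_lit 0xa5000699d2),(nat_lit 0xa50006f9d3),(nat_lit 0xa50005e1d4),(nat_lit 0xa5000581d5),(nat_lit 0xa50003b9d6),(nat_lit 0xa5000219d7),(nat_lit 0xb3000199ea),(nat_lit 0xa3800389eb),(nat_lit 0xa4000499ec),(nat_lit 0xa48005b1ed),(nat_lit 0xa4800671ee),(nat_lit 0x95000711ef),(nat_lit 0x94000761f0),(nat_lit 0xa5000781f1),(nat_lit 0xa5000739f2),(nat_lit 0xa48006a1f3),(nat_lit 0xa5000641f4),(nat_lit 0x958004e9f5),(nat_lit 0x95000379f6),(nat_lit 0xa5000239f7),(nat_lit 0xa30001ea0a),(nat_lit 0xa380032a0b),(nat_lit 0xa40004ba0c),(nat_lit 0x948005920d),(nat_lit 0xa48006b20e),(nat_lit 0x8480075a0f),(nat_lit 0xa500074a11),(nat_lit 0x9480078a12),(nat_lit 0xa48006e213),(nat_lit 0xb480062214),(nat_lit 0xa580048a15),(nat_lit 0xb500035a16),(nat_lit 0xa28000ea29),(nat_lit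 0xb30001da2a),(nat_lit 0x9380034a2b),(nat_lit 0xa400047a2c),(nat_lit 0xa48006122d),(nat_lit 0xa50006d22e),(nat_lit 0xa500077a2f),(nat_lit 0xa500074230),(nat_lit 0xa480076a32),(nat_lit 0x750006c233),(nat_lit 0xb50005a234),(nat_lit 0xa50004ca35),(nat_lit 0x218700050636),(nat_lit 0xb58001fa37),(nat_lit 0xa300022a4a),(nat_lit 0xa380036a4b),(nat_lit 0xb40004da4c),(nat_lit 0xa48006324d),(nat_lit 0xa50006924e),(nat_lit 0xa50007324f),(nat_lit 0x9480079250),(nat_lit 0x9500077251),(nat_lit 0x9480072252),(nat_lit 0x9500068253),(nat_lit 0x950005c254),(nat_lit 0xb58004aa55),(nat_lit 0xa580039a56),(nat_lit 0x218b000ec657),(nat_lit 0xb300020a6a),(nat_lit 0xb38003aa6b),(nat_lit 0xb40005726c),(nat_lit 0xa48005d26d),(nat_lit 0xa50006f26e),(nat_lit 0x950006aa6f),(nat_lit 0x950006ea70),(nat_lit 0xa38006ca71),(nat_lit 0xa480068a72),(nat_lit 0xa480066273),(nat_lit 0xa500054274),(nat_lit 0xa500046a75),(nat_lit 0x950002fa76),(nat_lit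 0xb58001ca77),(nat_lit 0x218b00103e78),(nat_lit 0xa300024a8a),(nat_lit 0x938003ca8b),(nat_lit 0xa40004fa8c),(nat_lit 0xa48005f28d),(nat_lit 0xa50005ea8e),(nat_lit 0xa500064a8f),(nat_lit 0x9580062a90),(nat_lit 0xa58005aa91),(nat_lit 0xa48005ca92),(nat_lit 0xa500054a93),(nat_lit 0xa500056294),(nat_lit 0xb580044a95),(nat_lit 0xa580031a96),(nat_lit 0x218b00116699),(nat_lit 0xa300026aaa),(nat_lit 0xb38003eaab),(nat_lit 0xa400051aac),(nat_lit 0xa4800512ad),(nat_lit 0xa500058aae),(nat_lit 0xb48004f2af),(nat_lit 0xb5000492b0),(nat_lit 0xa50004d2b1),(nat_lit 0xb58004b2b2),(nat_lit 0xa5000472b3),(nat_lit 0xb5800452b4),(nat_lit 0xb580042ab5),(nat_lit 0x21878000ceb6),(nat_lit 0x218b000eceb7),(nat_lit 0x218b001036b8),(nat_lit 0x218b00115eb9),(nat_lit 0x218f00138ebb),(nat_lit 0x2193001436bc),(nat_lit 0xa3000282ca),(nat_lit 0xa380040acb),(nat_lit 0xa4000402cc),(nat_lit 0xa48003e2cd),(nat_lit 0xa50003c2ce),(nat_lit 0xa4800382cf),(nat_lit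 0xa5800362d0),(nat_lit 0xb5800342d1),(nat_lit 0xb50003a2d2),(nat_lit 0xa4800302d3),(nat_lit 0xb5000322d4),(nat_lit 0xb58002e2d5),(nat_lit 0xb58002bad6),(nat_lit 0x218f00137edb),(nat_lit 0xb380029aeb),(nat_lit 0xa5000242ef),(nat_lit 0xb5800202f1),(nat_lit 0xb58001d2f3),(nat_lit 0xb5000142f7),(nat_lit 0x219300141efc)]) (by decide +kernel)
theorem root_10_5 : ∃ n, Win n {(0, 0)} {(10, 5)} := near_of_root rt16 false false false false (by decide +kernel)
theorem root_9_4 : ∃ n, Win n {(0, 0)} {(9, 4)} := near_of_root rt16 true false false false (by decide +kernel)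
theorem rt17 : ∀ off, ∃ n, AndWin n (dec off (Nat.lor (bit1 528) (bit1 561))) (dec off (bit1 634)) := rootChk_sound tC_good tP_good (gd := gS3_3) gS3_3_good (wd := (nat_lit 19)) (nl := [(nat_lit 9),(nat_lit 5),(nat_lit 7),(nat_lit 11),(nat_lit 13),(nat_lit 3),(nat_lit 15)]) (l := [(nat_lit 0x548000c12d),(nat_lit 0x550000f131),(nat_lit 0x630001394a),(nat_lit 0x638001514b),(nat_lit 0x640001614c),(nat_lit 0x648001814d),(nat_lit 0x650001c14e),(nat_lit 0x658001a14f),(nat_lit 0x650001f150),(nat_lit 0x6500023152),(nat_lit 0x6580021153),(nat_lit 0x6500025154),(nat_lit 0x6500028956),(nat_lit 0x730001496a),(nat_lit 0x738002a96b),(nat_lit 0x740002d16c),(nat_lit 0x748003116d),(nat_lit 0x750002f16e),(nat_lit 0x750003916f),(nat_lit 0x7500033170),(nat_lit 0x7480035171),(nat_lit 0x7500037172),(nat_lit 0x758003b173),(nat_lit 0x748003d174),(nat_lit 0x758003f175),(nat_lit 0x7500041176),(nat_lit 0x7580029177),(nat_lit 0x830001598a),(nat_lit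 0x838002c98b),(nat_lit 0x840004198c),(nat_lit 0x848004418d),(nat_lit 0x850004618e),(nat_lit 0x850004a18f),(nat_lit 0x850004c190),(nat_lit 0x8500048191),(nat_lit 0x858004e192),(nat_lit 0x8580057993),(nat_lit 0x8500050194),(nat_lit 0x8500052195),(nat_lit 0x850003f996),(nat_lit 0x928000b9a9),(nat_lit 0x93000179aa),(nat_lit 0x93800309ab),(nat_lit 0x94000439ac),(nat_lit 0x94800551ad),(nat_lit 0x95000539ae),(nat_lit 0x950005b9af),(nat_lit 0x94800599b0),(nat_lit 0x95000619b1),(nat_lit 0x95000639b2),(nat_lit 0x950005d9b3),(nat_lit 0x950005f9b4),(nat_lit 0x95000509b5),(nat_lit 0x950003d9b6),(nat_lit 0xa30001b9ca),(nat_lit 0xa38002e9cb),(nat_lit 0xa4000459cc),(nat_lit 0xa4800531cd),(nat_lit 0x95000651ce),(nat_lit 0x95000679cf),(nat_lit 0x950006b9d0),(nat_lit 0xa50006d9d1),(nat_lit 0xa5000699d2),(nat_lit 0xa50006f9d3),(nat_lit 0xa50005e1d4),(nat_lit 0xa5000581d5),(nat_lit 0xa50003b9d6),(nat_lit 0xa5000219d7),(nat_lit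 0xb3000199ea),(nat_lit 0xa3800389eb),(nat_lit 0xa4000499ec),(nat_lit 0xa48005b1ed),(nat_lit 0xa4800671ee),(nat_lit 0x95000711ef),(nat_lit 0x94000761f0),(nat_lit 0xa5000781f1),(nat_lit 0xa5000739f2),(nat_lit 0xa48006a1f3),(nat_lit 0xa5000641f4),(nat_lit 0x958004e9f5),(nat_lit 0x218780036df6),(nat_lit 0xa5000239f7),(nat_lit 0xa30001ea0a),(nat_lit 0xa380032a0b),(nat_lit 0xa40004ba0c),(nat_lit 0x948005920d),(nat_lit 0xa48006b20e),(nat_lit 0x8480075a0f),(nat_lit 0xa500074a11),(nat_lit 0x9480078a12),(nat_lit 0xa48006e213),(nat_lit 0xb480062214),(nat_lit 0xa580048a15),(nat_lit 0xb500035a16),(nat_lit 0x218b000efe17),(nat_lit 0xa28000ea29),(nat_lit 0xb30001da2a),(nat_lit 0x9380034a2b),(nat_lit 0xa400047a2c),(nat_lit 0xa48006122d),(nat_lit 0xa50006d22e),(nat_lit 0xa500077a2f),(nat_lit 0xa500074230),(nat_lit 0xa480076a32),(nat_lit 0x750006c233),(nat_lit 0xb50005a234),(nat_lit 0xa50004ca35),(nat_lit 0xb580033a36),(nat_lit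 0xb58001fa37),(nat_lit 0x218b00104638),(nat_lit 0xa300022a4a),(nat_lit 0xa380036a4b),(nat_lit 0xb40004da4c),(nat_lit 0xa48006324d),(nat_lit 0xa50006924e),(nat_lit 0xa50007324f),(nat_lit 0x9480079250),(nat_lit 0x9500077251),(nat_lit 0x9480072252),(nat_lit 0x9500068253),(nat_lit 0x950005c254),(nat_lit 0xb58004aa55),(nat_lit 0xa580039a56),(nat_lit 0x218b00117e59),(nat_lit 0x218f0013ae5b),(nat_lit 0xb300020a6a),(nat_lit 0xb38003aa6b),(nat_lit 0xb40005726c),(nat_lit 0xa48005d26d),(nat_lit 0xa50006f26e),(nat_lit 0x950006aa6f),(nat_lit 0x950006ea70),(nat_lit 0xa38006ca71),(nat_lit 0xa480068a72),(nat_lit 0xa480066273),(nat_lit 0xa500054274),(nat_lit 0xa500046a75),(nat_lit 0x218780030676),(nat_lit 0x218b000ee677),(nat_lit 0x218b00105e78),(nat_lit 0x218b00117679),(nat_lit 0x218f00139e7b),(nat_lit 0x21930015a67c),(nat_lit 0x21970014be7d),(nat_lit 0xa300024a8a),(nat_lit 0x938003ca8b),(nat_lit 0xa40004fa8c),(nat_lit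 0xa48005f28d),(nat_lit 0xa50005ea8e),(nat_lit 0xa500064a8f),(nat_lit 0x9580062a90),(nat_lit 0xa58005aa91),(nat_lit 0xa48005ca92),(nat_lit 0xa500054a93),(nat_lit 0xa500056294),(nat_lit 0xb580044a95),(nat_lit 0xa580031a96),(nat_lit 0x218b00116e99),(nat_lit 0x218f0013a69b),(nat_lit 0xa300026aaa),(nat_lit 0xb38003eaab),(nat_lit 0xa400051aac),(nat_lit 0xa4800512ad),(nat_lit 0xa500058aae),(nat_lit 0xb48004f2af),(nat_lit 0xb5000492b0),(nat_lit 0xa50004d2b1),(nat_lit 0xb58004b2b2),(nat_lit 0xa5000472b3),(nat_lit 0xb5800452b4),(nat_lit 0xb580042ab5),(nat_lit 0xb58002dab6),(nat_lit 0x218b00104eb8),(nat_lit 0x219300143ebc),(nat_lit 0xa3000282ca),(nat_lit 0xa380040acb),(nat_lit 0xa4000402cc),(nat_lit 0xa48003e2cd),(nat_lit 0xa50003c2ce),(nat_lit 0xa4800382cf),(nat_lit 0xa5800362d0),(nat_lit 0xb5800342d1),(nat_lit 0xb50003a2d2),(nat_lit 0xa4800302d3),(nat_lit 0xb5000322d4),(nat_lit 0xb58002e2d5),(nat_lit 0xb58002bad6),(nat_lit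 0x218b000eded7),(nat_lit 0xb380029aeb),(nat_lit 0xa5000242ef),(nat_lit 0xb5800202f1),(nat_lit 0xb58001d2f3),(nat_lit 0x2187800306f6),(nat_lit 0xb5000142f7)]) (by decide +kernel)
theorem root_10_3 : ∃ n, Win n {(0, 0)} {(10, 3)} := near_of_root rt17 false false false false (by decide +kernel)
theorem root_9_2 : ∃ n, Win n {(0, 0)} {(9, 2)} := near_of_root rt17 true false false false (by decide +kernel)
end Pool.Agent.Gomoku
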