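import Pool.Agent.Helper47.GomZ.PT
import Pool.Agent.Helper47.GomZ.GT
import Pool.Agent.Helper93.Gomoku.NearRoot
set_option autoImplicit false
set_option linter.all false
namespace Pool.Agent.Gomoku
theorem rt54 : ∀ off, ∃ n, AndWin n (dec off (Nat.lor (bit1 594) (bit1 627))) (dec off (bit1 165)) := rootChk_sound tC_good tP_good (gd := gS5_5) gS5_5_good (wd := (nat_lit 1)) (nl := [(nat_lit 3),(nat_lit 5),(nat_lit 7),(nat_lit 9),(nat_lit 11),(nat_lit 13),(nat_lit 15)]) (l := [(nat_lit 0x758000c16f),(nat_lit 0x760000f173),(nat_lit 0x840001398c),(nat_lit 0x848001518d),(nat_lit 0x850001618e),(nat_lit 0x858001818f),(nat_lit 0x860001c190),(nat_lit 0x868001a191),(nat_lit 0x860001f192),(nat_lit 0x8600023194),(nat_lit 0x8680021195),(nat_lit 0x8600025196),(nat_lit 0x8600028998),(nat_lit 0x94000149ac),(nat_lit 0x948002a9ad),(nat_lit 0x950002d1ae),(nat_lit 0x95800311af),(nat_lit 0x960002f1b0),(nat_lit 0x96000391b1),(nat_lit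 0x96000331b2),(nat_lit 0x95800351b3),(nat_lit 0x96000371b4),(nat_lit 0x968003b1b5),(nat_lit 0x958003d1b6),(nat_lit 0x968003f1b7),(nat_lit 0x96000411b8),(nat_lit 0x96800291b9),(nat_lit 0xa4000159cc),(nat_lit 0xa48002c9cd),(nat_lit 0xa5000419ce),(nat_lit 0xa5800441cf),(nat_lit 0xa6000461d0),(nat_lit 0xa60004a1d1),(nat_lit 0xa60004c1d2),(nat_lit 0xa6000481d3),(nat_lit 0xa68004e1d4),(nat_lit 0xa6800579d5),(nat_lit 0xa6000501d6),(nat_lit 0xa6000521d7),(nat_lit 0xa60003f9d8),(nat_lit 0xb38000b9eb),(nat_lit 0xb4000179ec),(nat_lit 0xb4800309ed),(nat_lit 0xb5000439ee),(nat_lit 0xb5800551ef),(nat_lit 0xb6000539f0),(nat_lit 0xb60005b9f1),(nat_lit 0xb5800599f2),(nat_lit 0xb6000619f3),(nat_lit 0xb6000639f4),(nat_lit 0xb60005d9f5),(nat_lit 0xb60005f9f6),(nat_lit 0xb6000509f7),(nat_lit 0xb60003d9f8),(nat_lit 0xc40001ba0c),(nat_lit 0xc48002ea0d),(nat_lit 0xc500045a0e),(nat_lit 0xc58005320f),(nat_lit 0xb600065210),(nat_lit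 0xb600067a11),(nat_lit 0xb60006ba12),(nat_lit 0xc60006da13),(nat_lit 0xc600069a14),(nat_lit 0xc60006fa15),(nat_lit 0xc60005e216),(nat_lit 0xc600058217),(nat_lit 0xc60003ba18),(nat_lit 0xc600021a19),(nat_lit 0xd400019a2c),(nat_lit 0xc480038a2d),(nat_lit 0xc500049a2e),(nat_lit 0xc58005b22f),(nat_lit 0xc580067230),(nat_lit 0xb600071231),(nat_lit 0xb500076232),(nat_lit 0xc600078233),(nat_lit 0xc600073a34),(nat_lit 0xc58006a235),(nat_lit 0xc600064236),(nat_lit 0xb68004ea37),(nat_lit 0xb600037a38),(nat_lit 0xc600023a39),(nat_lit 0xc40001ea4c),(nat_lit 0xc480032a4d),(nat_lit 0xc50004ba4e),(nat_lit 0xb58005924f),(nat_lit 0xc58006b250),(nat_lit 0xa580075a51),(nat_lit 0xc600074a53),(nat_lit 0xb580078a54),(nat_lit 0xc58006e255),(nat_lit 0xd580062256),(nat_lit 0xc680048a57),(nat_lit 0xd600035a58),(nat_lit 0xc38000ea6b),(nat_lit 0xd40001da6c),(nat_lit 0xb480034a6d),(nat_lit 0xc500047a6e),(nat_lit 0xc58006126f),(nat_lit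 0xc60006d270),(nat_lit 0xc600077a71),(nat_lit 0xc600074272),(nat_lit 0xc580076a74),(nat_lit 0x960006c275),(nat_lit 0xd60005a276),(nat_lit 0xc60004ca77),(nat_lit 0xd680033a78),(nat_lit 0xd68001fa79),(nat_lit 0xc400022a8c),(nat_lit 0xc480036a8d),(nat_lit 0xd50004da8e),(nat_lit 0xc58006328f),(nat_lit 0xc600069290),(nat_lit 0xc600073291),(nat_lit 0xb580079292),(nat_lit 0xb600077293),(nat_lit 0xb580072294),(nat_lit 0xb600068295),(nat_lit 0xb60005c296),(nat_lit 0xd68004aa97),(nat_lit 0xc680039a98),(nat_lit 0xd400020aac),(nat_lit 0xd48003aaad),(nat_lit 0xd5000572ae),(nat_lit 0xc58005d2af),(nat_lit 0xc60006f2b0),(nat_lit 0xb60006aab1),(nat_lit 0xb60006eab2),(nat_lit 0xc48006cab3),(nat_lit 0xc580068ab4),(nat_lit 0xc5800662b5),(nat_lit 0xc6000542b6),(nat_lit 0xc600046ab7),(nat_lit 0xb60002fab8),(nat_lit 0xd68001cab9),(nat_lit 0xc400024acc),(nat_lit 0xb48003cacd),(nat_lit 0xc50004face),(nat_lit 0xc58005f2cf),(nat_lit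 0xc60005ead0),(nat_lit 0xc600064ad1),(nat_lit 0xb680062ad2),(nat_lit 0xc68005aad3),(nat_lit 0xc58005cad4),(nat_lit 0xc600054ad5),(nat_lit 0xc6000562d6),(nat_lit 0xd680044ad7),(nat_lit 0xc680031ad8),(nat_lit 0xc400026aec),(nat_lit 0xd48003eaed),(nat_lit 0xc500051aee),(nat_lit 0xc5800512ef),(nat_lit 0xc600058af0),(nat_lit 0xd58004f2f1),(nat_lit 0xd6000492f2),(nat_lit 0xc60004d2f3),(nat_lit 0xd68004b2f4),(nat_lit 0xc6000472f5),(nat_lit 0xd6800452f6),(nat_lit 0xd680042af7),(nat_lit 0xd68002daf8),(nat_lit 0xc40002830c),(nat_lit 0xc480040b0d),(nat_lit 0xc50004030e),(nat_lit 0xc58003e30f),(nat_lit 0xc60003c310),(nat_lit 0xc580038311),(nat_lit 0xc680036312),(nat_lit 0xd680034313),(nat_lit 0xd60003a314),(nat_lit 0xc580030315),(nat_lit 0xd600032316),(nat_lit 0xd68002e317),(nat_lit 0xd68002bb18),(nat_lit 0xd480029b2d),(nat_lit 0xc600024331),(nat_lit 0xd680020333),(nat_lit 0xd68001d335),(nat_lit 0xd600014339)]) (by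 decide +kernel)
theorem root_13_13 : ∃ n, Win n {(0, 0)} {(13, 13)} := near_of_root rt54 false false true true (by decide +kernel)
theorem root_14_14 : ∃ n, Win n {(0, 0)} {(14, 14)} := near_of_root rt54 true false true true (by decide +kernel)
theorem rt55 : ∀ off, ∃ n, AndWin n (dec off (Nat.lor (bit1 530) (bit1 563))) (dec off (bit1 133)) := rootChk_sound tC_good tP_good (gd := gS5_3) gS5_3_good (wd := (nat_lit 1)) (nl := [(nat_lit 3),(nat_lit 5),(nat_lit 7),(nat_lit 9),(nat_lit 11),(nat_lit 13)]) (l := [(nat_lit 0x538000792b),(nat_lit 0x558000c12f),(nat_lit 0x560000f133),(nat_lit 0x640001394c),(nat_lit 0x648001514d),(nat_lit 0x650001614e),(nat_lit 0x658001814f),(nat_lit 0x660001c150),(nat_lit 0x668001a151),(nat_lit 0x660001f152),(nat_lit 0x6600023154),(nat_lit 0x6680021155),(nat_lit 0x6600025156),(nat_lit 0x6600028958),(nat_lit 0x740001496c),(nat_lit 0x748002a96d),(nat_lit 0x750002d16e),(nat_lit 0x758003116f),(nat_lit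 0x760002f170),(nat_lit 0x7600039171),(nat_lit 0x7600033172),(nat_lit 0x7580035173),(nat_lit 0x7600037174),(nat_lit 0x768003b175),(nat_lit 0x758003d176),(nat_lit 0x768003f177),(nat_lit 0x7600041178),(nat_lit 0x7680029179),(nat_lit 0x840001598c),(nat_lit 0x848002c98d),(nat_lit 0x850004198e),(nat_lit 0x858004418f),(nat_lit 0x8600046190),(nat_lit 0x860004a191),(nat_lit 0x860004c192),(nat_lit 0x8600048193),(nat_lit 0x868004e194),(nat_lit 0x8680057995),(nat_lit 0x8600050196),(nat_lit 0x8600052197),(nat_lit 0x860003f998),(nat_lit 0x938000b9ab),(nat_lit 0x94000179ac),(nat_lit 0x94800309ad),(nat_lit 0x95000439ae),(nat_lit 0x95800551af),(nat_lit 0x96000539b0),(nat_lit 0x960005b9b1),(nat_lit 0x95800599b2),(nat_lit 0x96000619b3),(nat_lit 0x96000639b4),(nat_lit 0x960005d9b5),(nat_lit 0x960005f9b6),(nat_lit 0x96000509b7),(nat_lit 0x960003d9b8),(nat_lit 0xa40001b9cc),(nat_lit 0xa48002e9cd),(nat_lit 0xa5000459ce),(nat_lit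 0xa5800531cf),(nat_lit 0x96000651d0),(nat_lit 0x96000679d1),(nat_lit 0x960006b9d2),(nat_lit 0xa60006d9d3),(nat_lit 0xa6000699d4),(nat_lit 0xa60006f9d5),(nat_lit 0xa60005e1d6),(nat_lit 0xa6000581d7),(nat_lit 0xa60003b9d8),(nat_lit 0xa6000219d9),(nat_lit 0xb4000199ec),(nat_lit 0xa4800389ed),(nat_lit 0xa5000499ee),(nat_lit 0xa58005b1ef),(nat_lit 0xa5800671f0),(nat_lit 0x96000711f1),(nat_lit 0x95000761f2),(nat_lit 0xa6000781f3),(nat_lit 0xa6000739f4),(nat_lit 0xa58006a1f5),(nat_lit 0xa6000641f6),(nat_lit 0x968004e9f7),(nat_lit 0x96000379f8),(nat_lit 0xa6000239f9),(nat_lit 0xa40001ea0c),(nat_lit 0xa480032a0d),(nat_lit 0xa50004ba0e),(nat_lit 0x958005920f),(nat_lit 0xa58006b210),(nat_lit 0x8580075a11),(nat_lit 0xa600074a13),(nat_lit 0x9580078a14),(nat_lit 0xa58006e215),(nat_lit 0xb580062216),(nat_lit 0xa680048a17),(nat_lit 0xb600035a18),(nat_lit 0xa38000ea2b),(nat_lit 0xb40001da2c),(nat_lit 0x9480034a2d),(nat_lit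 0xa500047a2e),(nat_lit 0xa58006122f),(nat_lit 0xa60006d230),(nat_lit 0xa600077a31),(nat_lit 0xa600074232),(nat_lit 0xa580076a34),(nat_lit 0x760006c235),(nat_lit 0xb60005a236),(nat_lit 0xa60004ca37),(nat_lit 0xb680033a38),(nat_lit 0xb68001fa39),(nat_lit 0xa400022a4c),(nat_lit 0xa480036a4d),(nat_lit 0xb50004da4e),(nat_lit 0xa58006324f),(nat_lit 0xa600069250),(nat_lit 0xa600073251),(nat_lit 0x9580079252),(nat_lit 0x9600077253),(nat_lit 0x9580072254),(nat_lit 0x9600068255),(nat_lit 0x960005c256),(nat_lit 0xb68004aa57),(nat_lit 0xa680039a58),(nat_lit 0xb400020a6c),(nat_lit 0xb48003aa6d),(nat_lit 0xb50005726e),(nat_lit 0xa58005d26f),(nat_lit 0xa60006f270),(nat_lit 0x960006aa71),(nat_lit 0x960006ea72),(nat_lit 0xa48006ca73),(nat_lit 0xa580068a74),(nat_lit 0xa580066275),(nat_lit 0xa600054276),(nat_lit 0xa600046a77),(nat_lit 0x960002fa78),(nat_lit 0xb68001ca79),(nat_lit 0xa400024a8c),(nat_lit 0x948003ca8d),(nat_lit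 0xa50004fa8e),(nat_lit 0xa58005f28f),(nat_lit 0xa60005ea90),(nat_lit 0xa600064a91),(nat_lit 0x9680062a92),(nat_lit 0xa68005aa93),(nat_lit 0xa58005ca94),(nat_lit 0xa600054a95),(nat_lit 0xa600056296),(nat_lit 0xb680044a97),(nat_lit 0xa680031a98),(nat_lit 0xa400026aac),(nat_lit 0xb48003eaad),(nat_lit 0xa500051aae),(nat_lit 0xa5800512af),(nat_lit 0xa600058ab0),(nat_lit 0xb58004f2b1),(nat_lit 0xb6000492b2),(nat_lit 0xa60004d2b3),(nat_lit 0xb68004b2b4),(nat_lit 0xa6000472b5),(nat_lit 0xb6800452b6),(nat_lit 0xb680042ab7),(nat_lit 0xb68002dab8),(nat_lit 0xa4000282cc),(nat_lit 0xa480040acd),(nat_lit 0xa5000402ce),(nat_lit 0xa58003e2cf),(nat_lit 0xa60003c2d0),(nat_lit 0xa5800382d1),(nat_lit 0xa6800362d2),(nat_lit 0xb6800342d3),(nat_lit 0xb60003a2d4),(nat_lit 0xa5800302d5),(nat_lit 0xb6000322d6),(nat_lit 0xb68002e2d7),(nat_lit 0xb68002bad8),(nat_lit 0xb480029aed),(nat_lit 0xa6000242f1),(nat_lit 0xb6800202f3),(nat_lit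 0xb68001d2f5),(nat_lit 0xb6000142f9)]) (by decide +kernel)
theorem root_13_12 : ∃ n, Win n {(0, 0)} {(13, 12)} := near_of_root rt55 false false true true (by decide +kernel)
theorem root_14_13 : ∃ n, Win n {(0, 0)} {(14, 13)} := near_of_root rt55 true false true true (by decide +kernel)
theorem rt56 : ∀ off, ∃ n, AndWin n (dec off (Nat.lor (bit1 530) (bit1 563))) (dec off (bit1 165)) := rootChk_sound tC_good tP_good (gd := gS5_3) gS5_3_good (wd := (nat_lit 15)) (nl := [(nat_lit 3),(nat_lit 1),(nat_lit 5),(nat_lit 7),(nat_lit 9),(nat_lit 13),(nat_lit 11)]) (l := [(nat_lit 0x538000792b),(nat_lit 0x558000c12f),(nat_lit 0x560000f133),(nat_lit 0x640001394c),(nat_lit 0x648001514d),(nat_lit 0x650001614e),(nat_lit 0x658001814f),(nat_lit 0x660001c150),(nat_lit 0x668001a151),(nat_lit 0x660001f152),(nat_lit 0x6600023154),(nat_lit 0x6680021155),(nat_lit 0x6600025156),(nat_lit 0x6600028958),(nat_lit 0x748002a96d),(nat_lit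 0x750002d16e),(nat_lit 0x758003116f),(nat_lit 0x760002f170),(nat_lit 0x7600039171),(nat_lit 0x7600033172),(nat_lit 0x7580035173),(nat_lit 0x7600037174),(nat_lit 0x768003b175),(nat_lit 0x758003d176),(nat_lit 0x768003f177),(nat_lit 0x7600041178),(nat_lit 0x7680029179),(nat_lit 0x840001598c),(nat_lit 0x848002c98d),(nat_lit 0x850004198e),(nat_lit 0x858004418f),(nat_lit 0x8600046190),(nat_lit 0x860004a191),(nat_lit 0x860004c192),(nat_lit 0x8600048193),(nat_lit 0x868004e194),(nat_lit 0x8680057995),(nat_lit 0x8600050196),(nat_lit 0x8600052197),(nat_lit 0x860003f998),(nat_lit 0x938000b9ab),(nat_lit 0x94000179ac),(nat_lit 0x94800309ad),(nat_lit 0x95000439ae),(nat_lit 0x95800551af),(nat_lit 0x96000539b0),(nat_lit 0x960005b9b1),(nat_lit 0x95800599b2),(nat_lit 0x96000619b3),(nat_lit 0x96000639b4),(nat_lit 0x960005d9b5),(nat_lit 0x960005f9b6),(nat_lit 0x96000509b7),(nat_lit 0x960003d9b8),(nat_lit 0xa40001b9cc),(nat_lit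 0xa48002e9cd),(nat_lit 0xa5000459ce),(nat_lit 0xa5800531cf),(nat_lit 0x96000651d0),(nat_lit 0x96000679d1),(nat_lit 0x960006b9d2),(nat_lit 0xa60006d9d3),(nat_lit 0xa6000699d4),(nat_lit 0xa60006f9d5),(nat_lit 0xa60005e1d6),(nat_lit 0xa6000581d7),(nat_lit 0xa60003b9d8),(nat_lit 0xa6000219d9),(nat_lit 0xb4000199ec),(nat_lit 0xa4800389ed),(nat_lit 0xa5000499ee),(nat_lit 0xa58005b1ef),(nat_lit 0xa5800671f0),(nat_lit 0x96000711f1),(nat_lit 0x95000761f2),(nat_lit 0xa6000781f3),(nat_lit 0xa6000739f4),(nat_lit 0xa58006a1f5),(nat_lit 0xa6000641f6),(nat_lit 0x968004e9f7),(nat_lit 0x96000379f8),(nat_lit 0xa6000239f9),(nat_lit 0xa40001ea0c),(nat_lit 0xa480032a0d),(nat_lit 0xa50004ba0e),(nat_lit 0x958005920f),(nat_lit 0xa58006b210),(nat_lit 0x8580075a11),(nat_lit 0xa600074a13),(nat_lit 0x9580078a14),(nat_lit 0xa58006e215),(nat_lit 0xb580062216),(nat_lit 0xa680048a17),(nat_lit 0xb600035a18),(nat_lit 0xa38000ea2b),(nat_lit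 0xb40001da2c),(nat_lit 0x9480034a2d),(nat_lit 0xa500047a2e),(nat_lit 0xa58006122f),(nat_lit 0xa60006d230),(nat_lit 0xa600077a31),(nat_lit 0xa600074232),(nat_lit 0xa580076a34),(nat_lit 0x760006c235),(nat_lit 0xb60005a236),(nat_lit 0xa60004ca37),(nat_lit 0xb680033a38),(nat_lit 0xb68001fa39),(nat_lit 0xa400022a4c),(nat_lit 0xa480036a4d),(nat_lit 0xb50004da4e),(nat_lit 0xa58006324f),(nat_lit 0xa600069250),(nat_lit 0xa600073251),(nat_lit 0x9580079252),(nat_lit 0x9600077253),(nat_lit 0x9580072254),(nat_lit 0x9600068255),(nat_lit 0x960005c256),(nat_lit 0xb68004aa57),(nat_lit 0xa680039a58),(nat_lit 0xb400020a6c),(nat_lit 0xb48003aa6d),(nat_lit 0xb50005726e),(nat_lit 0xa58005d26f),(nat_lit 0xa60006f270),(nat_lit 0x960006aa71),(nat_lit 0x960006ea72),(nat_lit 0xa48006ca73),(nat_lit 0xa580068a74),(nat_lit 0xa580066275),(nat_lit 0xa600054276),(nat_lit 0xa600046a77),(nat_lit 0x960002fa78),(nat_lit 0xb68001ca79),(nat_lit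 0xa400024a8c),(nat_lit 0x948003ca8d),(nat_lit 0xa50004fa8e),(nat_lit 0xa58005f28f),(nat_lit 0xa60005ea90),(nat_lit 0xa600064a91),(nat_lit 0x9680062a92),(nat_lit 0xa68005aa93),(nat_lit 0xa58005ca94),(nat_lit 0xa600054a95),(nat_lit 0xa600056296),(nat_lit 0xb680044a97),(nat_lit 0xa680031a98),(nat_lit 0xa400026aac),(nat_lit 0xb48003eaad),(nat_lit 0xa500051aae),(nat_lit 0xa5800512af),(nat_lit 0xa600058ab0),(nat_lit 0xb58004f2b1),(nat_lit 0xb6000492b2),(nat_lit 0xa60004d2b3),(nat_lit 0xb68004b2b4),(nat_lit 0xa6000472b5),(nat_lit 0xb6800452b6),(nat_lit 0xb680042ab7),(nat_lit 0xb68002dab8),(nat_lit 0xa4000282cc),(nat_lit 0xa480040acd),(nat_lit 0xa5000402ce),(nat_lit 0xa58003e2cf),(nat_lit 0xa60003c2d0),(nat_lit 0xa5800382d1),(nat_lit 0xa6800362d2),(nat_lit 0xb6800342d3),(nat_lit 0xb60003a2d4),(nat_lit 0xa5800302d5),(nat_lit 0xb6000322d6),(nat_lit 0xb68002e2d7),(nat_lit 0xb68002bad8),(nat_lit 0xb480029aed),(nat_lit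 0xa6000242f1),(nat_lit 0xb6800202f3),(nat_lit 0xb68001d2f5),(nat_lit 0xb6000142f9)]) (by decide +kernel)
theorem root_13_11 : ∃ n, Win n {(0, 0)} {(13, 11)} := near_of_root rt56 false false true true (by decide +kernel)
theorem root_14_12 : ∃ n, Win n {(0, 0)} {(14, 12)} := near_of_root rt56 true false true true (by decide +kernel)
theorem rt57 : ∀ off, ∃ n, AndWin n (dec off (Nat.lor (bit1 525) (bit1 558))) (dec off (bit1 667)) := rootChk_sound tC_good tP_good (gd := gS0_3) gS0_3_good (wd := (nat_lit 3)) (nl := [(nat_lit 5),(nat_lit 7),(nat_lit 13),(nat_lit 9),(nat_lit 11),(nat_lit 15)]) (l := [(nat_lit 0x5100007926),(nat_lit 0x530000c12a),(nat_lit 0x538000f12e),(nat_lit 0x6180013947),(nat_lit 0x6200015148),(nat_lit 0x6280016149),(nat_lit 0x630001814a),(nat_lit 0x638001c14b),(nat_lit 0x640001a14c),(nat_lit 0x638001f14d),(nat_lit 0x638002314f),(nat_lit 0x6400021150),(nat_lit 0x6380025151),(nat_lit 0x6380028953),(nat_lit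 0x7180014967),(nat_lit 0x720002a968),(nat_lit 0x728002d169),(nat_lit 0x730003116a),(nat_lit 0x738002f16b),(nat_lit 0x738003916c),(nat_lit 0x738003316d),(nat_lit 0x730003516e),(nat_lit 0x738003716f),(nat_lit 0x740003b170),(nat_lit 0x730003d171),(nat_lit 0x740003f172),(nat_lit 0x7380041173),(nat_lit 0x7400029174),(nat_lit 0x8180015987),(nat_lit 0x820002c988),(nat_lit 0x8280041989),(nat_lit 0x830004418a),(nat_lit 0x838004618b),(nat_lit 0x838004a18c),(nat_lit 0x838004c18d),(nat_lit 0x838004818e),(nat_lit 0x840004e18f),(nat_lit 0x8400057990),(nat_lit 0x8380050191),(nat_lit 0x8380052192),(nat_lit 0x838003f993),(nat_lit 0x910000b9a6),(nat_lit 0x91800179a7),(nat_lit 0x92000309a8),(nat_lit 0x92800439a9),(nat_lit 0x93000551aa),(nat_lit 0x93800539ab),(nat_lit 0x938005b9ac),(nat_lit 0x93000599ad),(nat_lit 0x93800619ae),(nat_lit 0x93800639af),(nat_lit 0x938005d9b0),(nat_lit 0x938005f9b1),(nat_lit 0x93800509b2),(nat_lit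 0x938003d9b3),(nat_lit 0xa18001b9c7),(nat_lit 0xa20002e9c8),(nat_lit 0xa2800459c9),(nat_lit 0xa3000531ca),(nat_lit 0x93800651cb),(nat_lit 0x93800679cc),(nat_lit 0x938006b9cd),(nat_lit 0xa38006d9ce),(nat_lit 0xa3800699cf),(nat_lit 0xa38006f9d0),(nat_lit 0xa38005e1d1),(nat_lit 0xa3800581d2),(nat_lit 0xa38003b9d3),(nat_lit 0xa3800219d4),(nat_lit 0xb1800199e7),(nat_lit 0xa2000389e8),(nat_lit 0xa2800499e9),(nat_lit 0xa30005b1ea),(nat_lit 0xa3000671eb),(nat_lit 0x93800711ec),(nat_lit 0x92800761ed),(nat_lit 0xa3800781ee),(nat_lit 0xa3800739ef),(nat_lit 0xa30006a1f0),(nat_lit 0xa3800641f1),(nat_lit 0x940004e9f2),(nat_lit 0x93800379f3),(nat_lit 0xa3800239f4),(nat_lit 0xa18001ea07),(nat_lit 0xa200032a08),(nat_lit 0xa28004ba09),(nat_lit 0x930005920a),(nat_lit 0xa30006b20b),(nat_lit 0x8300075a0c),(nat_lit 0xa380074a0e),(nat_lit 0x9300078a0f),(nat_lit 0xa30006e210),(nat_lit 0xb300062211),(nat_lit 0xa400048a12),(nat_lit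 0xb380035a13),(nat_lit 0xa10000ea26),(nat_lit 0xb18001da27),(nat_lit 0x9200034a28),(nat_lit 0xa280047a29),(nat_lit 0xa30006122a),(nat_lit 0xa38006d22b),(nat_lit 0xa380077a2c),(nat_lit 0xa38007422d),(nat_lit 0xa300076a2f),(nat_lit 0x738006c230),(nat_lit 0xb38005a231),(nat_lit 0xa38004ca32),(nat_lit 0xb400033a33),(nat_lit 0xb40001fa34),(nat_lit 0xa180022a47),(nat_lit 0xa200036a48),(nat_lit 0xb28004da49),(nat_lit 0xa30006324a),(nat_lit 0xa38006924b),(nat_lit 0xa38007324c),(nat_lit 0x930007924d),(nat_lit 0x938007724e),(nat_lit 0x930007224f),(nat_lit 0x9380068250),(nat_lit 0x938005c251),(nat_lit 0xb40004aa52),(nat_lit 0xa400039a53),(nat_lit 0xb180020a67),(nat_lit 0xb20003aa68),(nat_lit 0xb280057269),(nat_lit 0xa30005d26a),(nat_lit 0xa38006f26b),(nat_lit 0x938006aa6c),(nat_lit 0x938006ea6d),(nat_lit 0xa20006ca6e),(nat_lit 0xa300068a6f),(nat_lit 0xa300066270),(nat_lit 0xa380054271),(nat_lit 0xa380046a72),(nat_lit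 0x938002fa73),(nat_lit 0xb40001ca74),(nat_lit 0xa180024a87),(nat_lit 0x920003ca88),(nat_lit 0xa28004fa89),(nat_lit 0xa30005f28a),(nat_lit 0xa38005ea8b),(nat_lit 0xa380064a8c),(nat_lit 0x9400062a8d),(nat_lit 0xa40005aa8e),(nat_lit 0xa30005ca8f),(nat_lit 0xa380054a90),(nat_lit 0xa380056291),(nat_lit 0xb400044a92),(nat_lit 0xa400031a93),(nat_lit 0xa180026aa7),(nat_lit 0xb20003eaa8),(nat_lit 0xa280051aa9),(nat_lit 0xa3000512aa),(nat_lit 0xa380058aab),(nat_lit 0xb30004f2ac),(nat_lit 0xb3800492ad),(nat_lit 0xa38004d2ae),(nat_lit 0xb40004b2af),(nat_lit 0xa3800472b0),(nat_lit 0xb4000452b1),(nat_lit 0xb400042ab2),(nat_lit 0xb40002dab3),(nat_lit 0xa1800282c7),(nat_lit 0xa200040ac8),(nat_lit 0xa2800402c9),(nat_lit 0xa30003e2ca),(nat_lit 0xa38003c2cb),(nat_lit 0xa3000382cc),(nat_lit 0xa4000362cd),(nat_lit 0xb4000342ce),(nat_lit 0xb38003a2cf),(nat_lit 0xa3000302d0),(nat_lit 0xb3800322d1),(nat_lit 0xb40002e2d2),(nat_lit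 0xb40002bad3),(nat_lit 0xb200029ae8),(nat_lit 0xa3800242ec),(nat_lit 0xb4000202ee),(nat_lit 0xb40001d2f0),(nat_lit 0xb3800142f4)]) (by decide +kernel)
theorem root_14_4 : ∃ n, Win n {(0, 0)} {(14, 4)} := near_of_root rt57 false false false false (by decide +kernel)
theorem rt58 : ∀ off, ∃ n, AndWin n (dec off (Nat.lor (bit1 530) (bit1 563))) (dec off (bit1 485)) := rootChk_sound tC_good tP_good (gd := gS5_3) gS5_3_good (wd := (nat_lit 11)) (nl := [(nat_lit 17),(nat_lit 1),(nat_lit 3),(nat_lit 5),(nat_lit 7),(nat_lit 9),(nat_lit 13)]) (l := [(nat_lit 0x558000c12f),(nat_lit 0x560000f133),(nat_lit 0x640001394c),(nat_lit 0x648001514d),(nat_lit 0x650001614e),(nat_lit 0x658001814f),(nat_lit 0x660001c150),(nat_lit 0x668001a151),(nat_lit 0x660001f152),(nat_lit 0x6600023154),(nat_lit 0x6680021155),(nat_lit 0x6600025156),(nat_lit 0x6600028958),(nat_lit 0x740001496c),(nat_lit 0x748002a96d),(nat_lit 0x750002d16e),(nat_lit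 0x758003116f),(nat_lit 0x760002f170),(nat_lit 0x7600039171),(nat_lit 0x7600033172),(nat_lit 0x7580035173),(nat_lit 0x7600037174),(nat_lit 0x768003b175),(nat_lit 0x758003d176),(nat_lit 0x768003f177),(nat_lit 0x7600041178),(nat_lit 0x7680029179),(nat_lit 0x840001598c),(nat_lit 0x848002c98d),(nat_lit 0x850004198e),(nat_lit 0x858004418f),(nat_lit 0x8600046190),(nat_lit 0x860004a191),(nat_lit 0x860004c192),(nat_lit 0x8600048193),(nat_lit 0x868004e194),(nat_lit 0x8680057995),(nat_lit 0x8600050196),(nat_lit 0x8600052197),(nat_lit 0x860003f998),(nat_lit 0x938000b9ab),(nat_lit 0x94000179ac),(nat_lit 0x94800309ad),(nat_lit 0x95000439ae),(nat_lit 0x95800551af),(nat_lit 0x96000539b0),(nat_lit 0x960005b9b1),(nat_lit 0x95800599b2),(nat_lit 0x96000619b3),(nat_lit 0x96000639b4),(nat_lit 0x960005d9b5),(nat_lit 0x960005f9b6),(nat_lit 0x96000509b7),(nat_lit 0x960003d9b8),(nat_lit 0xa40001b9cc),(nat_lit 0xa48002e9cd),(nat_lit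 0xa5000459ce),(nat_lit 0xa5800531cf),(nat_lit 0x96000651d0),(nat_lit 0x96000679d1),(nat_lit 0x960006b9d2),(nat_lit 0xa60006d9d3),(nat_lit 0xa6000699d4),(nat_lit 0xa60006f9d5),(nat_lit 0xa60005e1d6),(nat_lit 0xa6000581d7),(nat_lit 0xa60003b9d8),(nat_lit 0xa6000219d9),(nat_lit 0xb4000199ec),(nat_lit 0xa4800389ed),(nat_lit 0xa5000499ee),(nat_lit 0xa58005b1ef),(nat_lit 0xa5800671f0),(nat_lit 0x96000711f1),(nat_lit 0x95000761f2),(nat_lit 0xa6000781f3),(nat_lit 0xa6000739f4),(nat_lit 0xa58006a1f5),(nat_lit 0xa6000641f6),(nat_lit 0x968004e9f7),(nat_lit 0x96000379f8),(nat_lit 0xa6000239f9),(nat_lit 0xa40001ea0c),(nat_lit 0xa480032a0d),(nat_lit 0xa50004ba0e),(nat_lit 0x958005920f),(nat_lit 0xa58006b210),(nat_lit 0x8580075a11),(nat_lit 0xa600074a13),(nat_lit 0x9580078a14),(nat_lit 0xa58006e215),(nat_lit 0xb580062216),(nat_lit 0xa680048a17),(nat_lit 0xb600035a18),(nat_lit 0xa38000ea2b),(nat_lit 0xb40001da2c),(nat_lit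 0x9480034a2d),(nat_lit 0xa500047a2e),(nat_lit 0xa58006122f),(nat_lit 0xa60006d230),(nat_lit 0xa600077a31),(nat_lit 0xa600074232),(nat_lit 0xa580076a34),(nat_lit 0x760006c235),(nat_lit 0xb60005a236),(nat_lit 0xa60004ca37),(nat_lit 0xb680033a38),(nat_lit 0xb68001fa39),(nat_lit 0xa400022a4c),(nat_lit 0xa480036a4d),(nat_lit 0xb50004da4e),(nat_lit 0xa58006324f),(nat_lit 0xa600069250),(nat_lit 0xa600073251),(nat_lit 0x9580079252),(nat_lit 0x9600077253),(nat_lit 0x9580072254),(nat_lit 0x9600068255),(nat_lit 0x960005c256),(nat_lit 0xb68004aa57),(nat_lit 0xa680039a58),(nat_lit 0xb400020a6c),(nat_lit 0xb48003aa6d),(nat_lit 0xb50005726e),(nat_lit 0xa58005d26f),(nat_lit 0xa60006f270),(nat_lit 0x960006aa71),(nat_lit 0x960006ea72),(nat_lit 0xa48006ca73),(nat_lit 0xa580068a74),(nat_lit 0xa580066275),(nat_lit 0xa600054276),(nat_lit 0xa600046a77),(nat_lit 0x960002fa78),(nat_lit 0xb68001ca79),(nat_lit 0xa400024a8c),(nat_lit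 0x948003ca8d),(nat_lit 0xa50004fa8e),(nat_lit 0xa58005f28f),(nat_lit 0xa60005ea90),(nat_lit 0xa600064a91),(nat_lit 0x9680062a92),(nat_lit 0xa68005aa93),(nat_lit 0xa58005ca94),(nat_lit 0xa600054a95),(nat_lit 0xa600056296),(nat_lit 0xb680044a97),(nat_lit 0xa680031a98),(nat_lit 0xa400026aac),(nat_lit 0xb48003eaad),(nat_lit 0xa500051aae),(nat_lit 0xa5800512af),(nat_lit 0xa600058ab0),(nat_lit 0xb58004f2b1),(nat_lit 0xb6000492b2),(nat_lit 0xa60004d2b3),(nat_lit 0xb68004b2b4),(nat_lit 0xa6000472b5),(nat_lit 0xb6800452b6),(nat_lit 0xb680042ab7),(nat_lit 0xb68002dab8),(nat_lit 0xa4000282cc),(nat_lit 0xa480040acd),(nat_lit 0xa5000402ce),(nat_lit 0xa58003e2cf),(nat_lit 0xa60003c2d0),(nat_lit 0xa5800382d1),(nat_lit 0xa6800362d2),(nat_lit 0xb6800342d3),(nat_lit 0xb60003a2d4),(nat_lit 0xa5800302d5),(nat_lit 0xb6000322d6),(nat_lit 0xb68002e2d7),(nat_lit 0xb68002bad8),(nat_lit 0xb480029aed),(nat_lit 0xa6000242f1),(nat_lit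 0xb6800202f3),(nat_lit 0xb68001d2f5),(nat_lit 0xb6000142f9)]) (by decide +kernel)
theorem root_13_1 : ∃ n, Win n {(0, 0)} {(13, 1)} := near_of_root rt58 false false true true (by decide +kernel)
theorem root_14_2 : ∃ n, Win n {(0, 0)} {(14, 2)} := near_of_root rt58 true false true true (by decide +kernel)
theorem rt59 : ∀ off, ∃ n, AndWin n (dec off (Nat.lor (bit1 530) (bit1 563))) (dec off (bit1 581)) := rootChk_sound tC_good tP_good (gd := gS5_3) gS5_3_good (wd := (nat_lit 1)) (nl := [(nat_lit 3),(nat_lit 5),(nat_lit 7),(nat_lit 9),(nat_lit 11),(nat_lit 13)]) (l := [(nat_lit 0x538000792b),(nat_lit 0x558000c12f),(nat_lit 0x560000f133),(nat_lit 0x640001394c),(nat_lit 0x648001514d),(nat_lit 0x650001614e),(nat_lit 0x658001814f),(nat_lit 0x660001c150),(nat_lit 0x668001a151),(nat_lit 0x660001f152),(nat_lit 0x6600023154),(nat_lit 0x6680021155),(nat_lit 0x6600025156),(nat_lit 0x6600028958),(nat_lit 0x740001496c),(nat_lit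 0x748002a96d),(nat_lit 0x750002d16e),(nat_lit 0x758003116f),(nat_lit 0x760002f170),(nat_lit 0x7600039171),(nat_lit 0x7600033172),(nat_lit 0x7580035173),(nat_lit 0x7600037174),(nat_lit 0x768003b175),(nat_lit 0x758003d176),(nat_lit 0x768003f177),(nat_lit 0x7600041178),(nat_lit 0x7680029179),(nat_lit 0x840001598c),(nat_lit 0x848002c98d),(nat_lit 0x850004198e),(nat_lit 0x858004418f),(nat_lit 0x8600046190),(nat_lit 0x860004a191),(nat_lit 0x860004c192),(nat_lit 0x8600048193),(nat_lit 0x868004e194),(nat_lit 0x8680057995),(nat_lit 0x8600050196),(nat_lit 0x8600052197),(nat_lit 0x860003f998),(nat_lit 0x938000b9ab),(nat_lit 0x94000179ac),(nat_lit 0x94800309ad),(nat_lit 0x95000439ae),(nat_lit 0x95800551af),(nat_lit 0x96000539b0),(nat_lit 0x960005b9b1),(nat_lit 0x95800599b2),(nat_lit 0x96000619b3),(nat_lit 0x96000639b4),(nat_lit 0x960005d9b5),(nat_lit 0x960005f9b6),(nat_lit 0x96000509b7),(nat_lit 0x960003d9b8),(nat_lit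 0xa40001b9cc),(nat_lit 0xa48002e9cd),(nat_lit 0xa5000459ce),(nat_lit 0xa5800531cf),(nat_lit 0x96000651d0),(nat_lit 0x96000679d1),(nat_lit 0x960006b9d2),(nat_lit 0xa60006d9d3),(nat_lit 0xa6000699d4),(nat_lit 0xa60006f9d5),(nat_lit 0xa60005e1d6),(nat_lit 0xa6000581d7),(nat_lit 0xa60003b9d8),(nat_lit 0xa6000219d9),(nat_lit 0xb4000199ec),(nat_lit 0xa4800389ed),(nat_lit 0xa5000499ee),(nat_lit 0xa58005b1ef),(nat_lit 0xa5800671f0),(nat_lit 0x96000711f1),(nat_lit 0x95000761f2),(nat_lit 0xa6000781f3),(nat_lit 0xa6000739f4),(nat_lit 0xa58006a1f5),(nat_lit 0xa6000641f6),(nat_lit 0x968004e9f7),(nat_lit 0x96000379f8),(nat_lit 0xa6000239f9),(nat_lit 0xa40001ea0c),(nat_lit 0xa480032a0d),(nat_lit 0xa50004ba0e),(nat_lit 0x958005920f),(nat_lit 0xa58006b210),(nat_lit 0x8580075a11),(nat_lit 0xa600074a13),(nat_lit 0x9580078a14),(nat_lit 0xa58006e215),(nat_lit 0xb580062216),(nat_lit 0xa680048a17),(nat_lit 0xb600035a18),(nat_lit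 0xa38000ea2b),(nat_lit 0xb40001da2c),(nat_lit 0x9480034a2d),(nat_lit 0xa500047a2e),(nat_lit 0xa58006122f),(nat_lit 0xa60006d230),(nat_lit 0xa600077a31),(nat_lit 0xa600074232),(nat_lit 0xa580076a34),(nat_lit 0x760006c235),(nat_lit 0xb60005a236),(nat_lit 0xa60004ca37),(nat_lit 0xb680033a38),(nat_lit 0xb68001fa39),(nat_lit 0xa400022a4c),(nat_lit 0xa480036a4d),(nat_lit 0xb50004da4e),(nat_lit 0xa58006324f),(nat_lit 0xa600069250),(nat_lit 0xa600073251),(nat_lit 0x9580079252),(nat_lit 0x9600077253),(nat_lit 0x9580072254),(nat_lit 0x9600068255),(nat_lit 0x960005c256),(nat_lit 0xb68004aa57),(nat_lit 0xa680039a58),(nat_lit 0xb400020a6c),(nat_lit 0xb48003aa6d),(nat_lit 0xb50005726e),(nat_lit 0xa58005d26f),(nat_lit 0xa60006f270),(nat_lit 0x960006aa71),(nat_lit 0x960006ea72),(nat_lit 0xa48006ca73),(nat_lit 0xa580068a74),(nat_lit 0xa580066275),(nat_lit 0xa600054276),(nat_lit 0xa600046a77),(nat_lit 0x960002fa78),(nat_lit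 0xb68001ca79),(nat_lit 0xa400024a8c),(nat_lit 0x948003ca8d),(nat_lit 0xa50004fa8e),(nat_lit 0xa58005f28f),(nat_lit 0xa60005ea90),(nat_lit 0xa600064a91),(nat_lit 0x9680062a92),(nat_lit 0xa68005aa93),(nat_lit 0xa58005ca94),(nat_lit 0xa600054a95),(nat_lit 0xa600056296),(nat_lit 0xb680044a97),(nat_lit 0xa680031a98),(nat_lit 0xa400026aac),(nat_lit 0xb48003eaad),(nat_lit 0xa500051aae),(nat_lit 0xa5800512af),(nat_lit 0xa600058ab0),(nat_lit 0xb58004f2b1),(nat_lit 0xb6000492b2),(nat_lit 0xa60004d2b3),(nat_lit 0xb68004b2b4),(nat_lit 0xa6000472b5),(nat_lit 0xb6800452b6),(nat_lit 0xb680042ab7),(nat_lit 0xb68002dab8),(nat_lit 0xa4000282cc),(nat_lit 0xa480040acd),(nat_lit 0xa5000402ce),(nat_lit 0xa58003e2cf),(nat_lit 0xa60003c2d0),(nat_lit 0xa5800382d1),(nat_lit 0xa6800362d2),(nat_lit 0xb6800342d3),(nat_lit 0xb60003a2d4),(nat_lit 0xa5800302d5),(nat_lit 0xb6000322d6),(nat_lit 0xb68002e2d7),(nat_lit 0xb68002bad8),(nat_lit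 0xb480029aed),(nat_lit 0xa6000242f1),(nat_lit 0xb6800202f3),(nat_lit 0xb68001d2f5),(nat_lit 0xb6000142f9)]) (by decide +kernel)
theorem root_13_2 : ∃ n, Win n {(0, 0)} {(13, 2)} := near_of_root rt59 false false true false (by decide +kernel)
theorem root_14_1 : ∃ n, Win n {(0, 0)} {(14, 1)} := near_of_root rt59 true false true false (by decide +kernel)
end Pool.Agent.Gomoku
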