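import Pool.Agent.Helper47.GomZ.R0
import Pool.Agent.Helper47.GomZ.R1
import Pool.Agent.Helper47.GomZ.R2
import Pool.Agent.Helper47.GomZ.R3
import Pool.Agent.Helper47.GomZ.R4
import Pool.Agent.Helper47.GomZ.R5
import Pool.Agent.Helper47.GomZ.R6
import Pool.Agent.Helper47.GomZ.R7
import Pool.Agent.Helper47.GomZ.R8
import Pool.Agent.Helper47.GomZ.R9
import Pool.Agent.Helper47.GomZ.R10
import Pool.Agent.Helper47.GomZ.R11
set_option autoImplicit false
set_option linter.all false
namespace Pool.Agent.Gomoku
theorem near14 : ∀ a b : ℤ, 0 ≤ b → b ≤ a → 1 ≤ a → a ≤ 14 → ∃ n, Win n {(0, 0)} {(a, b)} := by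
  intro a b h0 h1 h2 h3
  interval_cases a <;> interval_cases b
  exacts [root_1_0,
    root_1_1,
    root_2_0,
    root_2_1,
    root_2_2,
    root_3_0,
    root_3_1,
    root_3_2,
    root_3_3,
    root_4_0,
    root_4_1,
    root_4_2,
    root_4_3,
    root_4_4,
    root_5_0,
    root_5_1,
    root_5_2,
    root_5_3,
    root_5_4,
    root_5_5,
    root_6_0,
    root_6_1,
    root_6_2,
    root_6_3,
    root_6_4,
    root_6_5,
    root_6_6,
    root_7_0,
    root_7_1,
    root_7_2,
    root_7_3,
    root_7_4,
    root_7_5,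
    root_7_6,
    root_7_7,
    root_8_0,
    root_8_1,
    root_8_2,
    root_8_3,
    root_8_4,
    root_8_5,
    root_8_6,
    root_8_7,
    root_8_8,
    root_9_0,
    root_9_1,
    root_9_2,
    root_9_3,
    root_9_4,
    root_9_5,
    root_9_6,
    root_9_7,
    root_9_8,
    root_9_9,
    root_10_0,
    root_10_1,
    root_10_2,
    root_10_3,
    root_10_4,
    root_10_5,
    root_10_6,
    root_10_7,
    root_10_8,
    root_10_9,
    root_10_10,
    root_11_0,
    root_11_1,
    root_11_2,
    root_11_3,
    root_11_4,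
    root_11_5,
    root_11_6,
    root_11_7,
    root_11_8,
    root_11_9,
    root_11_10,
    root_11_11,
    root_12_0,
    root_12_1,
    root_12_2,
    root_12_3,
    root_12_4,
    root_12_5,
    root_12_6,
    root_12_7,
    root_12_8,
    root_12_9,
    root_12_10,
    root_12_11,
    root_12_12,
    root_13_0,
    root_13_1,
    root_13_2,
    root_13_3,
    root_13_4,
    root_13_5,
    root_13_6,
    root_13_7,
    root_13_8,
    root_13_9,
    root_13_10,
    root_13_11,
    root_13_12,
    root_13_13,
    root_14_0,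
    root_14_1,
    root_14_2,
    root_14_3,
    root_14_4,
    root_14_5,
    root_14_6,
    root_14_7,
    root_14_8,
    root_14_9,
    root_14_10,
    root_14_11,
    root_14_12,
    root_14_13,
    root_14_14]
theorem win_all : ∃ n, Win n ∅ ∅ := win_of_table 14 (by norm_num) far14 near14
end Pool.Agent.Gomoku
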